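import Pool.Agent.TFC.Mink

/-!
Lemma 6.3: units of a cluster with two centres.
-/

set_option autoImplicit false
set_option linter.unusedSectionVars false

namespace Pool.Agent.TFC

open Finset
open scoped Pointwise

variable {V : Type*} [DecidableEq V]

/-- indicator vector -/
private def r2ind (S : Finset V) : V → ℤ := ∑ l ∈ S, ev l

private lemma r2ind_apply (S : Finset V) (v : V) : r2ind S v = if v ∈ S then 1 else 0 := by
  simp only [r2ind, Finset.sum_apply, ev_apply]
  rw [Finset.sum_ite_eq]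

/-- the star at `w` with leaves `A` -/
private def r2st (w : V) (A : Finset V) : Finset (Sym2 V) := A.image (fun l => s(w, l))

private lemma r2_mem_st {w x y : V} {A : Finset V} :
    s(x, y) ∈ r2st w A ↔ (x = w ∧ y ∈ A) ∨ (y = w ∧ x ∈ A) := by
  simp only [r2st, mem_image, Sym2.eq_iff]
  constructor
  · rintro ⟨a, ha, (⟨rfl, rfl⟩ | ⟨rfl, rfl⟩)⟩
    · exact Or.inl ⟨rfl, ha⟩
    · exact Or.inr ⟨rfl, ha⟩
  · rintro (⟨rfl, h⟩ | ⟨rfl, h⟩)
    · exact ⟨y, h, Or.inl ⟨rfl, rfl⟩⟩
    · exact ⟨x, h, Or.inr ⟨rfl, rfl⟩⟩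

private lemma r2_dv_st {w : V} {A : Finset V} (hw : w ∉ A) :
    dv (r2st w A) = r2ind A + (#A : ℤ) • ev w := by
  induction A using Finset.induction_on with
  | empty => funext v; simp [r2st, r2ind, dv, dg]
  | insert a A ha ih =>
    rw [mem_insert, not_or] at hw
    have h1 : r2st w (insert a A) = insert s(w, a) (r2st w A) := by
      simp [r2st, image_insert]
    rw [h1, dv_insert hw.1, ih hw.2, card_insert_of_notMem ha]
    · rw [r2ind, r2ind, Finset.sum_insert ha]
      push_cast
      rw [add_smul, one_smul]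
      abel
    · rw [r2_mem_st]
      rintro (⟨-, h⟩ | ⟨h, -⟩)
      · exact ha h
      · exact hw.1 h.symm

private lemma r2_dv_union {s t : Finset (Sym2 V)} (h : Disjoint s t) :
    dv (s ∪ t) = dv s + dv t := by
  funext v
  simp only [dv, dg, Pi.add_apply]
  rw [filter_union, card_union_of_disjoint (disjoint_filter_filter h)]
  push_cast
  rfl

/-- the degree vector of the star at `w` with leaves `A` and the star at `w'` with leaves `B` -/
private def r2K (w w' : V) (A B : Finset V) : V → ℤ :=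
  r2ind A + r2ind B + (#A : ℤ) • ev w + (#B : ℤ) • ev w'

private lemma r2_dv {w w' : V} {L A B : Finset V} (h1 : w ≠ w') (h2 : w ∉ L) (h3 : w' ∉ L)
    (hA : A ⊆ L) (hB : B ⊆ L) : dv (r2st w A ∪ r2st w' B) = r2K w w' A B := by
  have hd : Disjoint (r2st w A) (r2st w' B) := by
    rw [Finset.disjoint_left]
    intro e
    induction e using Sym2.ind with
    | _ x y =>
      rw [r2_mem_st, r2_mem_st]
      rintro (⟨rfl, h⟩ | ⟨rfl, h⟩) (⟨h4, h5⟩ | ⟨h4, h5⟩)
      · exact h1 h4
      · exact h3 (h4 ▸ hA h)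
      · exact h3 (h4 ▸ hA h)
      · exact h1 h4
  rw [r2_dv_union hd, r2_dv_st (fun h => h2 (hA h)), r2_dv_st (fun h => h3 (hB h)), r2K]
  abel

private lemma r2K_w {w w' : V} {L A B : Finset V} (h1 : w ≠ w') (h2 : w ∉ L)
    (hA : A ⊆ L) (hB : B ⊆ L) : r2K w w' A B w = #A := by
  have h4 : w ∉ A := fun h => h2 (hA h)
  have h5 : w ∉ B := fun h => h2 (hB h)
  simp [r2K, r2ind_apply, h4, h5, ev_apply, h1]

private lemma r2K_w' {w w' : V} {L A B : Finset V} (h1 : w ≠ w') (h2 : w' ∉ L)
    (hA : A ⊆ L) (hB : B ⊆ L) : r2K w w' A B w' = #B := by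
  have h4 : w' ∉ A := fun h => h2 (hA h)
  have h5 : w' ∉ B := fun h => h2 (hB h)
  simp [r2K, r2ind_apply, h4, h5, ev_apply, h1.symm]

private lemma r2K_other {w w' v : V} {A B : Finset V} (h1 : v ≠ w) (h2 : v ≠ w') :
    r2K w w' A B v ≤ 2 := by
  simp only [r2K, Pi.add_apply, r2ind_apply, Pi.smul_apply, ev_apply, h1, h2, if_false, smul_zero,
    add_zero]
  split_ifs <;> norm_num

private lemma r2K_eraseA {w w' t : V} {A B : Finset V} (ht : t ∈ A) :
    r2K w w' A B = r2K w w' (A.erase t) B + (ev w + ev t) := by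
  have h1 : r2ind A = r2ind (A.erase t) + ev t := by
    rw [r2ind, r2ind, Finset.sum_erase_add _ _ ht]
  have h2 : ((#A : ℕ) : ℤ) = (#(A.erase t) : ℤ) + 1 := by
    rw [← card_erase_add_one ht]; push_cast; rfl
  rw [r2K, r2K, h1, h2, add_smul, one_smul]
  abel

private lemma r2K_eraseB {w w' t : V} {A B : Finset V} (ht : t ∈ B) :
    r2K w w' A B = r2K w w' A (B.erase t) + (ev w' + ev t) := by
  have h1 : r2ind B = r2ind (B.erase t) + ev t := by
    rw [r2ind, r2ind, Finset.sum_erase_add _ _ ht]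
  have h2 : ((#B : ℕ) : ℤ) = (#(B.erase t) : ℤ) + 1 := by
    rw [← card_erase_add_one ht]; push_cast; rfl
  rw [r2K, r2K, h1, h2, add_smul, one_smul]
  abel

private lemma r2K_insA {w w' t : V} {A B : Finset V} (ht : t ∉ A) :
    r2K w w' A B + (ev w + ev t) = r2K w w' (insert t A) B := by
  rw [r2K_eraseA (mem_insert_self t A), erase_insert ht]

private lemma r2K_insB {w w' t : V} {A B : Finset V} (ht : t ∉ B) :
    r2K w w' A B + (ev w' + ev t) = r2K w w' A (insert t B) := by
  rw [r2K_eraseB (mem_insert_self t B), erase_insert ht]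

private lemma r2_mem_JS {w w' : V} {L A B : Finset V} (h1 : w ≠ w') (h2 : w ∉ L) (h3 : w' ∉ L)
    (hA : A ⊆ L) (hB : B ⊆ L) (cA : #A ≤ 2) (cB : #B ≤ 2) (cAB : #(A ∩ B) ≤ 1) :
    r2K w w' A B ∈ JS (Clu.k2 w w' L).edges none4 := by
  refine ⟨r2st w A ∪ r2st w' B, ?_, ?_, ?_, (r2_dv h1 h2 h3 hA hB).symm⟩
  · exact union_subset_union (image_subset_image hA) (image_subset_image hB)
  · refine M2.of_dv ?_ ?_
    · intro e he
      rcases mem_union.mp he with he | he
      · obtain ⟨l, hl, rfl⟩ := mem_image.mp he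
        intro h; rw [Sym2.mk_isDiag_iff] at h; exact h2 (h ▸ hA hl)
      · obtain ⟨l, hl, rfl⟩ := mem_image.mp he
        intro h; rw [Sym2.mk_isDiag_iff] at h; exact h3 (h ▸ hB hl)
    · intro v
      rw [r2_dv h1 h2 h3 hA hB]
      by_cases hw : v = w
      · subst hw; rw [r2K_w h1 h2 hA hB]; exact_mod_cast cA
      by_cases hw' : v = w'
      · subst hw'; rw [r2K_w' h1 h3 hA hB]; exact_mod_cast cB
      exact r2K_other hw hw'
  · intro a b c d h
    have hm : ∀ {x y : V}, s(x, y) ∈ r2st w A ∪ r2st w' B →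
        (x = w ∧ y ∈ A) ∨ (y = w ∧ x ∈ A) ∨ (x = w' ∧ y ∈ B) ∨ (y = w' ∧ x ∈ B) := by
      intro x y hxy
      rw [mem_union, r2_mem_st, r2_mem_st] at hxy
      tauto
    have hAw : w ∉ A := fun h => h2 (hA h)
    have hAw' : w' ∉ A := fun h => h3 (hA h)
    have hBw : w ∉ B := fun h => h2 (hB h)
    have hBw' : w' ∉ B := fun h => h3 (hB h)
    have hcard : ∀ x y : V, x ≠ y → x ∈ A → x ∈ B → y ∈ A → y ∈ B → False := by
      intro x y hxy h4 h5 h6 h7
      have := card_le_one.mp cAB x (mem_inter.mpr ⟨h4, h5⟩) y (mem_inter.mpr ⟨h6, h7⟩)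
      exact hxy this
    have hac := h.ac
    have hbd := h.bd
    -- a square `x y x' y'` with a centre in first position
    have key : ∀ {a b c d : V}, a ≠ c → b ≠ d →
        (a = w ∧ b ∈ A) ∨ (a = w' ∧ b ∈ B) →
        s(b, c) ∈ r2st w A ∪ r2st w' B → s(c, d) ∈ r2st w A ∪ r2st w' B →
        s(d, a) ∈ r2st w A ∪ r2st w' B → False := by
      intro a b c d hac hbd hab hbc hcd hda
      rcases hab with ⟨rfl, hb⟩ | ⟨rfl, hb⟩
      · rcases hm hbc with ⟨rfl, h5⟩ | ⟨rfl, h5⟩ | ⟨rfl, h5⟩ | ⟨rfl, h5⟩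
        · exact hAw hb
        · exact hac rfl
        · exact hAw' hb
        · rcases hm hda with ⟨rfl, h6⟩ | ⟨-, h6⟩ | ⟨rfl, h6⟩ | ⟨h, h6⟩
          · exact hAw h6
          · rcases hm hcd with ⟨h, h7⟩ | ⟨rfl, h7⟩ | ⟨-, h7⟩ | ⟨rfl, h7⟩
            · exact h1 h.symm
            · exact hAw h6
            · exact hcard b d hbd hb h5 h6 h7
            · exact hAw' h6
          · exact hBw h6
          · exact h1 h
      · rcases hm hbc with ⟨rfl, h5⟩ | ⟨rfl, h5⟩ | ⟨rfl, h5⟩ | ⟨rfl, h5⟩
        · exact hBw hb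
        · rcases hm hda with ⟨rfl, h6⟩ | ⟨h, h6⟩ | ⟨rfl, h6⟩ | ⟨-, h6⟩
          · exact hAw' h6
          · exact h1 h.symm
          · exact hBw' h6
          · rcases hm hcd with ⟨-, h7⟩ | ⟨rfl, h7⟩ | ⟨h, h7⟩ | ⟨rfl, h7⟩
            · exact hcard b d hbd h5 hb h7 h6
            · exact hBw h6
            · exact h1 h
            · exact hBw' h6
        · exact hBw' hb
        · exact hac rfl
    rcases hm h.ab with ⟨h4, h5⟩ | ⟨h4, h5⟩ | ⟨h4, h5⟩ | ⟨h4, h5⟩
    · exact key h.ac h.bd (Or.inl ⟨h4, h5⟩) h.bc h.cd h.da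
    · have hr := h.ref.rot.rot
      exact key hr.ac hr.bd (Or.inl ⟨h4, h5⟩) hr.bc hr.cd hr.da
    · exact key h.ac h.bd (Or.inr ⟨h4, h5⟩) h.bc h.cd h.da
    · have hr := h.ref.rot.rot
      exact key hr.ac hr.bd (Or.inr ⟨h4, h5⟩) hr.bc hr.cd hr.da

private lemma r2_of_mem_JS {w w' : V} {L : Finset V} (h1 : w ≠ w') (h2 : w ∉ L) (h3 : w' ∉ L)
    {k : V → ℤ} (hk : k ∈ JS (Clu.k2 w w' L).edges none4) :
    ∃ A B : Finset V, A ⊆ L ∧ B ⊆ L ∧ #A ≤ 2 ∧ #B ≤ 2 ∧ #(A ∩ B) ≤ 1 ∧ k = r2K w w' A B := by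
  obtain ⟨z, hz, hM, hg, rfl⟩ := hk
  set A := L.filter (fun l => s(w, l) ∈ z) with hA
  set B := L.filter (fun l => s(w', l) ∈ z) with hB
  have hAL : A ⊆ L := filter_subset _ _
  have hBL : B ⊆ L := filter_subset _ _
  have hzz : z = r2st w A ∪ r2st w' B := by
    ext e
    constructor
    · intro he
      have h4 := hz he
      simp only [Clu.edges, mem_union, mem_image] at h4
      rcases h4 with ⟨l, hl, rfl⟩ | ⟨l, hl, rfl⟩
      · exact mem_union_left _ (mem_image.mpr ⟨l, mem_filter.mpr ⟨hl, he⟩, rfl⟩)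
      · exact mem_union_right _ (mem_image.mpr ⟨l, mem_filter.mpr ⟨hl, he⟩, rfl⟩)
    · intro he
      rcases mem_union.mp he with he | he
      · obtain ⟨l, hl, rfl⟩ := mem_image.mp he
        exact (mem_filter.mp hl).2
      · obtain ⟨l, hl, rfl⟩ := mem_image.mp he
        exact (mem_filter.mp hl).2
  have hdv : dv z = r2K w w' A B := by
    rw [← r2_dv h1 h2 h3 hAL hBL, ← hzz]
  refine ⟨A, B, hAL, hBL, ?_, ?_, ?_, hdv⟩
  · have h4 := congrFun hdv w
    rw [r2K_w h1 h2 hAL hBL, dv_apply] at h4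
    have h5 := hM.le w
    have : dg z w = #A := by exact_mod_cast h4
    omega
  · have h4 := congrFun hdv w'
    rw [r2K_w' h1 h3 hAL hBL, dv_apply] at h4
    have h5 := hM.le w'
    have : dg z w' = #B := by exact_mod_cast h4
    omega
  · by_contra hcon
    push Not at hcon
    obtain ⟨a, ha, b, hb, hab⟩ := one_lt_card.mp hcon
    rw [mem_inter] at ha hb
    have a1 := (mem_filter.mp ha.1).2
    have a2 := (mem_filter.mp ha.2).2
    have b1 := (mem_filter.mp hb.1).2
    have b2 := (mem_filter.mp hb.2).2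
    exact hg w a w' b ⟨h1, hab, a1, msw a2, b2, msw b1⟩

private lemma r2_list_mem {w w' : V} : ∀ (l : List V), l.Nodup → ∀ P Q : Finset V,
    (∀ x ∈ P, x ∈ l) → (∀ x ∈ Q, x ∈ l) → Disjoint P Q →
    r2K w w' P Q ∈ sumU (l.map (fun l => (({l} : Finset V), ({w, w'} : Finset V)))) := by
  intro l
  induction l with
  | nil =>
    intro _ P Q hP hQ _
    have h1 : P = ∅ := by
      rw [eq_empty_iff_forall_notMem]; intro x hx; simpa using hP x hx
    have h2 : Q = ∅ := by
      rw [eq_empty_iff_forall_notMem]; intro x hx; simpa using hQ x hx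
    subst h1 h2
    simp [sumU, r2K, r2ind]
  | cons a l ih =>
    intro hn P Q hP hQ hd
    rw [List.nodup_cons] at hn
    rw [List.map_cons, sumU]
    by_cases haP : a ∈ P
    · have haQ : a ∉ Q := Finset.disjoint_left.mp hd haP
      rw [r2K_eraseA haP, add_comm (r2K w w' (P.erase a) Q)]
      refine Set.add_mem_add ?_ ?_
      · refine Or.inr ⟨a, mem_singleton_self a, w, by simp, add_comm _ _⟩
      · refine ih hn.2 _ _ ?_ ?_ (hd.mono_left (erase_subset _ _))
        · intro x hx
          rw [mem_erase] at hx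
          exact (List.mem_cons.mp (hP x hx.2)).resolve_left hx.1
        · intro x hx
          refine (List.mem_cons.mp (hQ x hx)).resolve_left ?_
          rintro rfl; exact haQ hx
    · by_cases haQ : a ∈ Q
      · rw [r2K_eraseB haQ, add_comm (r2K w w' P (Q.erase a))]
        refine Set.add_mem_add ?_ ?_
        · refine Or.inr ⟨a, mem_singleton_self a, w', by simp, add_comm _ _⟩
        · refine ih hn.2 _ _ ?_ ?_ (hd.mono_right (erase_subset _ _))
          · intro x hx
            refine (List.mem_cons.mp (hP x hx)).resolve_left ?_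
            rintro rfl; exact haP hx
          · intro x hx
            rw [mem_erase] at hx
            exact (List.mem_cons.mp (hQ x hx.2)).resolve_left hx.1
      · rw [← zero_add (r2K w w' P Q)]
        refine Set.add_mem_add (Or.inl rfl) ?_
        refine ih hn.2 _ _ ?_ ?_ hd
        · intro x hx
          refine (List.mem_cons.mp (hP x hx)).resolve_left ?_
          rintro rfl; exact haP hx
        · intro x hx
          refine (List.mem_cons.mp (hQ x hx)).resolve_left ?_
          rintro rfl; exact haQ hx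

private lemma r2_of_list_mem {w w' : V} : ∀ (l : List V), l.Nodup → ∀ k : V → ℤ,
    k ∈ sumU (l.map (fun l => (({l} : Finset V), ({w, w'} : Finset V)))) →
    ∃ P Q : Finset V, (∀ x ∈ P, x ∈ l) ∧ (∀ x ∈ Q, x ∈ l) ∧ Disjoint P Q ∧ k = r2K w w' P Q := by
  intro l
  induction l with
  | nil =>
    intro _ k hk
    refine ⟨∅, ∅, by simp, by simp, by simp, ?_⟩
    rw [List.map_nil, sumU, Set.mem_singleton_iff] at hk
    simp [hk, r2K, r2ind]
  | cons a l ih =>
    intro hn k hk
    rw [List.nodup_cons] at hn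
    rw [List.map_cons, sumU] at hk
    obtain ⟨u, hu, t, ht, rfl⟩ := Set.mem_add.mp hk
    obtain ⟨P, Q, hP, hQ, hd, rfl⟩ := ih hn.2 t ht
    have haP : a ∉ P := fun h => hn.1 (hP a h)
    have haQ : a ∉ Q := fun h => hn.1 (hQ a h)
    rcases hu with rfl | ⟨s, hs, t, ht', rfl⟩
    · refine ⟨P, Q, fun x hx => List.mem_cons_of_mem _ (hP x hx),
        fun x hx => List.mem_cons_of_mem _ (hQ x hx), hd, by rw [zero_add]⟩
    · have hs' : s = a := mem_singleton.mp hs
      subst hs'
      have ht'' : t = w ∨ t = w' := by simpa using ht'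
      rcases ht'' with rfl | rfl
      · refine ⟨insert s P, Q, ?_, fun x hx => List.mem_cons_of_mem _ (hQ x hx), ?_, ?_⟩
        · intro x hx
          rcases mem_insert.mp hx with rfl | hx
          · exact List.mem_cons_self
          · exact List.mem_cons_of_mem _ (hP x hx)
        · rw [disjoint_insert_left]; exact ⟨haQ, hd⟩
        · rw [← r2K_insA haP]; abel
      · refine ⟨P, insert s Q, fun x hx => List.mem_cons_of_mem _ (hP x hx), ?_, ?_, ?_⟩
        · intro x hx
          rcases mem_insert.mp hx with rfl | hx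
          · exact List.mem_cons_self
          · exact List.mem_cons_of_mem _ (hQ x hx)
        · rw [disjoint_insert_right]; exact ⟨haP, hd⟩
        · rw [← r2K_insB haQ]; abel

private lemma r2_mem_units {w w' c : V} {L P Q : Finset V} {u1 u2 : V → ℤ}
    (hP : P ⊆ L.erase c) (hQ : Q ⊆ L.erase c) (hd : Disjoint P Q)
    (h1 : u1 = 0 ∨ ∃ t ∈ L, u1 = ev w + ev t) (h2 : u2 = 0 ∨ u2 = ev w' + ev c) :
    r2K w w' P Q + u1 + u2 ∈ sumU (CC.k2 w w' c L).units := by
  rw [CC.units, sumU_append, add_assoc]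
  refine Set.add_mem_add ?_ ?_
  · refine r2_list_mem _ (nodup_toList _) P Q ?_ ?_ hd
    · intro x hx; rw [mem_toList]; exact hP hx
    · intro x hx; rw [mem_toList]; exact hQ hx
  · rw [sumU, sumU, sumU]
    refine Set.add_mem_add ?_ ?_
    · rcases h1 with rfl | ⟨t, ht, rfl⟩
      · exact Or.inl rfl
      · exact Or.inr ⟨w, mem_singleton_self w, t, ht, rfl⟩
    · rw [← add_zero u2]
      refine Set.add_mem_add ?_ (Set.mem_singleton _)
      rcases h2 with rfl | rfl
      · exact Or.inl rfl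
      · exact Or.inr ⟨w', mem_singleton_self w', c, mem_singleton_self c, rfl⟩

private lemma r2_of_mem_units {w w' c : V} {L : Finset V} {k : V → ℤ}
    (hk : k ∈ sumU (CC.k2 w w' c L).units) :
    ∃ (P Q : Finset V) (u1 u2 : V → ℤ), P ⊆ L.erase c ∧ Q ⊆ L.erase c ∧ Disjoint P Q ∧
      (u1 = 0 ∨ ∃ t ∈ L, u1 = ev w + ev t) ∧ (u2 = 0 ∨ u2 = ev w' + ev c) ∧
      k = r2K w w' P Q + u1 + u2 := by
  rw [CC.units, sumU_append] at hk
  obtain ⟨a, ha, b, hb, rfl⟩ := Set.mem_add.mp hk
  obtain ⟨P, Q, hP, hQ, hd, rfl⟩ := r2_of_list_mem _ (nodup_toList _) a ha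
  rw [sumU, sumU, sumU] at hb
  obtain ⟨u1, hu1, r, hr, rfl⟩ := Set.mem_add.mp hb
  obtain ⟨u2, hu2, z, hz, rfl⟩ := Set.mem_add.mp hr
  rw [Set.mem_singleton_iff] at hz
  subst hz
  refine ⟨P, Q, u1, u2, ?_, ?_, hd, ?_, ?_, ?_⟩
  · intro x hx; exact mem_toList.mp (hP x hx)
  · intro x hx; exact mem_toList.mp (hQ x hx)
  · rcases hu1 with rfl | ⟨s, hs, t, ht, rfl⟩
    · exact Or.inl rfl
    · rw [mem_singleton] at hs
      subst hs
      exact Or.inr ⟨t, ht, rfl⟩
  · rcases hu2 with rfl | ⟨s, hs, t, ht, rfl⟩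
    · exact Or.inl rfl
    · rw [mem_singleton] at hs ht
      subst hs ht
      exact Or.inr rfl
  · rw [add_zero]; abel

theorem JS_subset_units_k2 {w w' c : V} {L : Finset V} (hv : (CC.k2 w w' c L).Valid) :
    JS (CC.k2 w w' c L).clu.edges none4 ⊆ sumU (CC.k2 w w' c L).units := by
  obtain ⟨h1, h2, h3, -, hc⟩ := hv
  intro k hk
  obtain ⟨A, B, hA, hB, cA, cB, cAB, rfl⟩ := r2_of_mem_JS h1 h2 h3 hk
  have hAc : A.erase c ⊆ L.erase c := erase_subset_erase c hA
  have hBc : B.erase c ⊆ L.erase c := erase_subset_erase c hB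
  -- the part of `B` at `c`
  have hBB : ∃ u2 : V → ℤ, (u2 = 0 ∨ u2 = ev w' + ev c) ∧
      ∀ P : Finset V, r2K w w' P B = r2K w w' P (B.erase c) + u2 := by
    by_cases hcB : c ∈ B
    · exact ⟨_, Or.inr rfl, fun P => r2K_eraseB hcB⟩
    · exact ⟨0, Or.inl rfl, fun P => by rw [erase_eq_of_notMem hcB, add_zero]⟩
  obtain ⟨u2, hu2, hB2⟩ := hBB
  by_cases hcA : c ∈ A
  · by_cases hcB : c ∈ B
    · -- both
      have hd : Disjoint (A.erase c) (B.erase c) := by
        rw [Finset.disjoint_left]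
        intro x hx hx'
        rw [mem_erase] at hx hx'
        exact hx.1 (card_le_one.mp cAB x (mem_inter.mpr ⟨hx.2, hx'.2⟩) c
          (mem_inter.mpr ⟨hcA, hcB⟩))
      rw [r2K_eraseA hcA, hB2]
      have := r2_mem_units hAc hBc hd (u1 := ev w + ev c) (u2 := u2)
        (Or.inr ⟨c, hc, rfl⟩) hu2
      convert this using 1
      abel
    · have hBL : B ⊆ L.erase c := by
        intro x hx
        rw [mem_erase]
        exact ⟨fun h => hcB (h ▸ hx), hB hx⟩
      by_cases he : A ∩ B = ∅
      · have hd : Disjoint (A.erase c) B :=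
          (disjoint_iff_inter_eq_empty.mpr he).mono_left (erase_subset _ _)
        rw [r2K_eraseA hcA]
        have := r2_mem_units hAc hBL hd (u1 := ev w + ev c) (u2 := 0)
          (Or.inr ⟨c, hc, rfl⟩) (Or.inl rfl) (w := w) (w' := w')
        rwa [add_zero] at this
      · obtain ⟨l, hl⟩ := nonempty_iff_ne_empty.mpr he
        rw [mem_inter] at hl
        have hlc : l ≠ c := fun h => hcB (h ▸ hl.2)
        have hAl : A.erase c = {l} := by
          have h5 : l ∈ A.erase c := mem_erase.mpr ⟨hlc, hl.1⟩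
          have h6 : #(A.erase c) ≤ 1 := by
            have := card_erase_add_one hcA
            omega
          exact eq_singleton_iff_unique_mem.mpr ⟨h5, fun x hx => card_le_one.mp h6 x hx l h5⟩
        have hd : Disjoint ({l} : Finset V) (B.erase l) := by simp
        have hBl : B.erase l ⊆ L.erase c := (erase_subset _ _).trans hBL
        have hll : ({l} : Finset V) ⊆ L.erase c := by
          rw [← hAl]; exact hAc
        have := r2_mem_units hll hBl hd (u1 := ev w + ev l) (u2 := ev w' + ev c)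
          (Or.inr ⟨l, hA hl.1, rfl⟩) (Or.inr rfl) (w := w) (w' := w')
        rw [r2K_eraseA hcA, hAl, r2K_eraseB hl.2]
        convert this using 1
        abel
  · have hAL : A ⊆ L.erase c := by
      intro x hx
      rw [mem_erase]
      exact ⟨fun h => hcA (h ▸ hx), hA hx⟩
    by_cases he : A ∩ B = ∅
    · have hd : Disjoint A (B.erase c) :=
        (disjoint_iff_inter_eq_empty.mpr he).mono_right (erase_subset _ _)
      have := r2_mem_units (w := w) hAL hBc hd (u1 := 0) (u2 := u2) (Or.inl rfl) hu2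
      rw [hB2]
      rwa [add_zero] at this
    · obtain ⟨t, ht⟩ := nonempty_iff_ne_empty.mpr he
      have ht' := mem_inter.mp ht
      have hd : Disjoint (A.erase t) (B.erase c) := by
        rw [Finset.disjoint_left]
        intro x hx hx'
        rw [mem_erase] at hx hx'
        exact hx.1 (card_le_one.mp cAB x (mem_inter.mpr ⟨hx.2, hx'.2⟩) t ht)
      have := r2_mem_units ((erase_subset t A).trans hAL) hBc hd (u1 := ev w + ev t) (u2 := u2)
        (Or.inr ⟨t, hA ht'.1, rfl⟩) hu2
      rw [r2K_eraseA ht'.1, hB2]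
      convert this using 1
      abel

theorem units_k2_le {w w' c : V} {L : Finset V} (hv : (CC.k2 w w' c L).Valid) {k : V → ℤ}
    (hk : k ∈ sumU (CC.k2 w w' c L).units) (h2 : ∀ v, k v ≤ 2) :
    k ∈ JS (CC.k2 w w' c L).clu.edges none4 ∨ ∃ l ∈ L, l ≠ c ∧ k = 2 • ev w + 2 • ev l := by
  obtain ⟨h1, hwL, hwL', -, hc⟩ := hv
  obtain ⟨P, Q, u1, u2, hP, hQ, hd, hu1, hu2, rfl⟩ := r2_of_mem_units hk
  have hcP : c ∉ P := fun h => (mem_erase.mp (hP h)).1 rfl
  have hcQ : c ∉ Q := fun h => (mem_erase.mp (hQ h)).1 rfl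
  have hPL : P ⊆ L := hP.trans (erase_subset _ _)
  have hQL : Q ⊆ L := hQ.trans (erase_subset _ _)
  -- absorb `u2`
  obtain ⟨B, hBL, hdB, hB⟩ : ∃ B : Finset V, B ⊆ L ∧ Disjoint P B ∧
      ∀ A : Finset V, r2K w w' A Q + u2 = r2K w w' A B := by
    rcases hu2 with rfl | rfl
    · exact ⟨Q, hQL, hd, fun A => add_zero _⟩
    · refine ⟨insert c Q, insert_subset hc hQL, ?_, fun A => r2K_insB hcQ⟩
      rw [disjoint_insert_right]; exact ⟨hcP, hd⟩
  have hk2 : r2K w w' P Q + u1 + u2 = r2K w w' P B + u1 := by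
    rw [← hB P]; abel
  rw [hk2] at h2 ⊢
  change _ ∈ JS (Clu.k2 w w' L).edges none4 ∨ _
  rcases hu1 with rfl | ⟨t, htL, rfl⟩
  · left
    rw [add_zero] at h2 ⊢
    refine r2_mem_JS h1 hwL hwL' hPL hBL ?_ ?_ ?_
    · have := h2 w
      rw [r2K_w h1 hwL hPL hBL] at this
      exact_mod_cast this
    · have := h2 w'
      rw [r2K_w' h1 hwL' hPL hBL] at this
      exact_mod_cast this
    · rw [disjoint_iff_inter_eq_empty.mp hdB]; simp
  · by_cases htP : t ∈ P
    · -- `t ∈ P`
      have htw : t ≠ w := fun h => hwL (h ▸ htL)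
      have htw' : t ≠ w' := fun h => hwL' (h ▸ htL)
      have hwt : ev t w = 0 := ev_ne htw.symm
      have hP1 : P = {t} := by
        have h5 := h2 w
        rw [Pi.add_apply, Pi.add_apply, r2K_w h1 hwL hPL hBL, ev_self, hwt] at h5
        have h6 : #P ≤ 1 := by
          have : (#P : ℤ) ≤ 1 := by linarith
          exact_mod_cast this
        exact eq_singleton_iff_unique_mem.mpr ⟨htP, fun x hx => card_le_one.mp h6 x hx t htP⟩
      have hB2 : #B ≤ 2 := by
        have h5 := h2 w'
        rw [Pi.add_apply, Pi.add_apply, r2K_w' h1 hwL' hPL hBL, ev_ne h1.symm, ev_ne htw'.symm] at h5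
        have : (#B : ℤ) ≤ 2 := by linarith
        exact_mod_cast this
      have htB : t ∉ B := Finset.disjoint_left.mp hdB htP
      have htc : t ≠ c := fun h => hcP (h ▸ htP)
      subst hP1
      by_cases hB0 : B = ∅
      · right
        subst hB0
        refine ⟨t, htL, htc, ?_⟩
        rw [r2K, r2ind, r2ind, sum_singleton, sum_empty, card_singleton, card_empty, two_smul,
          two_smul]
        push_cast
        rw [one_smul, zero_smul]
        abel
      · left
        obtain ⟨m, hm⟩ := nonempty_iff_ne_empty.mpr hB0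
        have htm : t ≠ m := fun h => htB (h ▸ hm)
        have hmt : m ∉ ({t} : Finset V) := by simpa using htm.symm
        -- move `m` from `B` to `A`, put `t` in both
        have e1 : r2K w w' {t} B + (ev w + ev t) =
            r2K w w' (insert m {t}) (insert t (B.erase m)) := by
          have htB' : t ∉ B.erase m := fun h => htB (mem_of_mem_erase h)
          rw [← r2K_insA hmt, ← r2K_insB htB', r2K_eraseB hm]
          abel
        rw [e1]
        refine r2_mem_JS h1 hwL hwL' ?_ ?_ ?_ ?_ ?_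
        · exact insert_subset (hBL hm) (by simpa using htL)
        · exact insert_subset htL ((erase_subset _ _).trans hBL)
        · exact card_le_two
        · have htB' : t ∉ B.erase m := fun h => htB (mem_of_mem_erase h)
          rw [card_insert_of_notMem htB', card_erase_add_one hm]
          exact hB2
        · rw [card_le_one]
          have : ∀ x ∈ insert m {t} ∩ insert t (B.erase m), x = t := by
            intro x hx
            rw [mem_inter, mem_insert, mem_singleton, mem_insert, mem_erase] at hx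
            rcases hx.1 with rfl | h
            · rcases hx.2 with h | h
              · exact h
              · exact absurd rfl h.1
            · exact h
          intro x hx y hy
          rw [this x hx, this y hy]
    · left
      rw [r2K_insA htP] at h2 ⊢
      have hAL : insert t P ⊆ L := insert_subset htL hPL
      refine r2_mem_JS h1 hwL hwL' hAL hBL ?_ ?_ ?_
      · have := h2 w
        rw [r2K_w h1 hwL hAL hBL] at this
        exact_mod_cast this
      · have := h2 w'
        rw [r2K_w' h1 hwL' hAL hBL] at this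
        exact_mod_cast this
      · rw [card_le_one]
        have : ∀ x ∈ insert t P ∩ B, x = t := by
          intro x hx
          rw [mem_inter, mem_insert] at hx
          rcases hx.1 with h | h
          · exact h
          · exact absurd hx.2 (Finset.disjoint_left.mp hdB h)
        intro x hx y hy
        rw [this x hx, this y hy]

end Pool.Agent.TFC
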