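import Pool.Agent.TFC.Plain

/-!
Lemma 6.4: the units of a cluster `K4(X)`.
-/

set_option autoImplicit false
set_option linter.unusedSectionVars false

namespace Pool.Agent.TFC

open Finset
open scoped Pointwise

variable {V : Type*} [DecidableEq V]

lemma R4_card_sq {a b c d : V} (h : Dist4 a b c d) : #(sq a b c d) = 4 := by
  obtain ⟨hab, hac, had, hbc, hbd, hcd⟩ := h
  have n12 : s(a, b) ≠ s(b, c) := by simp [hab, hac]
  have n13 : s(a, b) ≠ s(c, d) := by simp [hac, had]
  have n14 : s(a, b) ≠ s(d, a) := by simp [had, hbd]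
  have n23 : s(b, c) ≠ s(c, d) := by simp [hbc, hbd]
  have n24 : s(b, c) ≠ s(d, a) := by simp [hbd, hab.symm]
  have n34 : s(c, d) ≠ s(d, a) := by simp [hcd, hac.symm]
  unfold sq
  rw [card_insert_of_notMem (by simp [n12, n13, n14]),
    card_insert_of_notMem (by simp [n23, n24]), card_insert_of_notMem (by simp [n34]),
    card_singleton]

lemma R4_sq_sub {z : Finset (Sym2 V)} {a b c d : V} (h : Sq z a b c d) : sq a b c d ⊆ z := by
  simp [sq, insert_subset_iff, h.ab, h.bc, h.cd, h.da]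

/-- fewer than four edges: no square -/
lemma R4_good {z : Finset (Sym2 V)} (hz : NoLoop z) (h : #z < 4) : Good none4 z := by
  intro a b c d hs
  have h1 := R4_card_sq (hs.dist4 hz)
  have h2 := card_le_card (R4_sq_sub hs)
  omega

lemma R4_mem_edges {X : Finset V} {a b : V} : s(a, b) ∈ (Clu.k4 X).edges ↔ a ∈ X ∧ b ∈ X ∧ a ≠ b := by
  simp only [Clu.edges, mem_filter, mk_mem_sym2_iff, Sym2.mk_isDiag_iff, and_assoc]

lemma R4_noLoop (X : Finset V) : NoLoop (Clu.k4 X).edges := by
  intro e he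
  exact (mem_filter.mp he).2

/-- at most three edges in a square-free 2-matching of `K4` -/
lemma R4_card_le {X : Finset V} (hX : #X = 4) {z : Finset (Sym2 V)} (hz : z ⊆ (Clu.k4 X).edges)
    (hM : M2 z) (hG : Good none4 z) : #z ≤ 3 := by
  obtain ⟨a, b, c, d, hab, hac, had, hbc, hbd, hcd, rfl⟩ := card_eq_four.mp hX
  have hsub : z ⊆ {s(a, b), s(c, d), s(a, c), s(b, d), s(a, d), s(b, c)} := by
    intro e he
    have h1 := hz he
    induction e using Sym2.ind with
    | _ u v =>
      rw [R4_mem_edges] at h1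
      obtain ⟨hu, hv, huv⟩ := h1
      simp only [mem_insert, mem_singleton] at hu hv ⊢
      rcases hu with rfl | rfl | rfl | rfl <;> rcases hv with rfl | rfl | rfl | rfl <;>
        simp_all [Sym2.eq_swap]
  -- stars
  have star : ∀ {p q r t : V}, q ≠ r → q ≠ t → r ≠ t → s(p, q) ∈ z → s(p, r) ∈ z → s(p, t) ∈ z →
      False := by
    intro p q r t hqr hqt hrt h1 h2 h3
    rcases nbr_two (hM.le p) h1 h2 hqr h3 with h | h
    · exact hqt h.symm
    · exact hrt h.symm
  have sa : s(a, b) ∈ z → s(a, c) ∈ z → s(a, d) ∈ z → False := star hbc hbd hcd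
  have sb : s(a, b) ∈ z → s(b, c) ∈ z → s(b, d) ∈ z → False :=
    fun h => star hac had hcd (msw h)
  have sc : s(a, c) ∈ z → s(b, c) ∈ z → s(c, d) ∈ z → False :=
    fun h h' => star hab had hbd (msw h) (msw h')
  have sd : s(a, d) ∈ z → s(b, d) ∈ z → s(c, d) ∈ z → False :=
    fun h h' h'' => star hab hac hbc (msw h) (msw h') (msw h'')
  have q1 : s(a, b) ∈ z → s(b, c) ∈ z → s(c, d) ∈ z → s(a, d) ∈ z → False :=
    fun h1 h2 h3 h4 => hG a b c d ⟨hac, hbd, h1, h2, h3, msw h4⟩
  have q2 : s(a, b) ∈ z → s(b, d) ∈ z → s(c, d) ∈ z → s(a, c) ∈ z → False :=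
    fun h1 h2 h3 h4 => hG a b d c ⟨had, hbc, h1, h2, msw h3, msw h4⟩
  have q3 : s(a, c) ∈ z → s(b, c) ∈ z → s(b, d) ∈ z → s(a, d) ∈ z → False :=
    fun h1 h2 h3 h4 => hG a c b d ⟨hab, hcd, h1, msw h2, h3, msw h4⟩
  have hcard : #z ≤ (if s(a, b) ∈ z then 1 else 0) + (if s(c, d) ∈ z then 1 else 0) +
      (if s(a, c) ∈ z then 1 else 0) + (if s(b, d) ∈ z then 1 else 0) +
      (if s(a, d) ∈ z then 1 else 0) + (if s(b, c) ∈ z then 1 else 0) := by
    have step : ∀ (e : Sym2 V) (T : Finset (Sym2 V)),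
        #{f ∈ insert e T | f ∈ z} ≤ (if e ∈ z then 1 else 0) + #{f ∈ T | f ∈ z} := by
      intro e T
      rw [filter_insert]
      split_ifs with h
      · rw [add_comm]; exact card_insert_le _ _
      · simp
    have h0 : z = {f ∈ ({s(a, b), s(c, d), s(a, c), s(b, d), s(a, d), s(b, c)} :
        Finset (Sym2 V)) | f ∈ z} := by
      ext e
      rw [mem_filter]
      exact ⟨fun h => ⟨hsub h, h⟩, fun h => h.2⟩
    have h1 := step s(a, b) {s(c, d), s(a, c), s(b, d), s(a, d), s(b, c)}
    have h2 := step s(c, d) {s(a, c), s(b, d), s(a, d), s(b, c)}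
    have h3 := step s(a, c) {s(b, d), s(a, d), s(b, c)}
    have h4 := step s(b, d) {s(a, d), s(b, c)}
    have h5 := step s(a, d) {s(b, c)}
    have h6 := step s(b, c) ∅
    rw [← h0] at h1
    have h7 : #{f ∈ (∅ : Finset (Sym2 V)) | f ∈ z} = 0 := by simp
    have h8 : (insert s(b, c) ∅ : Finset (Sym2 V)) = {s(b, c)} := rfl
    rw [h8] at h6
    omega
  refine hcard.trans ?_
  by_cases e1 : s(a, b) ∈ z <;> by_cases e2 : s(c, d) ∈ z <;> by_cases e3 : s(a, c) ∈ z <;>
    by_cases e4 : s(b, d) ∈ z <;> by_cases e5 : s(a, d) ∈ z <;> by_cases e6 : s(b, c) ∈ z <;>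
    first
    | exact (sa e1 e3 e5).elim
    | exact (sb e1 e6 e4).elim
    | exact (sc e3 e6 e2).elim
    | exact (sd e5 e4 e2).elim
    | exact (q1 e1 e6 e2 e5).elim
    | exact (q2 e1 e4 e2 e3).elim
    | exact (q3 e3 e6 e4 e5).elim
    | simp [e1, e2, e3, e4, e5, e6]

/-- the degree vector of a set of at most `n` edges of `K4(X)` is a sum of `n` units -/
lemma R4_units (X : Finset V) (n : ℕ) : ∀ z : Finset (Sym2 V), z ⊆ (Clu.k4 X).edges → #z ≤ n →
    dv z ∈ sumU (List.replicate n (X, X)) := by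
  induction n with
  | zero =>
    intro z _ hc
    have : z = ∅ := card_eq_zero.mp (Nat.le_zero.mp hc)
    subst this
    rw [Plain_dv_empty]
    exact Set.mem_singleton _
  | succ n ih =>
    intro z hz hc
    rw [List.replicate_succ]
    change dv z ∈ Un X X + sumU (List.replicate n (X, X))
    rcases z.eq_empty_or_nonempty with rfl | ⟨e, he⟩
    · exact Set.mem_add.mpr ⟨0, Or.inl rfl, dv ∅, ih ∅ (empty_subset _) (by simp),
        zero_add _⟩
    · induction e using Sym2.ind with
      | _ u v =>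
        obtain ⟨hu, hv, huv⟩ := R4_mem_edges.mp (hz he)
        refine Set.mem_add.mpr ⟨ev u + ev v, Or.inr ⟨u, hu, v, hv, rfl⟩, dv (z.erase s(u, v)),
          ih _ ((erase_subset _ _).trans hz) ?_, ?_⟩
        · rw [card_erase_of_mem he]; omega
        · rw [dv_erase huv he]; abel

theorem JS_subset_units_k4 {X : Finset V} (hX : #X = 4) :
    JS (Clu.k4 X).edges none4 ⊆ sumU (CC.k4 X).units := by
  rintro x ⟨z, hz, hM, hG, rfl⟩
  exact R4_units X 3 z hz (R4_card_le hX hz hM hG)

lemma R4_Un {X : Finset V} {k : V → ℤ} (h : k ∈ Un X X) :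
    (∀ v, v ∉ X → k v = 0) ∧ ∑ v ∈ X, k v ≤ 2 := by
  rcases h with rfl | ⟨s, hs, t, ht, rfl⟩
  · simp
  · constructor
    · intro v hv
      have h1 : v ≠ s := fun e => hv (e ▸ hs)
      have h2 : v ≠ t := fun e => hv (e ▸ ht)
      simp [ev_apply, h1, h2]
    · simp only [Pi.add_apply, sum_add_distrib, ev_apply, sum_ite_eq', hs, ht, if_true]
      norm_num

lemma R4_sumU {X : Finset V} (n : ℕ) : ∀ {k : V → ℤ}, k ∈ sumU (List.replicate n (X, X)) →
    (∀ v, v ∉ X → k v = 0) ∧ ∑ v ∈ X, k v ≤ 2 * n := by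
  induction n with
  | zero =>
    intro k hk
    have : k = 0 := hk
    subst this
    simp
  | succ n ih =>
    intro k hk
    rw [List.replicate_succ] at hk
    obtain ⟨p, hp, q, hq, rfl⟩ := Set.mem_add.mp (show k ∈ Un X X + sumU (List.replicate n (X, X)) from hk)
    obtain ⟨p1, p2⟩ := R4_Un hp
    obtain ⟨q1, q2⟩ := ih hq
    constructor
    · intro v hv
      rw [Pi.add_apply, p1 v hv, q1 v hv, add_zero]
    · simp only [Pi.add_apply, sum_add_distrib]
      push_cast
      linarith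

/-- the vector `2` on `X`, `0` elsewhere -/
def R4_tx (X : Finset V) : V → ℤ := fun v => if v ∈ X then 2 else 0

lemma R4_tx4 (a b c d : V) (hab : a ≠ b) (hac : a ≠ c) (had : a ≠ d) (hbc : b ≠ c) (hbd : b ≠ d)
    (hcd : c ≠ d) : R4_tx {a, b, c, d} = 2 • ev a + 2 • ev b + 2 • ev c + 2 • ev d := by
  funext v
  simp only [R4_tx, mem_insert, mem_singleton, Pi.add_apply, Pi.smul_apply, ev_apply]
  by_cases h1 : v = a
  · subst h1; simp [hab, hac, had]
  by_cases h2 : v = b
  · subst h2; simp [h1, hbc, hbd]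
  by_cases h3 : v = c
  · subst h3; simp [h1, h2, hcd]
  by_cases h4 : v = d
  · subst h4; simp [h1, h2, h3]
  · simp [h1, h2, h3, h4]

/-- the path `i u v j` -/
lemma R4_path {X : Finset V} {i u v j : V} (h : Dist4 i u v j) (hX : X = {i, u, v, j}) :
    R4_tx X - ev i - ev j ∈ JS (Clu.k4 X).edges none4 := by
  obtain ⟨hiu, hiv, hij, huv, huj, hvj⟩ := h
  have h1 : s(i, u) ∉ ({s(u, v), s(v, j)} : Finset (Sym2 V)) := by
    simp [hiu, hiv, hij]
  have h2 : s(u, v) ∉ ({s(v, j)} : Finset (Sym2 V)) := by simp [huv, huj]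
  have h3 : s(v, j) ∉ (∅ : Finset (Sym2 V)) := by simp
  have hdv : dv ({s(i, u), s(u, v), s(v, j)} : Finset (Sym2 V)) = R4_tx X - ev i - ev j := by
    have e1 := dv_insert hiu h1
    have e2 := dv_insert huv h2
    have e3 := dv_insert hvj h3
    rw [Plain_dv_empty] at e3
    have e3' : dv ({s(v, j)} : Finset (Sym2 V)) = 0 + ev v + ev j := e3
    rw [e1, e2, e3', hX, R4_tx4 _ _ _ _ hiu hiv hij huv huj hvj]
    module
  have hn : NoLoop ({s(i, u), s(u, v), s(v, j)} : Finset (Sym2 V)) := by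
    intro e he
    simp only [mem_insert, mem_singleton] at he
    rcases he with rfl | rfl | rfl
    · simpa using hiu
    · simpa using huv
    · simpa using hvj
  refine ⟨{s(i, u), s(u, v), s(v, j)}, ?_, ?_, R4_good hn ?_, hdv.symm⟩
  · intro e he
    simp only [mem_insert, mem_singleton] at he
    rcases he with rfl | rfl | rfl <;> rw [R4_mem_edges, hX] <;> simp [hiu, huv, hvj]
  · refine M2.of_dv hn ?_
    intro w
    rw [hdv]
    simp only [R4_tx, Pi.sub_apply, ev_apply]
    split_ifs <;> norm_num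
  · have := card_le_three (a := s(i, u)) (b := s(u, v)) (c := s(v, j))
    omega

/-- the triangle `u v w` -/
lemma R4_tri {X : Finset V} {i u v w : V} (h : Dist4 i u v w) (hX : X = {i, u, v, w}) :
    R4_tx X - ev i - ev i ∈ JS (Clu.k4 X).edges none4 := by
  obtain ⟨hiu, hiv, hiw, huv, huw, hvw⟩ := h
  have h1 : s(u, v) ∉ ({s(v, w), s(w, u)} : Finset (Sym2 V)) := by
    simp [huv, huw, hvw]
  have h2 : s(v, w) ∉ ({s(w, u)} : Finset (Sym2 V)) := by simp [hvw, huv.symm]
  have h3 : s(w, u) ∉ (∅ : Finset (Sym2 V)) := by simp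
  have hdv : dv ({s(u, v), s(v, w), s(w, u)} : Finset (Sym2 V)) = R4_tx X - ev i - ev i := by
    have e1 := dv_insert huv h1
    have e2 := dv_insert hvw h2
    have e3 := dv_insert huw.symm h3
    rw [Plain_dv_empty] at e3
    have e3' : dv ({s(w, u)} : Finset (Sym2 V)) = 0 + ev w + ev u := e3
    rw [e1, e2, e3', hX, R4_tx4 _ _ _ _ hiu hiv hiw huv huw hvw]
    module
  have hn : NoLoop ({s(u, v), s(v, w), s(w, u)} : Finset (Sym2 V)) := by
    intro e he
    simp only [mem_insert, mem_singleton] at he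
    rcases he with rfl | rfl | rfl
    · simpa using huv
    · simpa using hvw
    · simpa using huw.symm
  refine ⟨{s(u, v), s(v, w), s(w, u)}, ?_, ?_, R4_good hn ?_, hdv.symm⟩
  · intro e he
    simp only [mem_insert, mem_singleton] at he
    rcases he with rfl | rfl | rfl <;> rw [R4_mem_edges, hX] <;> simp [huv, hvw, huw.symm]
  · refine M2.of_dv hn ?_
    intro t
    rw [hdv]
    simp only [R4_tx, Pi.sub_apply, ev_apply]
    split_ifs <;> norm_num
  · have := card_le_three (a := s(u, v)) (b := s(v, w)) (c := s(w, u))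
    omega

lemma R4_JS {X : Finset V} (hX : #X = 4) {i j : V} (hi : i ∈ X) (hj : j ∈ X) :
    R4_tx X - ev i - ev j ∈ JS (Clu.k4 X).edges none4 := by
  by_cases hij : i = j
  · subst hij
    have h3 : #(X.erase i) = 3 := by rw [card_erase_of_mem hi]; omega
    obtain ⟨u, v, w, huv, huw, hvw, he⟩ := card_eq_three.mp h3
    have hm : ∀ t ∈ ({u, v, w} : Finset V), t ≠ i := by
      intro t ht
      rw [← he] at ht
      exact (mem_erase.mp ht).1
    refine R4_tri (i := i) (u := u) (v := v) (w := w)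
      ⟨(hm u (by simp)).symm, (hm v (by simp)).symm, (hm w (by simp)).symm, huv, huw, hvw⟩ ?_
    rw [← insert_erase hi, he]
  · have hj' : j ∈ X.erase i := mem_erase.mpr ⟨fun e => hij e.symm, hj⟩
    have h2 : #((X.erase i).erase j) = 2 := by
      rw [card_erase_of_mem hj', card_erase_of_mem hi]; omega
    obtain ⟨u, v, huv, he⟩ := card_eq_two.mp h2
    have hm : ∀ t ∈ ({u, v} : Finset V), t ≠ i ∧ t ≠ j := by
      intro t ht
      rw [← he] at ht
      exact ⟨(mem_erase.mp (mem_erase.mp ht).2).1, (mem_erase.mp ht).1⟩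
    refine R4_path (i := i) (u := u) (v := v) (j := j)
      ⟨(hm u (by simp)).1.symm, (hm v (by simp)).1.symm, hij, huv, (hm u (by simp)).2,
        (hm v (by simp)).2⟩ ?_
    rw [← insert_erase hi, ← insert_erase hj', he]
    ext t
    simp only [mem_insert, mem_singleton]
    tauto

/-- a 2-matching with a square inside `K4(X)` is the square -/
lemma R4_dv_sq {X : Finset V} (hX : #X = 4) {z : Finset (Sym2 V)} (hz : z ⊆ (Clu.k4 X).edges)
    (hM : M2 z) {a b c d : V} (hs : Sq z a b c d) : dv z = R4_tx X := by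
  have h4 := hs.dist4 hM.nl
  obtain ⟨hab, hac, had, hbc, hbd, hcd⟩ := h4
  have ma := (R4_mem_edges.mp (hz hs.ab)).1
  have mb := (R4_mem_edges.mp (hz hs.ab)).2.1
  have mc := (R4_mem_edges.mp (hz hs.cd)).1
  have md := (R4_mem_edges.mp (hz hs.cd)).2.1
  have hsub : ({a, b, c, d} : Finset V) ⊆ X := by
    simp [insert_subset_iff, ma, mb, mc, md]
  have hc4 : #({a, b, c, d} : Finset V) = 4 := by
    rw [card_insert_of_notMem (by simp [hab, hac, had]),
      card_insert_of_notMem (by simp [hbc, hbd]), card_insert_of_notMem (by simp [hcd]),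
      card_singleton]
  have hXe : ({a, b, c, d} : Finset V) = X := eq_of_subset_of_card_le hsub (by omega)
  funext v
  simp only [dv_apply, R4_tx]
  by_cases hv : v ∈ X
  · rw [if_pos hv]
    have h2 : 2 ≤ dg z v := by
      rw [← hXe] at hv
      simp only [mem_insert, mem_singleton] at hv
      rcases hv with rfl | rfl | rfl | rfl
      · exact dg_ge_two hs.ab (msw hs.da) hbd
      · exact dg_ge_two hs.bc (msw hs.ab) hac.symm
      · exact dg_ge_two hs.cd (msw hs.bc) hbd.symm
      · exact dg_ge_two hs.da (msw hs.cd) hac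
    have := hM.le v
    omega
  · rw [if_neg hv]
    have : dg z v = 0 := by
      unfold dg
      rw [card_eq_zero, filter_eq_empty_iff]
      intro e he hve
      obtain ⟨w, rfl⟩ := hve
      exact hv (R4_mem_edges.mp (hz he)).1
    rw [this]; rfl

theorem relax_k4 {X : Finset V} (hX : #X = 4) {A : Set (V → ℤ)} (hA : Jump A)
    (h : ∀ k ∈ JS (Clu.k4 X).edges none4, two - k ∉ A) :
    (∀ k ∈ sumU (CC.k4 X).units, (∀ v, k v ≤ 2) → two - k ∉ A) ∨
    (∀ k ∈ ∑ e ∈ (Clu.k4 X).edges, Ue e, (∀ v, k v ≤ 2) → two - k ∉ A) := by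
  by_cases ht : two - R4_tx X ∈ A
  · left
    intro k hk hk2 hkA
    obtain ⟨k0, ksum⟩ := R4_sumU 3 (show k ∈ sumU (List.replicate 3 (X, X)) from hk)
    obtain ⟨i, hi, hki⟩ : ∃ i ∈ X, k i < 2 := by
      by_contra hc
      push Not at hc
      have h1 : ∑ v ∈ X, (2 : ℤ) ≤ ∑ v ∈ X, k v := sum_le_sum hc
      rw [sum_const, hX] at h1
      norm_num at h1 ksum
      linarith
    obtain ⟨j, δ, hδ, hpos, hmem⟩ := hA _ ht _ hkA i 1 (Or.inl rfl) (by
      simp only [Pi.sub_apply, R4_tx, hi, if_true]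
      linarith)
    have hval : (two - k : V → ℤ) j - (two - R4_tx X + Pi.single i 1 : V → ℤ) j =
        R4_tx X j - k j - (if j = i then 1 else 0) := by
      rw [single_one]
      simp only [Pi.sub_apply, Pi.add_apply, ev_apply]
      ring
    rw [hval] at hpos
    have hj : j ∈ X := by
      by_contra hj
      have hji : j ≠ i := fun e => hj (e ▸ hi)
      rw [if_neg hji, k0 j hj, R4_tx, if_neg hj] at hpos
      simp at hpos
    have hδ1 : δ = 1 := by
      rcases hδ with hδ | hδ
      · exact hδ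
      · exfalso
        rw [hδ, R4_tx, if_pos hj] at hpos
        have h2 := hk2 j
        by_cases hji : j = i
        · subst hji
          rw [if_pos rfl] at hpos
          linarith
        · rw [if_neg hji] at hpos
          linarith
    subst hδ1
    have e : two - R4_tx X + Pi.single i 1 + Pi.single j 1 = two - (R4_tx X - ev i - ev j) := by
      rw [single_one, single_one]; abel
    rw [e] at hmem
    exact h _ (R4_JS hX hi hj) hmem
  · right
    intro k hk hk2 hkA
    obtain ⟨z, hz, rfl⟩ := (mem_sum_Ue _ (R4_noLoop X) k).mp hk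
    have hM : M2 z := M2.of_dv ((R4_noLoop X).mono hz) hk2
    by_cases hs : ∃ a b c d, Sq z a b c d
    · obtain ⟨a, b, c, d, hs⟩ := hs
      rw [R4_dv_sq hX hz hM hs] at hkA
      exact ht hkA
    · push Not at hs
      exact h _ ⟨z, hz, hM, fun a b c d hsq => hs a b c d hsq, rfl⟩ hkA

end Pool.Agent.TFC
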