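import Pool.Agent.TFC.LemW

/-!
Degree vectors of 2-matchings all of whose squares are allowed form a jump set.
-/

set_option autoImplicit false
set_option linter.unusedSectionVars false

namespace Pool.Agent.TFC

open Finset

variable {V : Type*} [DecidableEq V]

lemma single_one (v : V) : (Pi.single v (1 : ℤ) : V → ℤ) = ev v := rfl

lemma single_neg_one (v : V) : (Pi.single v (-1 : ℤ) : V → ℤ) = -ev v := by
  funext u
  by_cases h : u = v
  · subst h; simp [ev]
  · simp [ev, h]

/-- **Theorem 1** -/
theorem jump_JS {al : V → V → V → V → Prop} (hal : AlSym al) (E : Finset (Sym2 V)) :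
    Jump (JS E al) := by
  rintro x ⟨A, hAE, hA, hAg, rfl⟩ y ⟨B, hBE, hB, hBg, rfl⟩ i ε hε hpos
  have fin : ∀ (τ : V → ℤ) (L : Finset (Sym2 V)), L ⊆ E → WConc al B τ L →
      ∃ (j : V) (δ : ℤ), (δ = 1 ∨ δ = -1) ∧ 0 < δ * (dv B j - τ j) ∧
        τ + Pi.single j δ ∈ JS E al := by
    rintro τ L hL ⟨M, hM, hM2, hMg, h⟩
    have hME : M ⊆ E := hM.trans (union_subset hL hBE)
    rcases h with ⟨w, h1, h2⟩ | ⟨c, h1, h2⟩
    · refine ⟨w, -1, Or.inr rfl, by linarith, M, hME, hM2, hMg, ?_⟩
      rw [h1, single_neg_one]; abel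
    · refine ⟨c, 1, Or.inl rfl, by linarith, M, hME, hM2, hMg, ?_⟩
      rw [h1, single_one]
  rcases hε with rfl | rfl
  · -- step up
    have hlt : dv A i < dv B i := by linarith
    refine fin (dv A + Pi.single i 1) A hAE ?_
    refine lemW_aux hal hB hBg (fun v => ?_) _ A i le_rfl hA hAg ?_
    · rw [single_one, Pi.add_apply, ev_apply]
      have h1 := hA.le v
      have h2 := hB.le v
      simp only [dv_apply] at hlt ⊢
      split_ifs with hv
      · subst hv; omega
      · omega
    · rw [single_one]; abel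
  · -- step down
    have hlt : dg B i < dg A i := by
      have : dv B i < dv A i := by linarith
      simp only [dv_apply] at this
      exact_mod_cast this
    obtain ⟨u, hu1, hu2⟩ := exists_nbr_notMem hlt
    have hiu : i ≠ u := hA.nl.ne hu1
    refine fin (dv A + Pi.single i (-1)) (A.erase s(i, u)) ((erase_subset _ _).trans hAE) ?_
    refine lemW_aux hal hB hBg (fun v => ?_) _ (A.erase s(i, u)) u le_rfl
      (hA.mono (erase_subset _ _)) (hAg.mono (erase_subset _ _)) ?_
    · rw [single_neg_one, Pi.add_apply, Pi.neg_apply, ev_apply]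
      have h1 := hA.le v
      simp only [dv_apply]
      split_ifs <;> omega
    · rw [single_neg_one, dv_erase hiu hu1]; abel

end Pool.Agent.TFC
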