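import Mathlib

/-!
2-factors without 4-cycles: basic definitions (degree vectors, squares, jump sets, clusters, units).
-/

set_option autoImplicit false

namespace Pool.Agent.TFC

open Finset
open scoped Pointwise

variable {V : Type*} [DecidableEq V]

/-- the degree of `v` in the edge set `z` -/
def dg (z : Finset (Sym2 V)) (v : V) : ℕ := #{e ∈ z | v ∈ e}

/-- the degree vector of the edge set `z` -/
def dv (z : Finset (Sym2 V)) : V → ℤ := fun v => (dg z v : ℤ)

/-- no loops -/
def NoLoop (z : Finset (Sym2 V)) : Prop := ∀ e ∈ z, ¬ e.IsDiag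

/-- `z` is a simple 2-matching: no loops, all degrees at most 2 -/
structure M2 (z : Finset (Sym2 V)) : Prop where
  nl : NoLoop z
  le : ∀ v, dg z v ≤ 2

/-- `z` is a 2-factor: no loops, all degrees equal to 2 -/
structure TF (z : Finset (Sym2 V)) : Prop where
  nl : NoLoop z
  eq : ∀ v, dg z v = 2

/-- `a b c d` is a square (a 4-cycle) of `z` (for `z` without loops, the four are distinct) -/
structure Sq (z : Finset (Sym2 V)) (a b c d : V) : Prop where
  ac : a ≠ c
  bd : b ≠ d
  ab : s(a, b) ∈ z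
  bc : s(b, c) ∈ z
  cd : s(c, d) ∈ z
  da : s(d, a) ∈ z

/-- `z` contains no square -/
def SqFree (z : Finset (Sym2 V)) : Prop := ∀ a b c d, ¬ Sq z a b c d

/-- all squares of `z` are allowed by `al` -/
def Good (al : V → V → V → V → Prop) (z : Finset (Sym2 V)) : Prop :=
  ∀ a b c d, Sq z a b c d → al a b c d

/-- the predicate does not depend on how the square is written -/
structure AlSym (al : V → V → V → V → Prop) : Prop where
  rot : ∀ a b c d, al a b c d → al b c d a
  ref : ∀ a b c d, al a b c d → al d c b a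

/-- no square allowed -/
def none4 : V → V → V → V → Prop := fun _ _ _ _ => False

/-- degree vectors of the 2-matchings contained in `E` all of whose squares are allowed -/
def JS (E : Finset (Sym2 V)) (al : V → V → V → V → Prop) : Set (V → ℤ) :=
  {x | ∃ z ⊆ E, M2 z ∧ Good al z ∧ x = dv z}

/-- unit vector -/
def ev (v : V) : V → ℤ := Pi.single v 1

/-- jump set (constant parity jump system): two-step axiom -/
def Jump {W : Type*} [DecidableEq W] (J : Set (W → ℤ)) : Prop :=
  ∀ x ∈ J, ∀ y ∈ J, ∀ (i : W) (ε : ℤ), (ε = 1 ∨ ε = -1) → 0 < ε * (y i - x i) →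
    ∃ (j : W) (δ : ℤ), (δ = 1 ∨ δ = -1) ∧ 0 < δ * (y j - (x + Pi.single i ε : W → ℤ) j) ∧
      x + Pi.single i ε + Pi.single j δ ∈ J

/-- the edge set of the square `a b c d` -/
def sq (a b c d : V) : Finset (Sym2 V) := {s(a, b), s(b, c), s(c, d), s(d, a)}

/-- four distinct vertices -/
def Dist4 (a b c d : V) : Prop := a ≠ b ∧ a ≠ c ∧ a ≠ d ∧ b ≠ c ∧ b ≠ d ∧ c ≠ d

/-- `Q` is the edge set of a square -/
def IsSq (Q : Finset (Sym2 V)) : Prop := ∃ a b c d, Dist4 a b c d ∧ Q = sq a b c d

/-- clusters: a complete graph on 4 vertices, or all edges between two centres and a set of leaves -/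
inductive Clu (V : Type*) where
  | k4 (X : Finset V)
  | k2 (x y : V) (L : Finset V)

/-- the edges of a cluster -/
def Clu.edges : Clu V → Finset (Sym2 V)
  | .k4 X => X.sym2.filter (fun e => ¬ e.IsDiag)
  | .k2 x y L => L.image (fun l => s(x, l)) ∪ L.image (fun l => s(y, l))

/-- non-degenerate cluster -/
def Clu.Valid : Clu V → Prop
  | .k4 X => #X = 4
  | .k2 x y L => x ≠ y ∧ x ∉ L ∧ y ∉ L ∧ 2 ≤ #L

/-- the constant vector 2 -/
def two : V → ℤ := fun _ => 2

/-- a unit: nothing, or join a vertex of `S` with a vertex of `T` -/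
def Un (S T : Finset V) : Set (V → ℤ) :=
  {x | x = 0 ∨ ∃ s ∈ S, ∃ t ∈ T, x = ev s + ev t}

/-- the sums of a list of units -/
def sumU : List (Finset V × Finset V) → Set (V → ℤ)
  | [] => {0}
  | u :: us => Un u.1 u.2 + sumU us

/-- clusters with a choice: for `k2 w w' c L` the centre `w` and the leaf `c` are chosen -/
inductive CC (V : Type*) where
  | k4 (X : Finset V)
  | k2 (w w' c : V) (L : Finset V)

/-- forget the choice -/
def CC.clu : CC V → Clu V
  | .k4 X => .k4 X
  | .k2 w w' _ L => .k2 w w' L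

/-- non-degenerate cluster, the chosen leaf is a leaf -/
def CC.Valid : CC V → Prop
  | .k4 X => #X = 4
  | .k2 w w' c L => w ≠ w' ∧ w ∉ L ∧ w' ∉ L ∧ 2 ≤ #L ∧ c ∈ L

/-- the units of a cluster -/
noncomputable def CC.units : CC V → List (Finset V × Finset V)
  | .k4 X => [(X, X), (X, X), (X, X)]
  | .k2 w w' c L => (L.erase c).toList.map (fun l => ({l}, {w, w'})) ++ [({w}, L), ({w'}, {c})]

/-- the unit of an ordinary edge -/
def Ue (e : Sym2 V) : Set (V → ℤ) :=
  {x | x = 0 ∨ ∃ u v, e = s(u, v) ∧ x = ev u + ev v}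

end Pool.Agent.TFC
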