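import Pool.Agent.TFC.CE

/-!
Conflict elimination: the outer parts of the two 2-factors, and the two cases.
-/

set_option autoImplicit false
set_option linter.unusedSectionVars false
set_option linter.unusedSimpArgs false
set_option linter.unusedTactic false

namespace Pool.Agent.TFC.CE

open Finset

variable {V : Type*} [DecidableEq V]

lemma dv_sq {a b c d : V} (h : Dist4 a b c d) (v : V) :
    dv (sq a b c d) v = 2 * ev a v + 2 * ev b v + 2 * ev c v + 2 * ev d v := by
  obtain ⟨hab, hac, had, hbc, hbd, hcd⟩ := h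
  have e : sq a b c d = [s(a, b), s(b, c), s(c, d), s(d, a)].toFinset := by
    simp [sq]
  rw [e, dv_list]
  · simp
    ring
  · simp [Sym2.eq_iff, hab, hac, had, hbc, hbd, hcd, hab.symm, hac.symm, had.symm, hbc.symm, hbd.symm,
      hcd.symm]
  · simp [hab, hbc, hcd, had.symm]

lemma good_of_subset {F N O : Finset (Sym2 V)} (h : O ⊆ F ∨ O ⊆ N) : Good (alFN F N) O := by
  intro a b c d hs
  rcases h with h | h
  · exact Or.inl ⟨hs.ac, hs.bd, h hs.ab, h hs.bc, h hs.cd, h hs.da⟩
  · exact Or.inr ⟨hs.ac, hs.bd, h hs.ab, h hs.bc, h hs.cd, h hs.da⟩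

section six

variable {F N : Finset (Sym2 V)} {x y p q r t : V}

lemma Dat.QM (D : Dat F N x y p q r t) :
    s(x, y) ∈ F ∧ s(y, q) ∈ F ∧ s(q, p) ∈ F ∧ s(p, x) ∈ F := by
  refine ⟨D.hQF ?_, D.hQF ?_, D.hQF ?_, D.hQF ?_⟩ <;> simp [sq]

lemma Dat.RM (D : Dat F N x y p q r t) :
    s(x, y) ∈ N ∧ s(y, r) ∈ N ∧ s(r, t) ∈ N ∧ s(t, x) ∈ N := by
  refine ⟨D.hRN ?_, D.hRN ?_, D.hRN ?_, D.hRN ?_⟩ <;> simp [sq]

lemma interF (D : Dat F N x y p q r t) {e : Sym2 V} (h1 : e ∈ F)
    (h2 : e ∈ sq x y q p ∪ sq x y r t) : e ∈ sq x y q p ∨ e = s(r, t) := by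
  have s6 := D.six
  obtain ⟨q1, q2, q3, q4⟩ := D.QM
  rcases mem_union.mp h2 with h2 | h2
  · exact Or.inl h2
  · simp only [sq, mem_insert, mem_singleton] at h2
    rcases h2 with rfl | rfl | rfl | rfl
    · left; simp [sq]
    · exfalso
      rcases nbr_two (D.hF.m2.le y) (msw q1) q2 s6.xq h1 with h | h
      · exact s6.xr h.symm
      · exact s6.qr h.symm
    · right; rfl
    · exfalso
      rcases nbr_two (D.hF.m2.le x) q1 (msw q4) s6.yp (msw h1) with h | h
      · exact s6.yt h.symm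
      · exact s6.pt h.symm

lemma interN (D : Dat F N x y p q r t) {e : Sym2 V} (h1 : e ∈ N)
    (h2 : e ∈ sq x y q p ∪ sq x y r t) : e ∈ sq x y r t ∨ e = s(q, p) := by
  have s6 := D.six
  obtain ⟨q1, q2, q3, q4⟩ := D.RM
  rcases mem_union.mp h2 with h2 | h2
  · simp only [sq, mem_insert, mem_singleton] at h2
    rcases h2 with rfl | rfl | rfl | rfl
    · left; simp [sq]
    · exfalso
      rcases nbr_two (D.hN.m2.le y) (msw q1) q2 s6.xr h1 with h | h
      · exact s6.xq h.symm
      · exact s6.qr h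
    · right; rfl
    · exfalso
      rcases nbr_two (D.hN.m2.le x) q1 (msw q4) s6.yt (msw h1) with h | h
      · exact s6.yp h.symm
      · exact s6.pt h
  · exact Or.inl h2

lemma outerF1 (D : Dat F N x y p q r t) (h : s(r, t) ∈ F) : Outer F N x y p q r t ![0, 0, 1, 1] := by
  have s6 := D.six
  have hd : Dist4 x y q p := ⟨s6.xy, s6.xq, s6.xp, s6.yq, s6.yp, s6.pq.symm⟩
  have hrt : s(r, t) ∉ sq x y q p := by
    simp [sq, Sym2.eq_iff, s6.xr.symm, s6.xt.symm, s6.yr.symm, s6.yt.symm, s6.pr.symm, s6.pt.symm,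
      s6.qr.symm, s6.qt.symm]
  refine ⟨F \ (sq x y q p ∪ sq x y r t), sdiff_subset_sdiff subset_union_left le_rfl,
    good_of_subset (Or.inl sdiff_subset), fun v => ?_⟩
  have e : F \ (sq x y q p ∪ sq x y r t) = F \ insert s(r, t) (sq x y q p) := by
    ext e
    simp only [mem_sdiff]
    constructor
    · rintro ⟨h1, h2⟩
      refine ⟨h1, fun h3 => h2 ?_⟩
      rcases mem_insert.mp h3 with rfl | h3
      · exact mem_union_right _ (by simp [sq])
      · exact mem_union_left _ h3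
    · rintro ⟨h1, h2⟩
      refine ⟨h1, fun h3 => h2 ?_⟩
      rcases interF D h1 h3 with h3 | h3
      · exact mem_insert_of_mem h3
      · rw [h3]; exact mem_insert_self _ _
  rw [e, dv_sdiff D.hF.nl (insert_subset h D.hQF), Pi.sub_apply, dv_insert s6.rt hrt, Pi.add_apply,
    Pi.add_apply, dv_sq hd]
  simp only [dv_apply, D.hF.eq]
  simp
  ring

lemma outerF2 (D : Dat F N x y p q r t) (h : s(r, t) ∉ F) : Outer F N x y p q r t ![0, 0, 2, 2] := by
  have s6 := D.six
  have hd : Dist4 x y q p := ⟨s6.xy, s6.xq, s6.xp, s6.yq, s6.yp, s6.pq.symm⟩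
  refine ⟨F \ (sq x y q p ∪ sq x y r t), sdiff_subset_sdiff subset_union_left le_rfl,
    good_of_subset (Or.inl sdiff_subset), fun v => ?_⟩
  have e : F \ (sq x y q p ∪ sq x y r t) = F \ sq x y q p := by
    ext e
    simp only [mem_sdiff]
    constructor
    · rintro ⟨h1, h2⟩
      exact ⟨h1, fun h3 => h2 (mem_union_left _ h3)⟩
    · rintro ⟨h1, h2⟩
      refine ⟨h1, fun h3 => h2 ?_⟩
      rcases interF D h1 h3 with h3 | h3
      · exact h3
      · rw [h3] at h1; exact absurd h1 h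
  rw [e, dv_sdiff D.hF.nl D.hQF, Pi.sub_apply, dv_sq hd]
  simp only [dv_apply, D.hF.eq]
  simp
  ring

lemma outerN1 (D : Dat F N x y p q r t) (h : s(q, p) ∈ N) : Outer F N x y p q r t ![1, 1, 0, 0] := by
  have s6 := D.six
  have hd : Dist4 x y r t := ⟨s6.xy, s6.xr, s6.xt, s6.yr, s6.yt, s6.rt⟩
  have hrt : s(q, p) ∉ sq x y r t := by
    simp [sq, Sym2.eq_iff, s6.xq.symm, s6.xp.symm, s6.yq.symm, s6.yp.symm, s6.pr, s6.pt,
      s6.qr, s6.qt]
  refine ⟨N \ (sq x y q p ∪ sq x y r t), sdiff_subset_sdiff subset_union_right le_rfl,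
    good_of_subset (Or.inr sdiff_subset), fun v => ?_⟩
  have e : N \ (sq x y q p ∪ sq x y r t) = N \ insert s(q, p) (sq x y r t) := by
    ext e
    simp only [mem_sdiff]
    constructor
    · rintro ⟨h1, h2⟩
      refine ⟨h1, fun h3 => h2 ?_⟩
      rcases mem_insert.mp h3 with rfl | h3
      · exact mem_union_left _ (by simp [sq])
      · exact mem_union_right _ h3
    · rintro ⟨h1, h2⟩
      refine ⟨h1, fun h3 => h2 ?_⟩
      rcases interN D h1 h3 with h3 | h3
      · exact mem_insert_of_mem h3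
      · rw [h3]; exact mem_insert_self _ _
  rw [e, dv_sdiff D.hN.nl (insert_subset h D.hRN), Pi.sub_apply, dv_insert s6.pq.symm hrt, Pi.add_apply,
    Pi.add_apply, dv_sq hd]
  simp only [dv_apply, D.hN.eq]
  simp
  ring

lemma outerN2 (D : Dat F N x y p q r t) (h : s(q, p) ∉ N) : Outer F N x y p q r t ![2, 2, 0, 0] := by
  have s6 := D.six
  have hd : Dist4 x y r t := ⟨s6.xy, s6.xr, s6.xt, s6.yr, s6.yt, s6.rt⟩
  refine ⟨N \ (sq x y q p ∪ sq x y r t), sdiff_subset_sdiff subset_union_right le_rfl,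
    good_of_subset (Or.inr sdiff_subset), fun v => ?_⟩
  have e : N \ (sq x y q p ∪ sq x y r t) = N \ sq x y r t := by
    ext e
    simp only [mem_sdiff]
    constructor
    · rintro ⟨h1, h2⟩
      exact ⟨h1, fun h3 => h2 (mem_union_right _ h3)⟩
    · rintro ⟨h1, h2⟩
      refine ⟨h1, fun h3 => h2 ?_⟩
      rcases interN D h1 h3 with h3 | h3
      · exact h3
      · rw [h3] at h1; exact absurd h1 h
  rw [e, dv_sdiff D.hN.nl D.hRN, Pi.sub_apply, dv_sq hd]
  simp only [dv_apply, D.hN.eq]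
  simp
  ring

/-- the base vector -/
def bas (x y p q r t : V) : V → ℤ := fun v => 2 - 2 * ev x v - 2 * ev y v - 2 * ev p v - 2 * ev q v -
  2 * ev r v - 2 * ev t v

lemma outer_iff (D : Dat F N x y p q r t) {k : Fin 4 → ℤ} :
    bas x y p q r t + put ![p, q, r, t] k ∈ JS ((F ∪ N) \ (sq x y q p ∪ sq x y r t)) (alFN F N) →
    Outer F N x y p q r t k := by
  rintro ⟨O, hO, -, hOg, h⟩
  refine ⟨O, hO, hOg, fun v => ?_⟩
  have := congrFun h v
  rw [← this, Pi.add_apply, put4, bas]
  simp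
  ring

lemma mem_of_outer {k : Fin 4 → ℤ} (h : Outer F N x y p q r t k) (hnl : NoLoop (F ∪ N))
    (h2 : ∀ v, 2 - 2 * ev x v - 2 * ev y v + (k 0 - 2) * ev p v + (k 1 - 2) * ev q v +
      (k 2 - 2) * ev r v + (k 3 - 2) * ev t v ≤ 2) :
    bas x y p q r t + put ![p, q, r, t] k ∈ JS ((F ∪ N) \ (sq x y q p ∪ sq x y r t)) (alFN F N) := by
  obtain ⟨O, hO, hOg, h⟩ := h
  refine ⟨O, hO, ⟨hnl.mono (hO.trans sdiff_subset), fun v => ?_⟩, hOg, ?_⟩
  · have h3 := h v
    have h4 := h2 v
    rw [← h3] at h4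
    simp only [dv_apply] at h4
    exact_mod_cast h4
  · funext v
    rw [h v, Pi.add_apply, put4, bas]
    simp
    ring

/-- **conflict elimination, six vertices** -/
theorem ce6 (D : Dat F N x y p q r t) : CEConc F N (sq x y q p) (sq x y r t) := by
  have s6 := D.six
  by_cases h1 : s(r, t) ∈ F
  · exact c0011 D (outerF1 D h1)
  by_cases h2 : s(q, p) ∈ N
  · exact c1100 D (outerN1 D h2)
  have hnl : NoLoop (F ∪ N) := by
    intro e he
    rcases mem_union.mp he with h | h
    · exact D.hF.nl e h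
    · exact D.hN.nl e h
  have hf : Function.Injective ![p, q, r, t] := by (intro i j hij; fin_cases i <;> fin_cases j <;> first | rfl | (exfalso; revert hij; simp [Sym2.eq_iff, s6.all]))
  have hJ := Jump.pull hf (bas x y p q r t)
    (jump_JS (alFN_sym F N) ((F ∪ N) \ (sq x y q p ∪ sq x y r t)))
  have e0 : ∀ a v : V, 0 ≤ ev a v := by
    intro a v; rw [ev_apply]; split_ifs <;> norm_num
  have m1 := mem_of_outer (outerF2 D h1) hnl (by
    intro v
    have := e0 x v; have := e0 y v; have := e0 p v; have := e0 q v; have := e0 r v; have := e0 t v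
    simp
    linarith)
  have m2 := mem_of_outer (outerN2 D h2) hnl (by
    intro v
    have := e0 x v; have := e0 y v; have := e0 p v; have := e0 q v; have := e0 r v; have := e0 t v
    simp
    linarith)
  rcases four_conflict hJ m2 m1 with h | h | h | h | h | h | h | h | h
  · exact c1100 D (outer_iff D h)
  · exact c1201 D (outer_iff D h)
  · exact c0000 D (outer_iff D h)
  · exact c0101 D (outer_iff D h)
  · exact c2110 D (outer_iff D h)
  · exact c1122 D (outer_iff D h)
  · exact c1021 D (outer_iff D h)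
  · exact c1111 D (outer_iff D h)
  · exact c1010 D (outer_iff D h)

end six

end Pool.Agent.TFC.CE
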