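import Pool.Agent.TFC.JumpJS

/-!
Clusters: a finite set of squares, no two of which share exactly one edge, is covered by edge-disjoint clusters.
-/

set_option autoImplicit false
set_option linter.unusedSectionVars false
set_option linter.unusedSimpArgs false

namespace Pool.Agent.TFC

open Finset
open scoped Pointwise

variable {V : Type*} [DecidableEq V]

/-- `Q` is the square `a b c d`, on the vertex set `X` -/
def Clus_F (Q : Finset (Sym2 V)) (X : Finset V) (a b c d : V) : Prop :=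
  Dist4 a b c d ∧ Q = sq a b c d ∧ X = {a, b, c, d}

lemma Clus_rot {Q : Finset (Sym2 V)} {X : Finset V} {a b c d : V} (h : Clus_F Q X a b c d) :
    Clus_F Q X b c d a := by
  obtain ⟨⟨h1, h2, h3, h4, h5, h6⟩, hQ, hX⟩ := h
  refine ⟨⟨h4, h5, h1.symm, h6, h2.symm, h3.symm⟩, ?_, ?_⟩
  · rw [hQ]
    ext e
    simp only [sq, mem_insert, mem_singleton]
    tauto
  · rw [hX]
    ext e
    simp only [mem_insert, mem_singleton]
    tauto

lemma Clus_ref {Q : Finset (Sym2 V)} {X : Finset V} {a b c d : V} (h : Clus_F Q X a b c d) :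
    Clus_F Q X d c b a := by
  obtain ⟨⟨h1, h2, h3, h4, h5, h6⟩, hQ, hX⟩ := h
  refine ⟨⟨h6.symm, h5.symm, h3.symm, h4.symm, h2.symm, h1.symm⟩, ?_, ?_⟩
  · rw [hQ]
    have e1 : s(d, c) = s(c, d) := Sym2.eq_swap
    have e2 : s(c, b) = s(b, c) := Sym2.eq_swap
    have e3 : s(b, a) = s(a, b) := Sym2.eq_swap
    have e4 : s(a, d) = s(d, a) := Sym2.eq_swap
    ext e
    simp only [sq, mem_insert, mem_singleton, e1, e2, e3, e4]
    tauto
  · rw [hX]
    ext e
    simp only [mem_insert, mem_singleton]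
    tauto

/-- `Q` is a square on the vertex set `X` -/
def Clus_On (Q : Finset (Sym2 V)) (X : Finset V) : Prop := ∃ a b c d, Clus_F Q X a b c d

lemma Clus_start {Q : Finset (Sym2 V)} {X : Finset V} (h : Clus_On Q X) {u : V} (hu : u ∈ X) :
    ∃ b c d, Clus_F Q X u b c d := by
  obtain ⟨a, b, c, d, h⟩ := h
  have hu' := hu
  rw [h.2.2] at hu'
  simp only [mem_insert, mem_singleton] at hu'
  rcases hu' with rfl | rfl | rfl | rfl
  · exact ⟨_, _, _, h⟩
  · exact ⟨_, _, _, Clus_rot h⟩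
  · exact ⟨_, _, _, Clus_rot (Clus_rot h)⟩
  · exact ⟨_, _, _, Clus_rot (Clus_rot (Clus_rot h))⟩

lemma Clus_adj {Q : Finset (Sym2 V)} {X : Finset V} (h : Clus_On Q X) {u v : V} (hu : s(u, v) ∈ Q) :
    ∃ c d, Clus_F Q X u v c d := by
  obtain ⟨a, b, c, d, h⟩ := h
  have hu' := hu
  rw [h.2.1] at hu'
  simp only [sq, mem_insert, mem_singleton, Sym2.eq_iff] at hu'
  rcases hu' with (⟨rfl, rfl⟩ | ⟨rfl, rfl⟩) | (⟨rfl, rfl⟩ | ⟨rfl, rfl⟩) | (⟨rfl, rfl⟩ | ⟨rfl, rfl⟩) |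
    (⟨rfl, rfl⟩ | ⟨rfl, rfl⟩)
  · exact ⟨_, _, h⟩
  · exact ⟨_, _, Clus_rot (Clus_rot (Clus_ref h))⟩
  · exact ⟨_, _, Clus_rot h⟩
  · exact ⟨_, _, Clus_rot (Clus_ref h)⟩
  · exact ⟨_, _, Clus_rot (Clus_rot h)⟩
  · exact ⟨_, _, Clus_ref h⟩
  · exact ⟨_, _, Clus_rot (Clus_rot (Clus_rot h))⟩
  · exact ⟨_, _, Clus_rot (Clus_rot (Clus_rot (Clus_ref h)))⟩

lemma Clus_adj2 {Q : Finset (Sym2 V)} {X : Finset V} (h : Clus_On Q X) {u v w : V} (hu : s(u, v) ∈ Q)
    (hv : s(v, w) ∈ Q) (huw : u ≠ w) : ∃ d, Clus_F Q X u v w d := by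
  obtain ⟨c, d, h'⟩ := Clus_adj h hu
  have hv' := hv
  obtain ⟨⟨h1, h2, h3, h4, h5, h6⟩, hQ, hX⟩ := id h'
  rw [hQ] at hv'
  simp only [sq, mem_insert, mem_singleton, Sym2.eq_iff] at hv'
  rcases hv' with (⟨e1, e2⟩ | ⟨e1, e2⟩) | (⟨e1, e2⟩ | ⟨e1, e2⟩) | (⟨e1, e2⟩ | ⟨e1, e2⟩) |
    (⟨e1, e2⟩ | ⟨e1, e2⟩)
  · exact absurd e1 h1.symm
  · exact absurd e2.symm huw
  · subst e2
    exact ⟨_, h'⟩
  · exact absurd e1 h4
  · exact absurd e1 h4
  · exact absurd e1 h5
  · exact absurd e1 h5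
  · exact absurd e1 h1.symm

lemma Clus_eq {Q R : Finset (Sym2 V)} {X : Finset V} (hQ : Clus_On Q X) (hR : Clus_On R X) {u v w : V}
    (huw : u ≠ w) (h1 : s(u, v) ∈ Q) (h2 : s(v, w) ∈ Q) (h3 : s(u, v) ∈ R) (h4 : s(v, w) ∈ R) : Q = R := by
  obtain ⟨d, ⟨a1, a2, a3, a4, a5, a6⟩, eQ, eX⟩ := Clus_adj2 hQ h1 h2 huw
  obtain ⟨d', ⟨b1, b2, b3, b4, b5, b6⟩, eR, eX'⟩ := Clus_adj2 hR h3 h4 huw
  have hd : d ∈ X := by rw [eX]; simp
  rw [eX'] at hd
  simp only [mem_insert, mem_singleton] at hd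
  rcases hd with e | e | e | e
  · exact absurd e a3.symm
  · exact absurd e a5.symm
  · exact absurd e a6.symm
  · rw [eQ, eR, e]

lemma Clus_mem {Q : Finset (Sym2 V)} {X : Finset V} (h : Clus_On Q X) {u v : V} (hu : s(u, v) ∈ Q) :
    u ∈ X ∧ v ∈ X ∧ u ≠ v := by
  obtain ⟨c, d, h1, -, hX⟩ := Clus_adj h hu
  rw [hX]
  exact ⟨by simp, by simp, h1.1⟩

lemma Clus_card {Q : Finset (Sym2 V)} {X : Finset V} (h : Clus_On Q X) : #X = 4 := by
  obtain ⟨a, b, c, d, ⟨h1, h2, h3, h4, h5, h6⟩, -, hX⟩ := h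
  rw [hX, card_insert_of_notMem, card_insert_of_notMem, card_insert_of_notMem, card_singleton]
  · simpa using h6
  · simp [h4, h5]
  · simp [h1, h2, h3]

lemma Clus_isSq {Q : Finset (Sym2 V)} (h : IsSq Q) : ∃ X, Clus_On Q X := by
  obtain ⟨a, b, c, d, h1, h2⟩ := h
  exact ⟨_, a, b, c, d, h1, h2, rfl⟩

lemma Clus_k4 {X : Finset V} {u v : V} : s(u, v) ∈ (Clu.k4 X).edges ↔ u ∈ X ∧ v ∈ X ∧ u ≠ v := by
  simp only [Clu.edges, mem_filter, Finset.mk_mem_sym2_iff, Sym2.mk_isDiag_iff]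
  tauto

/-- two squares sharing an edge and not exactly one share a second edge -/
lemma Clus_second {T Z : Finset (Sym2 V)} (h : #(T ∩ Z) ≠ 1) {e : Sym2 V} (h1 : e ∈ T) (h2 : e ∈ Z) :
    ∃ e' ∈ T, e' ∈ Z ∧ e' ≠ e := by
  by_contra hcon
  push Not at hcon
  apply h
  rw [card_eq_one]
  refine ⟨e, ?_⟩
  ext e'
  simp only [mem_inter, mem_singleton]
  constructor
  · rintro ⟨h3, h4⟩
    exact hcon e' h3 h4
  · rintro rfl
    exact ⟨h1, h2⟩

/-- the conclusion of one step -/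
def Clus_Step (D : Finset (Finset (Sym2 V))) (Q : Finset (Sym2 V)) : Prop :=
  ∃ (c : Clu V) (D' : Finset (Finset (Sym2 V))), D' ⊆ D ∧ Q ∈ D' ∧ c.Valid ∧ (∀ S ∈ D', S ⊆ c.edges) ∧
    c.edges ⊆ D'.biUnion id ∧ ∀ T ∈ D, T ∉ D' → ∀ e ∈ T, e ∉ c.edges

/-- case 1 -/
lemma Clus_case1 {D : Finset (Finset (Sym2 V))} (hD : ∀ Q ∈ D, IsSq Q)
    (hc : ∀ Q ∈ D, ∀ R ∈ D, Q ≠ R → #(Q ∩ R) ≠ 1) {Q R : Finset (Sym2 V)} (hQ : Q ∈ D) (hR : R ∈ D)
    (hne : Q ≠ R) {X : Finset V} (oQ : Clus_On Q X) (oR : Clus_On R X) : Clus_Step D Q := by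
  classical
  have sub : ∀ Z, Clus_On Z X → Z ⊆ (Clu.k4 X).edges := by
    intro Z hZ e he
    induction e using Sym2.ind with
    | _ u v => exact Clus_k4.2 (Clus_mem hZ he)
  have cov : ∀ u v, s(u, v) ∈ (Clu.k4 X).edges → s(u, v) ∈ Q ∨ s(u, v) ∈ R := by
    intro u v huv
    by_contra hcon
    push Not at hcon
    obtain ⟨hu, hv, huv'⟩ := Clus_k4.1 huv
    have key : ∀ Z, Clus_On Z X → s(u, v) ∉ Z → ∃ b d, Clus_F Z X b u d v := by
      intro Z hZ hn
      obtain ⟨b, c, d, h⟩ := Clus_start hZ hu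
      obtain ⟨⟨h1, h2, h3, h4, h5, h6⟩, eQ, eX⟩ := id h
      have hv' := hv
      rw [eX] at hv'
      simp only [mem_insert, mem_singleton] at hv'
      rcases hv' with e | e | e | e
      · exact absurd e huv'.symm
      · exfalso
        apply hn
        rw [eQ, e]
        simp [sq]
      · subst e
        exact ⟨_, _, Clus_rot (Clus_ref (Clus_rot (Clus_ref (Clus_rot (Clus_rot (Clus_rot h))))))⟩
      · exfalso
        apply hn
        rw [eQ, e, Sym2.eq_swap]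
        simp [sq]
    obtain ⟨b, d, ⟨a1, a2, a3, a4, a5, a6⟩, eQ, eX⟩ := key Q oQ hcon.1
    obtain ⟨b', d', ⟨b1, b2, b3, b4, b5, b6⟩, eR, eX'⟩ := key R oR hcon.2
    have hbm : b ∈ X := by rw [eX]; simp
    have hdm : d ∈ X := by rw [eX]; simp
    rw [eX'] at hbm hdm
    simp only [mem_insert, mem_singleton] at hbm hdm
    apply hne
    have hb : b = b' ∨ b = d' := by
      rcases hbm with e | e | e | e
      · exact Or.inl e
      · exact absurd e a1
      · exact Or.inr e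
      · exact absurd e a3
    have hd : d = b' ∨ d = d' := by
      rcases hdm with e | e | e | e
      · exact Or.inl e
      · exact absurd e a4.symm
      · exact Or.inr e
      · exact absurd e a6
    rcases hb with rfl | rfl
    · rcases hd with rfl | rfl
      · exact absurd rfl a2
      · rw [eQ, eR]
    · rcases hd with rfl | rfl
      · rw [eQ, eR]
        have e1 : s(d, u) = s(u, d) := Sym2.eq_swap
        have e2 : s(u, b) = s(b, u) := Sym2.eq_swap
        have e3 : s(b, v) = s(v, b) := Sym2.eq_swap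
        have e4 : s(v, d) = s(d, v) := Sym2.eq_swap
        ext e
        simp only [sq, mem_insert, mem_singleton, e1, e2, e3, e4]
        tauto
      · exact absurd rfl a2
  refine ⟨Clu.k4 X, D.filter (fun S => S ⊆ (Clu.k4 X).edges), filter_subset _ _, ?_, Clus_card oQ, ?_, ?_, ?_⟩
  · rw [mem_filter]
    exact ⟨hQ, sub Q oQ⟩
  · intro S hS
    exact (mem_filter.1 hS).2
  · intro e he
    rw [mem_biUnion]
    induction e using Sym2.ind with
    | _ u v =>
      rcases cov u v he with h | h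
      · exact ⟨Q, mem_filter.2 ⟨hQ, sub Q oQ⟩, h⟩
      · exact ⟨R, mem_filter.2 ⟨hR, sub R oR⟩, h⟩
  · intro T hT hTn e heT heK
    have hTn' : ¬ T ⊆ (Clu.k4 X).edges := fun h => hTn (mem_filter.2 ⟨hT, h⟩)
    obtain ⟨Y, oT⟩ := Clus_isSq (hD T hT)
    -- the main argument
    have main : ∀ p q r s, Clus_F T Y p q r s → p ∈ X → q ∈ X → s ∉ X → False := by
      intro p q r s h hp hq hs
      obtain ⟨⟨h1, h2, h3, h4, h5, h6⟩, eT, -⟩ := h
      have hiff : ∀ Z ∈ D, Clus_On Z X → (s(p, q) ∈ Z ↔ s(q, r) ∈ Z) := by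
        intro Z hZ oZ
        have hTZ : T ≠ Z := by
          rintro rfl
          exact hTn' (sub _ oZ)
        have hcard := hc T hT Z hZ hTZ
        have n1 : s(r, s) ∉ Z := fun h => hs (Clus_mem oZ h).2.1
        have n2 : s(s, p) ∉ Z := fun h => hs (Clus_mem oZ h).1
        constructor
        · intro h
          obtain ⟨e', he1, he2, he3⟩ := Clus_second hcard (e := s(p, q)) (by rw [eT]; simp [sq]) h
          rw [eT] at he1
          simp only [sq, mem_insert, mem_singleton] at he1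
          rcases he1 with rfl | rfl | rfl | rfl
          · exact absurd rfl he3
          · exact he2
          · exact absurd he2 n1
          · exact absurd he2 n2
        · intro h
          obtain ⟨e', he1, he2, he3⟩ := Clus_second hcard (e := s(q, r)) (by rw [eT]; simp [sq]) h
          rw [eT] at he1
          simp only [sq, mem_insert, mem_singleton] at he1
          rcases he1 with rfl | rfl | rfl | rfl
          · exact he2
          · exact absurd rfl he3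
          · exact absurd he2 n1
          · exact absurd he2 n2
      have final : ∀ Z Z', Z ∈ D → Z' ∈ D → Clus_On Z X → Clus_On Z' X → Z ≠ Z' → s(p, q) ∈ Z → False := by
        intro Z Z' hZ hZ' oZ oZ' hZZ hpq
        have hqr := (hiff Z hZ oZ).1 hpq
        by_cases hpq' : s(p, q) ∈ Z'
        · exact hZZ (Clus_eq oZ oZ' h2 hpq hqr hpq' ((hiff Z' hZ' oZ').1 hpq'))
        · have hqr' : s(q, r) ∉ Z' := fun h => hpq' ((hiff Z' hZ' oZ').2 h)
          have hr : r ∈ X := (Clus_mem oZ hqr).2.1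
          obtain ⟨b, c, d, ⟨c1, c2, c3, c4, c5, c6⟩, eZ, eX⟩ := Clus_start oZ' hq
          have only : ∀ m, m ∈ X → m ≠ q → s(q, m) ∉ Z' → m = c := by
            intro m hm hmq hn
            rw [eX] at hm
            simp only [mem_insert, mem_singleton] at hm
            rcases hm with e | e | e | e
            · exact absurd e hmq
            · exfalso
              apply hn
              rw [eZ, e]
              simp [sq]
            · exact e
            · exfalso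
              apply hn
              rw [eZ, e, Sym2.eq_swap]
              simp [sq]
          have e1 := only p hp h1 (by rw [Sym2.eq_swap]; exact hpq')
          have e2 := only r hr h4.symm hqr'
          exact h2 (e1.trans e2.symm)
      rcases cov p q (Clus_k4.2 ⟨hp, hq, h1⟩) with h | h
      · exact final Q R hQ hR oQ oR hne h
      · exact final R Q hR hQ oR oQ hne.symm h
    induction e using Sym2.ind with
    | _ p q =>
      obtain ⟨hp, hq, hpq⟩ := Clus_k4.1 heK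
      obtain ⟨r, s, h⟩ := Clus_adj oT heT
      by_cases hs : s ∈ X
      · by_cases hr : r ∈ X
        · apply hTn'
          obtain ⟨⟨h1, h2, h3, h4, h5, h6⟩, eT, -⟩ := h
          rw [eT]
          intro e he
          simp only [sq, mem_insert, mem_singleton] at he
          rcases he with rfl | rfl | rfl | rfl
          · exact Clus_k4.2 ⟨hp, hq, h1⟩
          · exact Clus_k4.2 ⟨hq, hr, h4⟩
          · exact Clus_k4.2 ⟨hr, hs, h6⟩
          · exact Clus_k4.2 ⟨hs, hp, h3.symm⟩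
        · exact main q p s r (Clus_rot (Clus_rot (Clus_ref h))) hq hp hr
      · exact main p q r s h hp hq hs

/-- exchange the two leaves -/
lemma Clus_leaf {Q : Finset (Sym2 V)} {X : Finset V} {x a y b : V} (h : Clus_F Q X x a y b) :
    Clus_F Q X x b y a := Clus_rot (Clus_rot (Clus_rot (Clus_ref h)))

/-- exchange the two centres -/
lemma Clus_cen {Q : Finset (Sym2 V)} {X : Finset V} {x a y b : V} (h : Clus_F Q X x a y b) :
    Clus_F Q X y a x b := Clus_rot (Clus_ref h)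

lemma Clus_sq_leaf {x a y b : V} (h : Dist4 x a y b) : Dist4 x b y a ∧ sq x a y b = sq x b y a := by
  have h1 : Clus_F (sq x a y b) {x, a, y, b} x a y b := ⟨h, rfl, rfl⟩
  have h2 := Clus_leaf h1
  exact ⟨h2.1, h2.2.1⟩

lemma Clus_sq_cen {x a y b : V} (h : Dist4 x a y b) : Dist4 y a x b ∧ sq x a y b = sq y a x b := by
  have h1 : Clus_F (sq x a y b) {x, a, y, b} x a y b := ⟨h, rfl, rfl⟩
  have h2 := Clus_cen h1
  exact ⟨h2.1, h2.2.1⟩

lemma Clus_core {D : Finset (Finset (Sym2 V))} (hD : ∀ Q ∈ D, IsSq Q)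
    (hc : ∀ Q ∈ D, ∀ R ∈ D, Q ≠ R → #(Q ∩ R) ≠ 1) {x y l l' : V} {T : Finset (Sym2 V)} (hT : T ∈ D)
    (h4 : Dist4 x l y l') (hS : sq x l y l' ∈ D) (hTS : T ≠ sq x l y l')
    (hTn : ∀ m, Dist4 x l y m → m ≠ l' → T ≠ sq x l y m) (he : s(x, l) ∈ T)
    (hP : ∃ m m' m'', ((m = l ∧ m' = l') ∨ (m = l' ∧ m' = l)) ∧ Dist4 x m y m'' ∧ m'' ≠ m' ∧
      sq x m y m'' ∈ D) : False := by
  obtain ⟨Y, oT⟩ := Clus_isSq (hD T hT)
  obtain ⟨p, q, ⟨h1, h2, h3, h4', h5, h6⟩, eT, -⟩ := Clus_adj oT he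
  obtain ⟨k1, k2, k3, k4, k5, k6⟩ := id h4
  obtain ⟨e', he1, he2, he3⟩ := Clus_second (hc T hT _ hS hTS) he (by simp [sq])
  obtain ⟨m, m', m'', hm, ⟨n1, n2, n3, n4, n5, n6⟩, hmm, hSm⟩ := hP
  -- a common edge of T and the partner is the only one
  have fin : ∀ e1 ∈ T, e1 ∈ sq x m y m'' → (∀ e2 ∈ T, e2 ∈ sq x m y m'' → e2 = e1) → T ≠ sq x m y m'' →
      False := by
    intro e1 g1 g2 g3 g4
    obtain ⟨e2, f1, f2, f3⟩ := Clus_second (hc T hT _ hSm g4) g1 g2
    exact f3 (g3 e2 f1 f2)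
  rw [eT] at he1
  simp only [sq, mem_insert, mem_singleton] at he1
  rcases he1 with rfl | rfl | rfl | rfl
  · exact he3 rfl
  · -- second edge l p
    simp only [sq, mem_insert, mem_singleton, Sym2.eq_iff] at he2
    have hpy : p = y := by
      rcases he2 with (⟨e1, e2⟩ | ⟨e1, e2⟩) | (⟨e1, e2⟩ | ⟨e1, e2⟩) | (⟨e1, e2⟩ | ⟨e1, e2⟩) |
        (⟨e1, e2⟩ | ⟨e1, e2⟩)
      · exact absurd e1 h1.symm
      · exact absurd e2.symm h2
      · exact e2
      · exact absurd e1 k4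
      · exact absurd e1 k4
      · exact absurd e1 k5
      · exact absurd e1 k5
      · exact absurd e1 h1.symm
    subst hpy
    by_cases hq : q = l'
    · subst hq
      exact hTS eT
    · exact hTn q ⟨h1, h2, h3, h4', h5, h6⟩ hq eT
  · -- second edge p q
    simp only [sq, mem_insert, mem_singleton, Sym2.eq_iff] at he2
    have hpq : (p = y ∧ q = l') ∨ (p = l' ∧ q = y) := by
      rcases he2 with (⟨e1, e2⟩ | ⟨e1, e2⟩) | (⟨e1, e2⟩ | ⟨e1, e2⟩) | (⟨e1, e2⟩ | ⟨e1, e2⟩) |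
        (⟨e1, e2⟩ | ⟨e1, e2⟩)
      · exact absurd e1.symm h2
      · exact absurd e2.symm h3
      · exact absurd e1.symm h4'
      · exact absurd e2.symm h5
      · exact Or.inl ⟨e1, e2⟩
      · exact Or.inr ⟨e1, e2⟩
      · exact absurd e2.symm h3
      · exact absurd e1.symm h2
    rcases hpq with ⟨rfl, rfl⟩ | ⟨rfl, rfl⟩
    · exact hTS eT
    · -- T = x l l' y
      have hne : T ≠ sq x m q m'' := by
        intro h
        have : s(q, x) ∈ sq x m q m'' := by rw [← h, eT]; simp [sq]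
        simp [sq, n1, n2, n3, n4, n5, n6, n1.symm, n2.symm, n3.symm, n4.symm, n5.symm, n6.symm] at this
      rcases hm with ⟨rfl, rfl⟩ | ⟨rfl, rfl⟩
      · refine fin s(x, m) he (by simp [sq]) ?_ hne
        intro e2 g1 g2
        rw [eT] at g1
        simp only [sq, mem_insert, mem_singleton] at g1
        rcases g1 with rfl | rfl | rfl | rfl
        · rfl
        all_goals
          exfalso
          simp [sq, n1, n2, n3, n4, n5, n6, n1.symm, n2.symm, n3.symm, n4.symm, n5.symm, n6.symm, k1, k2, k3, k4,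
            k5, k6, k1.symm, k2.symm, k3.symm, k4.symm, k5.symm, k6.symm, hmm, hmm.symm] at g2
      · refine fin s(m, q) (by rw [eT]; simp [sq]) (by simp [sq]) ?_ hne
        intro e2 g1 g2
        rw [eT] at g1
        simp only [sq, mem_insert, mem_singleton] at g1
        rcases g1 with rfl | rfl | rfl | rfl
        · exfalso
          simp [sq, n1, n2, n3, n4, n5, n6, n1.symm, n2.symm, n3.symm, n4.symm, n5.symm, n6.symm, k1, k2, k3, k4,
            k5, k6, k1.symm, k2.symm, k3.symm, k4.symm, k5.symm, k6.symm, hmm, hmm.symm] at g2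
        · exfalso
          simp [sq, n1, n2, n3, n4, n5, n6, n1.symm, n2.symm, n3.symm, n4.symm, n5.symm, n6.symm, k1, k2, k3, k4,
            k5, k6, k1.symm, k2.symm, k3.symm, k4.symm, k5.symm, k6.symm, hmm, hmm.symm] at g2
        · rfl
        · exfalso
          simp [sq, n1, n2, n3, n4, n5, n6, n1.symm, n2.symm, n3.symm, n4.symm, n5.symm, n6.symm, k1, k2, k3, k4,
            k5, k6, k1.symm, k2.symm, k3.symm, k4.symm, k5.symm, k6.symm, hmm, hmm.symm] at g2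
  · -- second edge q x
    simp only [sq, mem_insert, mem_singleton, Sym2.eq_iff] at he2
    have hq : q = l' := by
      rcases he2 with (⟨e1, e2⟩ | ⟨e1, e2⟩) | (⟨e1, e2⟩ | ⟨e1, e2⟩) | (⟨e1, e2⟩ | ⟨e1, e2⟩) |
        (⟨e1, e2⟩ | ⟨e1, e2⟩)
      · exact absurd e2 k1
      · exact absurd e1.symm h5
      · exact absurd e2 k2
      · exact absurd e2 k1
      · exact absurd e2 k3
      · exact absurd e2 k2
      · exact e1
      · exact absurd e1.symm h3
    subst hq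
    by_cases hpy : p = y
    · subst hpy
      exact hTS eT
    · -- T = x l p l'
      have hpy' : y ≠ p := fun h => hpy h.symm
      have hne : T ≠ sq x m y m'' := by
        intro h
        have : s(l, p) ∈ sq x m y m'' := by rw [← h, eT]; simp [sq]
        rcases hm with ⟨rfl, rfl⟩ | ⟨rfl, rfl⟩ <;>
        simp [sq, n1, n2, n3, n4, n5, n6, n1.symm, n2.symm, n3.symm, n4.symm, n5.symm, n6.symm, k1, k2, k3, k4,
            k5, k6, k1.symm, k2.symm, k3.symm, k4.symm, k5.symm, k6.symm, hmm, hmm.symm, hpy, hpy', h1, h2, h3, h4',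
            h5, h6, h1.symm, h2.symm, h3.symm, h4'.symm, h5.symm, h6.symm] at this
      rcases hm with ⟨rfl, rfl⟩ | ⟨rfl, rfl⟩
      · refine fin s(x, m) he (by simp [sq]) ?_ hne
        intro e2 g1 g2
        rw [eT] at g1
        simp only [sq, mem_insert, mem_singleton] at g1
        rcases g1 with rfl | rfl | rfl | rfl
        · rfl
        all_goals
          exfalso
          simp [sq, n1, n2, n3, n4, n5, n6, n1.symm, n2.symm, n3.symm, n4.symm, n5.symm, n6.symm, k1, k2, k3, k4,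
            k5, k6, k1.symm, k2.symm, k3.symm, k4.symm, k5.symm, k6.symm, hmm, hmm.symm, hpy, hpy', h1, h2, h3, h4',
            h5, h6, h1.symm, h2.symm, h3.symm, h4'.symm, h5.symm, h6.symm] at g2
      · refine fin s(m, x) (by rw [eT]; simp [sq]) (by rw [Sym2.eq_swap]; simp [sq]) ?_ hne
        intro e2 g1 g2
        rw [eT] at g1
        simp only [sq, mem_insert, mem_singleton] at g1
        rcases g1 with rfl | rfl | rfl | rfl
        · exfalso
          simp [sq, n1, n2, n3, n4, n5, n6, n1.symm, n2.symm, n3.symm, n4.symm, n5.symm, n6.symm, k1, k2, k3, k4,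
            k5, k6, k1.symm, k2.symm, k3.symm, k4.symm, k5.symm, k6.symm, hmm, hmm.symm, hpy, hpy', h1, h2, h3, h4',
            h5, h6, h1.symm, h2.symm, h3.symm, h4'.symm, h5.symm, h6.symm] at g2
        · exfalso
          simp [sq, n1, n2, n3, n4, n5, n6, n1.symm, n2.symm, n3.symm, n4.symm, n5.symm, n6.symm, k1, k2, k3, k4,
            k5, k6, k1.symm, k2.symm, k3.symm, k4.symm, k5.symm, k6.symm, hmm, hmm.symm, hpy, hpy', h1, h2, h3, h4',
            h5, h6, h1.symm, h2.symm, h3.symm, h4'.symm, h5.symm, h6.symm] at g2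
        · exfalso
          simp [sq, n1, n2, n3, n4, n5, n6, n1.symm, n2.symm, n3.symm, n4.symm, n5.symm, n6.symm, k1, k2, k3, k4,
            k5, k6, k1.symm, k2.symm, k3.symm, k4.symm, k5.symm, k6.symm, hmm, hmm.symm, hpy, hpy', h1, h2, h3, h4',
            h5, h6, h1.symm, h2.symm, h3.symm, h4'.symm, h5.symm, h6.symm] at g2
        · rfl

/-- case 2 -/
lemma Clus_case2 {D : Finset (Finset (Sym2 V))} (hD : ∀ Q ∈ D, IsSq Q)
    (hc : ∀ Q ∈ D, ∀ R ∈ D, Q ≠ R → #(Q ∩ R) ≠ 1) {x y a b c : V} (hQ : sq x a y b ∈ D)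
    (hR : sq x a y c ∈ D) (dQ : Dist4 x a y b) (dR : Dist4 x a y c) (hbc : b ≠ c) :
    Clus_Step D (sq x a y b) := by
  classical
  obtain ⟨Pr, hPr⟩ : ∃ Pr : Finset (Sym2 V) → Prop, ∀ S, Pr S ↔ ∃ l l' l'', Dist4 x l y l' ∧
      Dist4 x l y l'' ∧ l' ≠ l'' ∧ S = sq x l y l' ∧ sq x l y l'' ∈ D := ⟨_, fun _ => Iff.rfl⟩
  set D' := D.filter Pr with hD'
  have hmD' : ∀ S, S ∈ D' ↔ S ∈ D ∧ Pr S := fun S => mem_filter
  set L : Finset V := (D'.biUnion (fun S => S.biUnion Sym2.toFinset)).filter (fun l => l ≠ x ∧ l ≠ y) with hL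
  have hmL : ∀ l, l ∈ L ↔ (∃ S ∈ D', ∃ e ∈ S, l ∈ e) ∧ l ≠ x ∧ l ≠ y := by
    intro l
    rw [hL, mem_filter]
    simp only [mem_biUnion, Sym2.mem_toFinset]
  -- leaves of members of D'
  have leafL : ∀ l l', Dist4 x l y l' → sq x l y l' ∈ D' → l ∈ L ∧ l' ∈ L := by
    rintro l l' ⟨h1, h2, h3, h4, h5, h6⟩ hS
    refine ⟨(hmL l).2 ⟨⟨_, hS, s(x, l), by simp [sq], by simp⟩, h1.symm, h4⟩,
      (hmL l').2 ⟨⟨_, hS, s(y, l'), by simp [sq], by simp⟩, h3.symm, h6.symm⟩⟩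
  have ofL : ∀ l ∈ L, ∃ l', Dist4 x l y l' ∧ sq x l y l' ∈ D' ∧
      ∃ m m' m'', ((m = l ∧ m' = l') ∨ (m = l' ∧ m' = l)) ∧ Dist4 x m y m'' ∧ m'' ≠ m' ∧
      sq x m y m'' ∈ D := by
    intro l hl
    obtain ⟨⟨S, hS, e, he, hle⟩, hlx, hly⟩ := (hmL l).1 hl
    have hS' := hS
    obtain ⟨hSD, m, m', m'', d1, d2, hmm, rfl, hSm⟩ := (hmD' S).1 hS |>.imp_right (hPr S).1
    have hl' : l = m ∨ l = m' := by
      simp only [sq, mem_insert, mem_singleton] at he
      rcases he with rfl | rfl | rfl | rfl <;> rw [Sym2.mem_iff] at hle <;> tauto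
    rcases hl' with rfl | rfl
    · exact ⟨m', d1, hS', l, m', m'', Or.inl ⟨rfl, rfl⟩, d2, hmm.symm, hSm⟩
    · obtain ⟨d3, e3⟩ := Clus_sq_leaf d1
      exact ⟨m, d3, by rw [← e3]; exact hS', m, l, m'', Or.inr ⟨rfl, rfl⟩, d2, hmm.symm, hSm⟩
  have hQ' : sq x a y b ∈ D' := (hmD' _).2 ⟨hQ, (hPr _).2 ⟨a, b, c, dQ, dR, hbc, rfl, hR⟩⟩
  have hedge : ∀ l ∈ L, s(x, l) ∈ (Clu.k2 x y L).edges ∧ s(y, l) ∈ (Clu.k2 x y L).edges := by
    intro l hl
    constructor
    · exact mem_union_left _ (mem_image_of_mem _ hl)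
    · exact mem_union_right _ (mem_image_of_mem _ hl)
  refine ⟨Clu.k2 x y L, D', filter_subset _ _, hQ', ⟨dQ.2.1, ?_, ?_, ?_⟩, ?_, ?_, ?_⟩
  · intro h
    exact ((hmL x).1 h).2.1 rfl
  · intro h
    exact ((hmL y).1 h).2.2 rfl
  · obtain ⟨h1, h2⟩ := leafL a b dQ hQ'
    exact one_lt_card.2 ⟨a, h1, b, h2, dQ.2.2.2.2.1⟩
  · intro S hS
    have hS' := hS
    obtain ⟨hSD, m, m', m'', d1, d2, hmm, rfl, hSm⟩ := (hmD' S).1 hS |>.imp_right (hPr S).1
    obtain ⟨h1, h2⟩ := leafL m m' d1 hS'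
    intro e he
    simp only [sq, mem_insert, mem_singleton] at he
    rcases he with rfl | rfl | rfl | rfl
    · exact (hedge m h1).1
    · rw [Sym2.eq_swap]; exact (hedge m h1).2
    · exact (hedge m' h2).2
    · rw [Sym2.eq_swap]; exact (hedge m' h2).1
  · intro e he
    rw [mem_biUnion]
    have he' : (∃ l ∈ L, s(x, l) = e) ∨ (∃ l ∈ L, s(y, l) = e) := by
      simpa [Clu.edges] using he
    rcases he' with ⟨l, hl, rfl⟩ | ⟨l, hl, rfl⟩
    · obtain ⟨l', d, hS, -⟩ := ofL l hl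
      exact ⟨_, hS, by simp [sq]⟩
    · obtain ⟨l', d, hS, -⟩ := ofL l hl
      exact ⟨_, hS, by rw [Sym2.eq_swap]; simp [sq]⟩
  · intro T hT hTn e heT heK
    have he' : (∃ l ∈ L, s(x, l) = e) ∨ (∃ l ∈ L, s(y, l) = e) := by
      simpa [Clu.edges] using heK
    rcases he' with ⟨l, hl, rfl⟩ | ⟨l, hl, rfl⟩
    · obtain ⟨l', d, hS, hP⟩ := ofL l hl
      refine Clus_core hD hc hT d ((hmD' _).1 hS).1 (fun h => hTn (by rw [h]; exact hS)) ?_ heT hP
      intro m dm hm h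
      apply hTn
      rw [hmD']
      exact ⟨hT, (hPr T).2 ⟨l, m, l', dm, d, hm, h, ((hmD' _).1 hS).1⟩⟩
    · obtain ⟨l', d, hS, m, m', m'', hm, d2, hmm, hSm⟩ := ofL l hl
      obtain ⟨d', e'⟩ := Clus_sq_cen d
      obtain ⟨d2', e2'⟩ := Clus_sq_cen d2
      have hSD := ((hmD' _).1 hS).1
      refine Clus_core hD hc hT d' (by rw [← e']; exact hSD) (fun h => hTn (by rw [h, ← e']; exact hS)) ?_ heT
        ⟨m, m', m'', hm, d2', hmm, by rw [← e2']; exact hSm⟩
      intro k dk hk h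
      obtain ⟨dk', ek'⟩ := Clus_sq_cen dk
      apply hTn
      rw [hmD']
      exact ⟨hT, (hPr T).2 ⟨l, k, l', dk', d, hk, by rw [h, ek'], hSD⟩⟩

/-- case 3 -/
lemma Clus_case3 {D : Finset (Finset (Sym2 V))} {Q : Finset (Sym2 V)} (hQ : Q ∈ D) (oQ : IsSq Q)
    (h : ∀ R ∈ D, R ≠ Q → ∀ e ∈ R, e ∉ Q) : Clus_Step D Q := by
  obtain ⟨a, b, c, d, ⟨h1, h2, h3, h4, h5, h6⟩, rfl⟩ := oQ
  have hed : (Clu.k2 a c {b, d}).edges = sq a b c d := by
    ext e
    have e1 : s(b, c) = s(c, b) := Sym2.eq_swap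
    have e2 : s(d, a) = s(a, d) := Sym2.eq_swap
    simp only [Clu.edges, sq, mem_union, mem_image, mem_insert, mem_singleton, e1, e2]
    constructor
    · rintro (⟨l, rfl | rfl, rfl⟩ | ⟨l, rfl | rfl, rfl⟩) <;> simp
    · rintro (rfl | rfl | rfl | rfl)
      · exact Or.inl ⟨b, Or.inl rfl, rfl⟩
      · exact Or.inr ⟨b, Or.inl rfl, rfl⟩
      · exact Or.inr ⟨d, Or.inr rfl, rfl⟩
      · exact Or.inl ⟨d, Or.inr rfl, rfl⟩
  refine ⟨Clu.k2 a c {b, d}, {sq a b c d}, by simpa using hQ, mem_singleton_self _,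
    ⟨h2, by simp [h1, h3], by simp [h4.symm, h6], ?_⟩, ?_, ?_, ?_⟩
  · rw [card_pair h5]
  · intro S hS
    rw [mem_singleton] at hS
    rw [hS, hed]
  · rw [hed]
    intro e he
    rw [mem_biUnion]
    exact ⟨_, mem_singleton_self _, he⟩
  · intro T hT hTn e he
    rw [hed]
    exact h T hT (fun hh => hTn (by rw [hh]; exact mem_singleton_self _)) e he

lemma Clus_step {D : Finset (Finset (Sym2 V))} (hD : ∀ Q ∈ D, IsSq Q)
    (hc : ∀ Q ∈ D, ∀ R ∈ D, Q ≠ R → #(Q ∩ R) ≠ 1) {Q : Finset (Sym2 V)} (hQ : Q ∈ D) : Clus_Step D Q := by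
  by_cases c1 : ∃ R ∈ D, Q ≠ R ∧ ∃ X, Clus_On Q X ∧ Clus_On R X
  · obtain ⟨R, hR, hne, X, h1, h2⟩ := c1
    exact Clus_case1 hD hc hQ hR hne h1 h2
  by_cases c2 : ∀ R ∈ D, R ≠ Q → ∀ e ∈ R, e ∉ Q
  · exact Clus_case3 hQ (hD Q hQ) c2
  push Not at c2
  obtain ⟨R, hR, hne, e, he, heQ⟩ := c2
  obtain ⟨X, oQ⟩ := Clus_isSq (hD Q hQ)
  obtain ⟨X', oR⟩ := Clus_isSq (hD R hR)
  obtain ⟨e', he1, he2, he3⟩ := Clus_second (hc Q hQ R hR hne.symm) heQ he
  -- adjacent common edges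
  have adj : ∀ u v w, u ≠ w → s(u, v) ∈ Q → s(v, w) ∈ Q → s(u, v) ∈ R → s(v, w) ∈ R → Clus_Step D Q := by
    intro u v w huw q1 q2 r1 r2
    obtain ⟨t, dQ, eQ, -⟩ := Clus_adj2 oQ q1 q2 huw
    obtain ⟨t', dR, eR, -⟩ := Clus_adj2 oR r1 r2 huw
    have htt : t ≠ t' := by
      rintro rfl
      exact hne (by rw [eQ, eR])
    have := Clus_case2 hD hc (by rw [← eQ]; exact hQ) (by rw [← eR]; exact hR) dQ dR htt
    rwa [← eQ] at this
  induction e using Sym2.ind with
  | _ u v =>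
    obtain ⟨w, t, hF⟩ := Clus_adj oQ heQ
    obtain ⟨⟨h1, h2, h3, h4, h5, h6⟩, eQ, eX⟩ := id hF
    rw [eQ] at he1
    simp only [sq, mem_insert, mem_singleton] at he1
    rcases he1 with rfl | rfl | rfl | rfl
    · exact absurd rfl he3
    · exact adj u v w h2 heQ (by rw [eQ]; simp [sq]) he he2
    · exfalso
      obtain ⟨c, d, ⟨g1, g2, g3, g4, g5, g6⟩, eR, eX'⟩ := Clus_adj oR he
      have he2' := he2
      rw [eR] at he2'
      simp only [sq, mem_insert, mem_singleton, Sym2.eq_iff] at he2'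
      have hcd : (w = c ∧ t = d) ∨ (w = d ∧ t = c) := by
        rcases he2' with (⟨e1, e2⟩ | ⟨e1, e2⟩) | (⟨e1, e2⟩ | ⟨e1, e2⟩) | (⟨e1, e2⟩ | ⟨e1, e2⟩) |
          (⟨e1, e2⟩ | ⟨e1, e2⟩)
        · exact absurd e1.symm h2
        · exact absurd e1.symm h4
        · exact absurd e1.symm h4
        · exact absurd e2.symm h5
        · exact Or.inl ⟨e1, e2⟩
        · exact Or.inr ⟨e1, e2⟩
        · exact absurd e2.symm h3
        · exact absurd e1.symm h2
      apply c1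
      refine ⟨R, hR, hne.symm, X, oQ, ?_⟩
      have hXX : X = X' := by
        rw [eX, eX']
        rcases hcd with ⟨rfl, rfl⟩ | ⟨rfl, rfl⟩
        · rfl
        · ext z
          simp only [mem_insert, mem_singleton]
          tauto
      rw [hXX]
      exact oR
    · exact adj t u v h5.symm (by rw [eQ]; simp [sq]) heQ he2 he

theorem clusters (D : Finset (Finset (Sym2 V))) (hD : ∀ Q ∈ D, IsSq Q)
    (hc : ∀ Q ∈ D, ∀ R ∈ D, Q ≠ R → #(Q ∩ R) ≠ 1) :
    ∃ C : List (Clu V), (∀ c ∈ C, c.Valid) ∧ (C.Pairwise fun c c' => Disjoint c.edges c'.edges) ∧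
      (∀ c ∈ C, c.edges ⊆ D.biUnion id) ∧ ∀ Q ∈ D, ∃ c ∈ C, Q ⊆ c.edges := by
  classical
  induction D using Finset.strongInduction with
  | H D ih =>
    rcases D.eq_empty_or_nonempty with rfl | ⟨Q, hQ⟩
    · exact ⟨[], by simp, List.Pairwise.nil, by simp, by simp⟩
    · obtain ⟨c, D', hD'D, hQD', hval, hin, hcov, hdis⟩ := Clus_step hD hc hQ
      have hss : D \ D' ⊂ D := by
        refine sdiff_ssubset hD'D ⟨Q, hQD'⟩
      obtain ⟨C, h1, h2, h3, h4⟩ := ih (D \ D') hss (fun Q hQ => hD Q (sdiff_subset hQ))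
        (fun Q hQ R hR => hc Q (sdiff_subset hQ) R (sdiff_subset hR))
      refine ⟨c :: C, ?_, ?_, ?_, ?_⟩
      · intro c' hc'
        rcases List.mem_cons.1 hc' with rfl | h
        · exact hval
        · exact h1 c' h
      · rw [List.pairwise_cons]
        refine ⟨fun c' hc' => ?_, h2⟩
        rw [disjoint_left]
        intro e he he'
        have := h3 c' hc' he'
        rw [mem_biUnion] at this
        obtain ⟨T, hT, heT⟩ := this
        rw [mem_sdiff] at hT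
        exact hdis T hT.1 hT.2 e heT he
      · intro c' hc'
        rcases List.mem_cons.1 hc' with rfl | h
        · exact hcov.trans (biUnion_subset_biUnion_of_subset_left _ hD'D)
        · exact (h3 c' h).trans (biUnion_subset_biUnion_of_subset_left _ sdiff_subset)
      · intro R hR
        by_cases hRD : R ∈ D'
        · exact ⟨c, List.mem_cons_self .., hin R hRD⟩
        · obtain ⟨c', hc', hs⟩ := h4 R (mem_sdiff.2 ⟨hR, hRD⟩)
          exact ⟨c', List.mem_cons_of_mem _ hc', hs⟩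

end Pool.Agent.TFC
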