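import Pool.Agent.TFC.JumpJS

/-!
Two facts on jump sets in dimension 4.
-/

set_option autoImplicit false
set_option linter.unusedSectionVars false

namespace Pool.Agent.TFC

open Finset
open scoped Pointwise

lemma Four_step {P : Set (Fin 4 → ℤ)} (hP : Jump P) {a b : Fin 4 → ℤ} (ha : a ∈ P) (hb : b ∈ P)
    (i : Fin 4) (ε : ℤ) (hε : ε = 1 ∨ ε = -1) (h : 0 < ε * (b i - a i)) (c : Fin 4 → ℤ)
    (hc : c = a + Pi.single i ε) :
    ∃ j : Fin 4, (c j < b j ∧ c + Pi.single j 1 ∈ P) ∨ (b j < c j ∧ c + Pi.single j (-1) ∈ P) := by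
  obtain ⟨j, δ, hδ, hj, hm⟩ := hP a ha b hb i ε hε h
  rw [← hc] at hj hm
  refine ⟨j, ?_⟩
  rcases hδ with rfl | rfl
  · exact Or.inl ⟨by linarith, hm⟩
  · exact Or.inr ⟨by linarith, hm⟩

theorem four_conflict {P : Set (Fin 4 → ℤ)} (hP : Jump P) (h1 : ![2, 2, 0, 0] ∈ P)
    (h2 : ![0, 0, 2, 2] ∈ P) :
    ![1, 1, 0, 0] ∈ P ∨ ![1, 2, 0, 1] ∈ P ∨ ![0, 0, 0, 0] ∈ P ∨ ![0, 1, 0, 1] ∈ P ∨
    ![2, 1, 1, 0] ∈ P ∨ ![1, 1, 2, 2] ∈ P ∨ ![1, 0, 2, 1] ∈ P ∨ ![1, 1, 1, 1] ∈ P ∨
    ![1, 0, 1, 0] ∈ P := by
  by_contra hno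
  simp only [not_or] at hno
  obtain ⟨g1, g2, g3, g4, g5, g6, g7, g8, g9⟩ := hno
  have s1 : ![0, 2, 0, 0] ∈ P ∨ ![1, 2, 1, 0] ∈ P := by
    obtain ⟨j, h⟩ := Four_step hP h1 h2 0 (-1) (Or.inr rfl) (by decide) ![1, 2, 0, 0] (by decide)
    fin_cases j
    · rcases h with ⟨h, -⟩ | ⟨-, h⟩
      · exact absurd h (by decide)
      · exact Or.inl (by convert h using 1; decide)
    · rcases h with ⟨h, -⟩ | ⟨-, h⟩
      · exact absurd h (by decide)
      · exact absurd (by convert h using 1; decide) g1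
    · rcases h with ⟨-, h⟩ | ⟨h, -⟩
      · exact Or.inr (by convert h using 1; decide)
      · exact absurd h (by decide)
    · rcases h with ⟨-, h⟩ | ⟨h, -⟩
      · exact absurd (by convert h using 1; decide) g2
      · exact absurd h (by decide)
  rcases s1 with k1 | k1
  · have s2 : ![0, 1, 1, 0] ∈ P := by
      obtain ⟨j, h⟩ := Four_step hP k1 h2 1 (-1) (Or.inr rfl) (by decide) ![0, 1, 0, 0] (by decide)
      fin_cases j
      · rcases h with ⟨h, -⟩ | ⟨h, -⟩
        · exact absurd h (by decide)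
        · exact absurd h (by decide)
      · rcases h with ⟨h, -⟩ | ⟨-, h⟩
        · exact absurd h (by decide)
        · exact absurd (by convert h using 1; decide) g3
      · rcases h with ⟨-, h⟩ | ⟨h, -⟩
        · convert h using 1; decide
        · exact absurd h (by decide)
      · rcases h with ⟨-, h⟩ | ⟨h, -⟩
        · exact absurd (by convert h using 1; decide) g4
        · exact absurd h (by decide)
    obtain ⟨j, h⟩ := Four_step hP h1 s2 1 (-1) (Or.inr rfl) (by decide) ![2, 1, 0, 0] (by decide)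
    fin_cases j
    · rcases h with ⟨h, -⟩ | ⟨-, h⟩
      · exact absurd h (by decide)
      · exact absurd (by convert h using 1; decide) g1
    · rcases h with ⟨h, -⟩ | ⟨h, -⟩
      · exact absurd h (by decide)
      · exact absurd h (by decide)
    · rcases h with ⟨-, h⟩ | ⟨h, -⟩
      · exact absurd (by convert h using 1; decide) g5
      · exact absurd h (by decide)
    · rcases h with ⟨h, -⟩ | ⟨h, -⟩
      · exact absurd h (by decide)
      · exact absurd h (by decide)
  · have s2 : ![1, 0, 1, 2] ∈ P := by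
      obtain ⟨j, h⟩ := Four_step hP h2 k1 0 1 (Or.inl rfl) (by decide) ![1, 0, 2, 2] (by decide)
      fin_cases j
      · rcases h with ⟨h, -⟩ | ⟨h, -⟩
        · exact absurd h (by decide)
        · exact absurd h (by decide)
      · rcases h with ⟨-, h⟩ | ⟨h, -⟩
        · exact absurd (by convert h using 1; decide) g6
        · exact absurd h (by decide)
      · rcases h with ⟨h, -⟩ | ⟨-, h⟩
        · exact absurd h (by decide)
        · convert h using 1; decide
      · rcases h with ⟨h, -⟩ | ⟨-, h⟩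
        · exact absurd h (by decide)
        · exact absurd (by convert h using 1; decide) g7
    obtain ⟨j, h⟩ := Four_step hP s2 k1 3 (-1) (Or.inr rfl) (by decide) ![1, 0, 1, 1] (by decide)
    fin_cases j
    · rcases h with ⟨h, -⟩ | ⟨h, -⟩
      · exact absurd h (by decide)
      · exact absurd h (by decide)
    · rcases h with ⟨-, h⟩ | ⟨h, -⟩
      · exact absurd (by convert h using 1; decide) g8
      · exact absurd h (by decide)
    · rcases h with ⟨h, -⟩ | ⟨h, -⟩
      · exact absurd h (by decide)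
      · exact absurd h (by decide)
    · rcases h with ⟨h, -⟩ | ⟨-, h⟩
      · exact absurd h (by decide)
      · exact absurd (by convert h using 1; decide) g9

theorem four_digon {P : Set (Fin 4 → ℤ)} (hP : Jump P) (h1 : ![2, 2, 0, 0] ∈ P)
    (h2 : ![0, 0, 2, 2] ∈ P) :
    ![1, 1, 0, 0] ∈ P ∨ ![1, 2, 1, 0] ∈ P ∨ ![0, 0, 0, 0] ∈ P ∨ ![0, 1, 1, 0] ∈ P ∨
    ![2, 1, 0, 1] ∈ P ∨ ![1, 1, 2, 2] ∈ P ∨ ![1, 0, 1, 2] ∈ P ∨ ![1, 2, 2, 1] ∈ P ∨
    ![1, 1, 1, 1] ∈ P := by
  by_contra hno
  simp only [not_or] at hno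
  obtain ⟨g1, g2, g3, g4, g5, g6, g7, g8, g9⟩ := hno
  have s1 : ![0, 2, 0, 0] ∈ P ∨ ![1, 2, 0, 1] ∈ P := by
    obtain ⟨j, h⟩ := Four_step hP h1 h2 0 (-1) (Or.inr rfl) (by decide) ![1, 2, 0, 0] (by decide)
    fin_cases j
    · rcases h with ⟨h, -⟩ | ⟨-, h⟩
      · exact absurd h (by decide)
      · exact Or.inl (by convert h using 1; decide)
    · rcases h with ⟨h, -⟩ | ⟨-, h⟩
      · exact absurd h (by decide)
      · exact absurd (by convert h using 1; decide) g1
    · rcases h with ⟨-, h⟩ | ⟨h, -⟩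
      · exact absurd (by convert h using 1; decide) g2
      · exact absurd h (by decide)
    · rcases h with ⟨-, h⟩ | ⟨h, -⟩
      · exact Or.inr (by convert h using 1; decide)
      · exact absurd h (by decide)
  rcases s1 with k1 | k1
  · have s2 : ![0, 1, 0, 1] ∈ P := by
      obtain ⟨j, h⟩ := Four_step hP k1 h2 1 (-1) (Or.inr rfl) (by decide) ![0, 1, 0, 0] (by decide)
      fin_cases j
      · rcases h with ⟨h, -⟩ | ⟨h, -⟩
        · exact absurd h (by decide)
        · exact absurd h (by decide)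
      · rcases h with ⟨h, -⟩ | ⟨-, h⟩
        · exact absurd h (by decide)
        · exact absurd (by convert h using 1; decide) g3
      · rcases h with ⟨-, h⟩ | ⟨h, -⟩
        · exact absurd (by convert h using 1; decide) g4
        · exact absurd h (by decide)
      · rcases h with ⟨-, h⟩ | ⟨h, -⟩
        · convert h using 1; decide
        · exact absurd h (by decide)
    obtain ⟨j, h⟩ := Four_step hP h1 s2 1 (-1) (Or.inr rfl) (by decide) ![2, 1, 0, 0] (by decide)
    fin_cases j
    · rcases h with ⟨h, -⟩ | ⟨-, h⟩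
      · exact absurd h (by decide)
      · exact absurd (by convert h using 1; decide) g1
    · rcases h with ⟨h, -⟩ | ⟨h, -⟩
      · exact absurd h (by decide)
      · exact absurd h (by decide)
    · rcases h with ⟨h, -⟩ | ⟨h, -⟩
      · exact absurd h (by decide)
      · exact absurd h (by decide)
    · rcases h with ⟨-, h⟩ | ⟨h, -⟩
      · exact absurd (by convert h using 1; decide) g5
      · exact absurd h (by decide)
  · have s2 : ![1, 0, 2, 1] ∈ P := by
      obtain ⟨j, h⟩ := Four_step hP h2 k1 0 1 (Or.inl rfl) (by decide) ![1, 0, 2, 2] (by decide)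
      fin_cases j
      · rcases h with ⟨h, -⟩ | ⟨h, -⟩
        · exact absurd h (by decide)
        · exact absurd h (by decide)
      · rcases h with ⟨-, h⟩ | ⟨h, -⟩
        · exact absurd (by convert h using 1; decide) g6
        · exact absurd h (by decide)
      · rcases h with ⟨h, -⟩ | ⟨-, h⟩
        · exact absurd h (by decide)
        · exact absurd (by convert h using 1; decide) g7
      · rcases h with ⟨h, -⟩ | ⟨-, h⟩
        · exact absurd h (by decide)
        · convert h using 1; decide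
    obtain ⟨j, h⟩ := Four_step hP s2 k1 1 1 (Or.inl rfl) (by decide) ![1, 1, 2, 1] (by decide)
    fin_cases j
    · rcases h with ⟨h, -⟩ | ⟨h, -⟩
      · exact absurd h (by decide)
      · exact absurd h (by decide)
    · rcases h with ⟨-, h⟩ | ⟨h, -⟩
      · exact absurd (by convert h using 1; decide) g8
      · exact absurd h (by decide)
    · rcases h with ⟨h, -⟩ | ⟨-, h⟩
      · exact absurd h (by decide)
      · exact absurd (by convert h using 1; decide) g9
    · rcases h with ⟨h, -⟩ | ⟨h, -⟩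
      · exact absurd h (by decide)
      · exact absurd h (by decide)

end Pool.Agent.TFC
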