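import Pool.Agent.TFC.Mink
import Pool.Agent.TFC.Four

/-!
Lemma 6.1 (two opposite digons) and Lemma 6.2 (relaxation of a cluster `K2(x, y; L)`).
-/

set_option autoImplicit false
set_option linter.unusedSectionVars false

namespace Pool.Agent.TFC

open Finset
open scoped Pointwise

variable {V : Type*} [DecidableEq V]

lemma Unit_dv0 : dv (∅ : Finset (Sym2 V)) = 0 := by
  funext v
  simp [dv, dg]

lemma Unit_dv1 {a b : V} (hab : a ≠ b) : dv ({s(a, b)} : Finset (Sym2 V)) = ev a + ev b := by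
  have h := dv_insert (z := ∅) hab (notMem_empty _)
  rw [Unit_dv0, zero_add] at h
  exact h

lemma Unit_dv2 {a b c d : V} (hab : a ≠ b) (hcd : c ≠ d) (h : s(a, b) ≠ s(c, d)) :
    dv ({s(a, b), s(c, d)} : Finset (Sym2 V)) = ev a + ev b + (ev c + ev d) := by
  have h1 := dv_insert (z := {s(c, d)}) hab (by simpa using h)
  rw [Unit_dv1 hcd] at h1
  rw [h1]; abel

lemma Unit_dv3 {a b c d p q : V} (hab : a ≠ b) (hcd : c ≠ d) (hpq : p ≠ q)
    (h : s(a, b) ≠ s(c, d)) (h' : s(a, b) ≠ s(p, q)) (h'' : s(c, d) ≠ s(p, q)) :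
    dv ({s(a, b), s(c, d), s(p, q)} : Finset (Sym2 V)) =
      ev a + ev b + (ev c + ev d) + (ev p + ev q) := by
  have h1 := dv_insert (z := {s(c, d), s(p, q)}) hab (by simp [h, h'])
  rw [Unit_dv2 hcd hpq h''] at h1
  rw [h1]; abel

lemma Unit_put (x a y d : V) (p q r s : ℤ) :
    put ![x, a, y, d] ![p, q, r, s] = p • ev x + q • ev a + r • ev y + s • ev d := by
  funext v
  simp only [put, Fin.sum_univ_four, Pi.add_apply, Pi.smul_apply, ev_apply, smul_eq_mul]
  change (if x = v then p else 0) + (if a = v then q else 0) + (if y = v then r else 0) +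
    (if d = v then s else 0) = _
  simp only [mul_ite, mul_one, mul_zero, eq_comm (b := v)]

lemma Unit_ssub {Q z : Finset (Sym2 V)} {e : Sym2 V} (h : z ⊆ Q) (he : e ∈ Q) (he' : e ∉ z) :
    z ⊂ Q := (Finset.ssubset_iff_of_subset h).mpr ⟨e, he, he'⟩

/-- Lemma 6.1 -/
theorem opp_digon {A : Set (V → ℤ)} (hA : Jump A) {x a y d : V} (h4 : Dist4 x a y d)
    (h1 : two - 2 • ev x - 2 • ev a ∈ A) (h2 : two - 2 • ev y - 2 • ev d ∈ A) :
    ∃ z, z ⊂ sq x a y d ∧ two - dv z ∈ A := by
  obtain ⟨hxa, hxy, hxd, hay, had, hyd⟩ := h4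
  have hf : Function.Injective (![x, a, y, d] : Fin 4 → V) := by
    intro i j hij
    fin_cases i <;> fin_cases j <;> first | rfl | (exfalso; simp at hij; first
      | exact hxa hij | exact hxy hij | exact hxd hij | exact hay hij | exact had hij
      | exact hyd hij | exact hxa hij.symm | exact hxy hij.symm | exact hxd hij.symm
      | exact hay hij.symm | exact had hij.symm | exact hyd hij.symm)
  have hP := Jump.pull_neg hf two hA
  have key : ∀ p q r s : ℤ, ![p, q, r, s] ∈ {k : Fin 4 → ℤ | two - put ![x, a, y, d] k ∈ A} ↔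
      two - (p • ev x + q • ev a + r • ev y + s • ev d) ∈ A := by
    intro p q r s
    rw [← Unit_put]
    exact Iff.rfl
  have m1 : ![2, 2, 0, 0] ∈ {k : Fin 4 → ℤ | two - put ![x, a, y, d] k ∈ A} := by
    rw [key]
    have e : two - ((2 : ℤ) • ev x + (2 : ℤ) • ev a + (0 : ℤ) • ev y + (0 : ℤ) • ev d) =
        two - 2 • ev x - 2 • ev a := by module
    rw [e]; exact h1
  have m2 : ![0, 0, 2, 2] ∈ {k : Fin 4 → ℤ | two - put ![x, a, y, d] k ∈ A} := by
    rw [key]
    have e : two - ((0 : ℤ) • ev x + (0 : ℤ) • ev a + (2 : ℤ) • ev y + (2 : ℤ) • ev d) =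
        two - 2 • ev y - 2 • ev d := by module
    rw [e]; exact h2
  have q1 : s(x, a) ∈ sq x a y d := by simp [sq]
  have q2 : s(a, y) ∈ sq x a y d := by simp [sq]
  have q3 : s(y, d) ∈ sq x a y d := by simp [sq]
  have q4 : s(d, x) ∈ sq x a y d := by simp [sq]
  have n12 : s(x, a) ≠ s(a, y) := by simp [hxa, hxy]
  have n13 : s(x, a) ≠ s(y, d) := by simp [hxy, hxd]
  have n14 : s(x, a) ≠ s(d, x) := by simp [hxd, had]
  have n23 : s(a, y) ≠ s(y, d) := by simp [hay, had]
  have n24 : s(a, y) ≠ s(d, x) := by simp [had, hxa.symm]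
  have n34 : s(y, d) ≠ s(d, x) := by simp [hyd, hxy.symm]
  rcases four_digon hP m1 m2 with h | h | h | h | h | h | h | h | h
  · refine ⟨{s(x, a)}, Unit_ssub (by simpa using q1) q2 (by simpa using n12.symm), ?_⟩
    rw [key] at h
    rw [Unit_dv1 hxa]
    refine (congrArg (fun u => two - u ∈ A) ?_).mpr h
    module
  · refine ⟨{s(x, a), s(a, y)}, Unit_ssub (by simp [insert_subset_iff, q1, q2]) q3
      (by simp [n13.symm, n23.symm]), ?_⟩
    rw [key] at h
    rw [Unit_dv2 hxa hay n12]
    refine (congrArg (fun u => two - u ∈ A) ?_).mpr h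
    module
  · refine ⟨∅, Unit_ssub (by simp) q1 (by simp), ?_⟩
    rw [key] at h
    rw [Unit_dv0]
    refine (congrArg (fun u => two - u ∈ A) ?_).mpr h
    module
  · refine ⟨{s(a, y)}, Unit_ssub (by simpa using q2) q1 (by simpa using n12), ?_⟩
    rw [key] at h
    rw [Unit_dv1 hay]
    refine (congrArg (fun u => two - u ∈ A) ?_).mpr h
    module
  · refine ⟨{s(x, a), s(d, x)}, Unit_ssub (by simp [insert_subset_iff, q1, q4]) q2
      (by simp [n12.symm, n24]), ?_⟩
    rw [key] at h
    rw [Unit_dv2 hxa hxd.symm n14]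
    refine (congrArg (fun u => two - u ∈ A) ?_).mpr h
    module
  · refine ⟨{s(d, x), s(y, d), s(a, y)}, Unit_ssub (by simp [insert_subset_iff, q2, q3, q4]) q1
      (by simp [n12, n13, n14]), ?_⟩
    rw [key] at h
    rw [Unit_dv3 hxd.symm hyd hay n34.symm n24.symm n23.symm]
    refine (congrArg (fun u => two - u ∈ A) ?_).mpr h
    module
  · refine ⟨{s(y, d), s(d, x)}, Unit_ssub (by simp [insert_subset_iff, q3, q4]) q1
      (by simp [n13, n14]), ?_⟩
    rw [key] at h
    rw [Unit_dv2 hyd hxd.symm n34]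
    refine (congrArg (fun u => two - u ∈ A) ?_).mpr h
    module
  · refine ⟨{s(x, a), s(a, y), s(y, d)}, Unit_ssub (by simp [insert_subset_iff, q1, q2, q3]) q4
      (by simp [n14.symm, n24.symm, n34.symm]), ?_⟩
    rw [key] at h
    rw [Unit_dv3 hxa hay hyd n12 n13 n23]
    refine (congrArg (fun u => two - u ∈ A) ?_).mpr h
    module
  · refine ⟨{s(x, a), s(y, d)}, Unit_ssub (by simp [insert_subset_iff, q1, q3]) q2
      (by simp [n12.symm, n23]), ?_⟩
    rw [key] at h
    rw [Unit_dv2 hxa hyd n13]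
    refine (congrArg (fun u => two - u ∈ A) ?_).mpr h
    module

lemma Unit_card_sq {a b c d : V} (h : Dist4 a b c d) : #(sq a b c d) = 4 := by
  obtain ⟨hab, hac, had, hbc, hbd, hcd⟩ := h
  have n12 : s(a, b) ≠ s(b, c) := by simp [hab, hac]
  have n13 : s(a, b) ≠ s(c, d) := by simp [hac, had]
  have n14 : s(a, b) ≠ s(d, a) := by simp [had, hbd]
  have n23 : s(b, c) ≠ s(c, d) := by simp [hbc, hbd]
  have n24 : s(b, c) ≠ s(d, a) := by simp [hbd, hab.symm]
  have n34 : s(c, d) ≠ s(d, a) := by simp [hcd, hac.symm]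
  unfold sq
  rw [card_insert_of_notMem (by simp [n12, n13, n14]),
    card_insert_of_notMem (by simp [n23, n24]), card_insert_of_notMem (by simp [n34]),
    card_singleton]

lemma Unit_sq_sub {z : Finset (Sym2 V)} {a b c d : V} (h : Sq z a b c d) : sq a b c d ⊆ z := by
  simp [sq, insert_subset_iff, h.ab, h.bc, h.cd, h.da]

/-- fewer than four edges: no square -/
lemma Unit_good {z : Finset (Sym2 V)} (hz : NoLoop z) (h : #z < 4) : Good none4 z := by
  intro a b c d hs
  have h1 := Unit_card_sq (hs.dist4 hz)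
  have h2 := card_le_card (Unit_sq_sub hs)
  omega

lemma Unit_sq_M2 {a b c d : V} (h : Dist4 a b c d) : M2 (sq a b c d) := by
  obtain ⟨hab, hac, had, hbc, hbd, hcd⟩ := h
  constructor
  · intro e he
    simp only [sq, mem_insert, mem_singleton] at he
    rcases he with rfl | rfl | rfl | rfl
    · simpa using hab
    · simpa using hbc
    · simpa using hcd
    · simpa using had.symm
  · intro v
    unfold dg sq
    by_cases ha : v = a
    · subst ha
      have : ({e ∈ ({s(v, b), s(b, c), s(c, d), s(d, v)} : Finset (Sym2 V)) | v ∈ e}) ⊆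
          {s(v, b), s(d, v)} := by
        intro e he
        simp only [mem_filter, mem_insert, mem_singleton] at he ⊢
        obtain ⟨rfl | rfl | rfl | rfl, he⟩ := he
        · exact Or.inl rfl
        · simp [hab, hac] at he
        · simp [hac, had] at he
        · exact Or.inr rfl
      exact (card_le_card this).trans card_le_two
    by_cases hb : v = b
    · subst hb
      have : ({e ∈ ({s(a, v), s(v, c), s(c, d), s(d, a)} : Finset (Sym2 V)) | v ∈ e}) ⊆
          {s(a, v), s(v, c)} := by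
        intro e he
        simp only [mem_filter, mem_insert, mem_singleton] at he ⊢
        obtain ⟨rfl | rfl | rfl | rfl, he⟩ := he
        · exact Or.inl rfl
        · exact Or.inr rfl
        · simp [hbc, hbd] at he
        · simp [ha, hbd] at he
      exact (card_le_card this).trans card_le_two
    have : ({e ∈ ({s(a, b), s(b, c), s(c, d), s(d, a)} : Finset (Sym2 V)) | v ∈ e}) ⊆
        {s(c, d), if v = c then s(b, c) else s(d, a)} := by
      intro e he
      simp only [mem_filter, mem_insert, mem_singleton] at he ⊢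
      obtain ⟨rfl | rfl | rfl | rfl, he⟩ := he
      · simp [ha, hb] at he
      · right
        have : v = c := by simpa [hb] using he
        rw [if_pos this]
      · exact Or.inl rfl
      · right
        have : v = d := by simpa [ha] using he
        rw [if_neg (by rw [this]; exact hcd.symm)]
    exact (card_le_card this).trans card_le_two

/-- Lemma 6.2 -/
theorem relax_k2 {x y : V} {L : Finset V} (hv : (Clu.k2 x y L).Valid) {A : Set (V → ℤ)}
    (hA : Jump A) (h : ∀ k ∈ JS (Clu.k2 x y L).edges none4, two - k ∉ A) :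
    ∃ w w' c, ((w = x ∧ w' = y) ∨ (w = y ∧ w' = x)) ∧ c ∈ L ∧
      ∀ l ∈ L, l ≠ c → two - 2 • ev w - 2 • ev l ∉ A := by
  obtain ⟨hxy, hxL, hyL, hL⟩ := hv
  have key : ∀ l ∈ L, ∀ m ∈ L, l ≠ m → two - 2 • ev x - 2 • ev l ∈ A →
      two - 2 • ev y - 2 • ev m ∈ A → False := by
    intro l hl m hm hlm h1 h2
    have hxl : x ≠ l := fun e => hxL (e ▸ hl)
    have hxm : x ≠ m := fun e => hxL (e ▸ hm)
    have hyl : y ≠ l := fun e => hyL (e ▸ hl)
    have hym : y ≠ m := fun e => hyL (e ▸ hm)
    have h4 : Dist4 x l y m := ⟨hxl, hxy, hxm, hyl.symm, hlm, hym⟩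
    obtain ⟨z, hz, hzA⟩ := opp_digon hA h4 h1 h2
    have hM := Unit_sq_M2 h4
    refine h (dv z) ⟨z, ?_, hM.mono hz.1, Unit_good (hM.nl.mono hz.1) ?_, rfl⟩ hzA
    · refine hz.1.trans ?_
      intro e he
      simp only [sq, mem_insert, mem_singleton] at he
      simp only [Clu.edges, mem_union, mem_image]
      rcases he with rfl | rfl | rfl | rfl
      · exact Or.inl ⟨l, hl, rfl⟩
      · exact Or.inr ⟨l, hl, Sym2.eq_swap⟩
      · exact Or.inr ⟨m, hm, rfl⟩
      · exact Or.inl ⟨m, hm, Sym2.eq_swap⟩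
    · have := card_lt_card hz
      rw [Unit_card_sq h4] at this
      exact this
  by_cases hY : ∃ m ∈ L, two - 2 • ev y - 2 • ev m ∈ A
  · obtain ⟨m, hm, hmA⟩ := hY
    refine ⟨x, y, m, Or.inl ⟨rfl, rfl⟩, hm, ?_⟩
    intro l hl hlm hlA
    exact key l hl m hm hlm hlA hmA
  · push Not at hY
    obtain ⟨c, hc⟩ : L.Nonempty := by
      rw [← card_pos]; omega
    exact ⟨y, x, c, Or.inr ⟨rfl, rfl⟩, hc, fun l hl _ => hY l hl⟩

end Pool.Agent.TFC
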