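import Pool.Agent.TFC.CE2

/-!
Conflict elimination: five vertices, and the theorem.
-/

set_option autoImplicit false
set_option linter.unusedSectionVars false
set_option linter.unusedSimpArgs false
set_option linter.unusedTactic false
set_option linter.unreachableTactic false

namespace Pool.Agent.TFC

open Finset

variable {V : Type*} [DecidableEq V]

namespace CE

/-- five different vertices -/
structure Five (x y p q r : V) : Prop where
  xy : x ≠ y
  xp : x ≠ p
  xq : x ≠ q
  xr : x ≠ r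
  yp : y ≠ p
  yq : y ≠ q
  yr : y ≠ r
  pq : p ≠ q
  pr : p ≠ r
  qr : q ≠ r

section five

variable {F N : Finset (Sym2 V)} {x y p q r : V}

lemma Five.all (h : Five x y p q r) :
    (x ≠ y ∧ x ≠ p ∧ x ≠ q ∧ x ≠ r ∧ y ≠ p ∧ y ≠ q ∧ y ≠ r ∧ p ≠ q ∧ p ≠ r ∧ q ≠ r) ∧
    (y ≠ x ∧ p ≠ x ∧ q ≠ x ∧ r ≠ x ∧ p ≠ y ∧ q ≠ y ∧ r ≠ y ∧ q ≠ p ∧ r ≠ p ∧ r ≠ q) :=
  ⟨⟨h.xy, h.xp, h.xq, h.xr, h.yp, h.yq, h.yr, h.pq, h.pr, h.qr⟩,
    ⟨h.xy.symm, h.xp.symm, h.xq.symm, h.xr.symm, h.yp.symm, h.yq.symm, h.yr.symm, h.pq.symm,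
      h.pr.symm, h.qr.symm⟩⟩

lemma put2 (f : Fin 2 → V) (k : Fin 2 → ℤ) (v : V) :
    put f k v = k 0 * ev (f 0) v + k 1 * ev (f 1) v := by
  have h : ∀ i, (if f i = v then k i else 0) = k i * ev (f i) v := by
    intro i
    rw [ev_apply]
    by_cases hv : f i = v
    · simp [hv]
    · rw [if_neg hv, if_neg (fun h => hv h.symm)]; simp
  simp only [put, h, Fin.sum_univ_two]

/-- **conflict elimination, five vertices** -/
theorem ce5 (hF : TF F) (hN : TF N) (s5 : Five x y p q r) (hQF : sq x y q p ⊆ F)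
    (hRN : sq x y r q ⊆ N) : CEConc F N (sq x y q p) (sq x y r q) := by
  have hdQ : Dist4 x y q p := ⟨s5.xy, s5.xq, s5.xp, s5.yq, s5.yp, s5.pq.symm⟩
  have hdR : Dist4 x y r q := ⟨s5.xy, s5.xr, s5.xq, s5.yr, s5.yq, s5.qr.symm⟩
  have f1 : s(x, y) ∈ F := hQF (by simp [sq])
  have f2 : s(y, q) ∈ F := hQF (by simp [sq])
  have f3 : s(q, p) ∈ F := hQF (by simp [sq])
  have f4 : s(p, x) ∈ F := hQF (by simp [sq])
  have n1 : s(x, y) ∈ N := hRN (by simp [sq])
  have n2 : s(y, r) ∈ N := hRN (by simp [sq])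
  have n3 : s(r, q) ∈ N := hRN (by simp [sq])
  have n4 : s(q, x) ∈ N := hRN (by simp [sq])
  have hnl : NoLoop (F ∪ N) := by
    intro e he
    rcases mem_union.mp he with h | h
    · exact hF.nl e h
    · exact hN.nl e h
  set H := sq x y q p ∪ sq x y r q with hH
  have hHFN : H ⊆ F ∪ N := union_subset (hQF.trans subset_union_left) (hRN.trans subset_union_right)
  have eF : F \ H = F \ sq x y q p := by
    ext e
    simp only [mem_sdiff]
    constructor
    · rintro ⟨h1, h2⟩
      exact ⟨h1, fun h3 => h2 (mem_union_left _ h3)⟩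
    · rintro ⟨h1, h2⟩
      refine ⟨h1, fun h3 => ?_⟩
      rcases mem_union.mp h3 with h3 | h3
      · exact h2 h3
      · simp only [sq, mem_insert, mem_singleton] at h3
        rcases h3 with rfl | rfl | rfl | rfl
        · exact h2 (by simp [sq])
        · rcases nbr_two (hF.m2.le y) (msw f1) f2 s5.xq h1 with h | h
          · exact s5.xr h.symm
          · exact s5.qr h.symm
        · rcases nbr_two (hF.m2.le q) (msw f2) f3 s5.yp (msw h1) with h | h
          · exact s5.yr h.symm
          · exact s5.pr h.symm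
        · rcases nbr_two (hF.m2.le x) f1 (msw f4) s5.yp (msw h1) with h | h
          · exact s5.yq h.symm
          · exact s5.pq h.symm
  have eN : N \ H = N \ sq x y r q := by
    ext e
    simp only [mem_sdiff]
    constructor
    · rintro ⟨h1, h2⟩
      exact ⟨h1, fun h3 => h2 (mem_union_right _ h3)⟩
    · rintro ⟨h1, h2⟩
      refine ⟨h1, fun h3 => ?_⟩
      rcases mem_union.mp h3 with h3 | h3
      · simp only [sq, mem_insert, mem_singleton] at h3
        rcases h3 with rfl | rfl | rfl | rfl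
        · exact h2 (by simp [sq])
        · rcases nbr_two (hN.m2.le y) (msw n1) n2 s5.xr h1 with h | h
          · exact s5.xq h.symm
          · exact s5.qr h
        · rcases nbr_two (hN.m2.le q) (msw n3) n4 s5.xr.symm h1 with h | h
          · exact s5.pr h
          · exact s5.xp h.symm
        · rcases nbr_two (hN.m2.le x) n1 (msw n4) s5.yq (msw h1) with h | h
          · exact s5.yp h.symm
          · exact s5.pq h
      · exact h2 h3
  let base : V → ℤ := fun v => 2 - 2 * ev x v - 2 * ev y v - 2 * ev q v - 2 * ev p v - 2 * ev r v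
  have hf : Function.Injective ![p, r] := by
    intro i j hij
    fin_cases i <;> fin_cases j <;> first | rfl | (exfalso; revert hij; simp [Sym2.eq_iff, s5.all])
  have hJ := Jump.pull hf base (jump_JS (alFN_sym F N) ((F ∪ N) \ H))
  have m1 : (![0, 2] : Fin 2 → ℤ) ∈ {k : Fin 2 → ℤ | base + put ![p, r] k ∈ JS ((F ∪ N) \ H) (alFN F N)} := by
    refine ⟨F \ H, sdiff_subset_sdiff subset_union_left le_rfl, hF.m2.mono sdiff_subset,
      good_of_subset (Or.inl sdiff_subset), ?_⟩
    funext v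
    rw [eF, dv_sdiff hF.nl hQF, Pi.sub_apply, dv_sq hdQ, Pi.add_apply, put2]
    simp only [dv_apply, hF.eq, base]
    simp
    ring
  have m2 : (![2, 0] : Fin 2 → ℤ) ∈ {k : Fin 2 → ℤ | base + put ![p, r] k ∈ JS ((F ∪ N) \ H) (alFN F N)} := by
    refine ⟨N \ H, sdiff_subset_sdiff subset_union_right le_rfl, hN.m2.mono sdiff_subset,
      good_of_subset (Or.inr sdiff_subset), ?_⟩
    funext v
    rw [eN, dv_sdiff hN.nl hRN, Pi.sub_apply, dv_sq hdR, Pi.add_apply, put2]
    simp only [dv_apply, hN.eq, base]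
    simp
    ring
  obtain ⟨j, δ, hδ, hpos, hmem⟩ := hJ _ m1 _ m2 0 1 (Or.inl rfl) (by simp)
  have hQs : IsSq (sq x y q p) := ⟨x, y, q, p, hdQ, rfl⟩
  have hRs : IsSq (sq x y r q) := ⟨x, y, r, q, hdR, rfl⟩
  fin_cases j
  · -- (2,2): a triangle
    have hδ1 : δ = 1 := by
      rcases hδ with h | h
      · exact h
      · subst h
        simp at hpos
    subst hδ1
    have e22 : (![0, 2] + Pi.single 0 1 + Pi.single (0 : Fin 2) (1 : ℤ) : Fin 2 → ℤ) = ![2, 2] := by
      funext i
      fin_cases i <;> simp [Matrix.vecHead, Matrix.vecTail]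
    have hmem' : base + put ![p, r] ![2, 2] ∈ JS ((F ∪ N) \ H) (alFN F N) := by
      rw [← e22]; exact hmem
    obtain ⟨O, hO, -, hOg, hdv⟩ := hmem'
    refine finish (O := O) (P := [s(x, y), s(y, q), s(q, x)].toFinset) (H := H) hO ?_ hHFN hnl hOg ?_
      subset_union_left subset_union_right hQs hRs ?_
    · intro e he
      rw [List.mem_toFinset] at he
      simp only [List.mem_cons, List.not_mem_nil, or_false] at he
      rcases he with he | he | he <;> subst he <;> simp [hH, sq]
    · funext v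
      have h1 := congrFun hdv v
      rw [Pi.add_apply, put2] at h1
      rw [Pi.add_apply, ← h1, dv_list]
      · simp [base, two]
        ring
      · simp [Sym2.eq_iff, s5.all]
      · simp [Sym2.eq_iff, s5.all]
    · intro hTF a b c d hs hab
      have hM := hTF.m2
      have e1 : s(x, y) ∈ O ∪ [s(x, y), s(y, q), s(q, x)].toFinset := by simp
      have e2 : s(y, q) ∈ O ∪ [s(x, y), s(y, q), s(q, x)].toFinset := by simp
      have e3 : s(q, x) ∈ O ∪ [s(x, y), s(y, q), s(q, x)].toFinset := by simp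
      let I : V → Prop := fun u => u = a ∨ u = b ∨ u = c ∨ u = d
      have hcl : ∀ u w, I u → s(u, w) ∈ O ∪ [s(x, y), s(y, q), s(q, x)].toFinset → I w :=
        fun u w hu huw => hs.closed hM hu huw
      have hx : I x := by
        rw [List.mem_toFinset] at hab
        simp only [List.mem_cons, List.not_mem_nil, or_false, Sym2.eq_iff] at hab
        rcases hab with (⟨h1, h2⟩ | ⟨h1, h2⟩) | (⟨h1, h2⟩ | ⟨h1, h2⟩) | (⟨h1, h2⟩ | ⟨h1, h2⟩)
        · exact Or.inl h1.symm
        · exact Or.inr (Or.inl h2.symm)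
        · exact hcl y x (Or.inl h1.symm) (msw e1)
        · exact hcl y x (Or.inr (Or.inl h2.symm)) (msw e1)
        · exact Or.inr (Or.inl h2.symm)
        · exact Or.inl h1.symm
      obtain ⟨m, hmx, h1, h2⟩ := hs.opp hM (u := x) (v := y) (w := q) hx e1 (msw e3) s5.yq
      rcases nbr_two (hM.le y) (msw e1) e2 s5.xq h1 with h | h
      · exact hmx h
      · subst h
        exact hM.nl.ne h2 rfl
  · -- (1,1): a path
    have hδ1 : δ = -1 := by
      rcases hδ with h | h
      · subst h
        simp at hpos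
      · exact h
    subst hδ1
    have e11 : (![0, 2] + Pi.single 0 1 + Pi.single (1 : Fin 2) (-1 : ℤ) : Fin 2 → ℤ) = ![1, 1] := by
      funext i
      fin_cases i <;> simp [Matrix.vecHead, Matrix.vecTail]
    have hmem' : base + put ![p, r] ![1, 1] ∈ JS ((F ∪ N) \ H) (alFN F N) := by
      rw [← e11]; exact hmem
    obtain ⟨O, hO, -, hOg, hdv⟩ := hmem'
    refine finish (O := O) (P := [s(p, x), s(x, y), s(y, q), s(q, r)].toFinset) (H := H) hO ?_ hHFN hnl hOg ?_
      subset_union_left subset_union_right hQs hRs ?_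
    · intro e he
      rw [List.mem_toFinset] at he
      simp only [List.mem_cons, List.not_mem_nil, or_false] at he
      rcases he with he | he | he | he <;> subst he <;> simp [hH, sq]
    · funext v
      have h1 := congrFun hdv v
      rw [Pi.add_apply, put2] at h1
      rw [Pi.add_apply, ← h1, dv_list]
      · simp [base, two]
        ring
      · simp [Sym2.eq_iff, s5.all]
      · simp [Sym2.eq_iff, s5.all]
    · intro hTF
      have hM := hTF.m2
      refine fin5 hM (v := ![p, x, y, q, r]) ?_ ?_ ?_ ?_ ?_ ?_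
      · intro i j hij
        fin_cases i <;> fin_cases j <;> first | rfl | (exfalso; revert hij; simp [Sym2.eq_iff, s5.all])
      · simp
      · simp
      · simp
      · simp
      · intro e he
        rw [List.mem_toFinset] at he
        simp only [List.mem_cons, List.not_mem_nil, or_false] at he
        rcases he with he | he | he | he <;> subst he <;>
          first | (refine ⟨0, ?_⟩; simp; done) | (refine ⟨1, ?_⟩; simp; done) | (refine ⟨2, ?_⟩; simp; done) |
            (refine ⟨3, ?_⟩; simp; done) | (refine ⟨4, ?_⟩; simp; done)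

end five

end CE

/-- **Theorem 2** (conflict elimination) -/
theorem conflict_elim {F N : Finset (Sym2 V)} (hF : TF F) (hN : TF N) {Q R : Finset (Sym2 V)}
    (hQ : IsSq Q) (hR : IsSq R) (hQF : Q ⊆ F) (hRN : R ⊆ N) (h1 : #(Q ∩ R) = 1) :
    ∃ M ⊆ F ∪ N, TF M ∧ ¬ Q ⊆ M ∧ ¬ R ⊆ M ∧ ∀ Z, IsSq Z → Z ⊆ M → Z ⊆ F ∨ Z ⊆ N := by
  obtain ⟨e, he⟩ := card_eq_one.mp h1
  induction e using Sym2.ind with
  | _ x y =>
  have hmem : ∀ e', e' ∈ Q → e' ∈ R → e' = s(x, y) := by
    intro e' h h'
    have : e' ∈ Q ∩ R := mem_inter.mpr ⟨h, h'⟩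
    rw [he, mem_singleton] at this
    exact this
  have hxy : s(x, y) ∈ Q ∩ R := by rw [he]; exact mem_singleton_self _
  obtain ⟨q, p, ⟨xy, xq, xp, yq, yp, qp⟩, rfl⟩ := isSq_first hQ (mem_inter.mp hxy).1
  obtain ⟨r, t, ⟨-, xr, xt, yr, yt, rt⟩, rfl⟩ := isSq_first hR (mem_inter.mp hxy).2
  have hqr : q ≠ r := by
    rintro rfl
    have := hmem s(y, q) (by simp [sq]) (by simp [sq])
    rw [Sym2.eq_iff] at this
    rcases this with ⟨h1, -⟩ | ⟨-, h2⟩
    · exact xy h1.symm
    · exact xq h2.symm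
  have hpt : p ≠ t := by
    rintro rfl
    have := hmem s(p, x) (by simp [sq]) (by simp [sq])
    rw [Sym2.eq_iff] at this
    rcases this with ⟨h1, -⟩ | ⟨h2, -⟩
    · exact xp h1.symm
    · exact yp h2.symm
  by_cases hqt : q = t
  · subst hqt
    have hpr : p ≠ r := by
      rintro rfl
      have := hmem s(q, p) (by simp [sq]) (by simp [sq])
      rw [Sym2.eq_iff] at this
      rcases this with ⟨h1, -⟩ | ⟨h2, -⟩
      · exact xq h1.symm
      · exact yq h2.symm
    exact CE.ce5 hF hN ⟨xy, xp, xq, xr, yp, yq, yr, qp.symm, hpr, hqr⟩ hQF hRN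
  by_cases hpr : p = r
  · subst hpr
    have e1 : sq x y q p = sq y x p q := by
      ext e
      simp only [sq, mem_insert, mem_singleton]
      rw [Sym2.eq_swap (a := y) (b := x), Sym2.eq_swap (a := x) (b := p), Sym2.eq_swap (a := p) (b := q),
        Sym2.eq_swap (a := q) (b := y)]
      tauto
    have e2 : sq x y p t = sq y x t p := by
      ext e
      simp only [sq, mem_insert, mem_singleton]
      rw [Sym2.eq_swap (a := y) (b := x), Sym2.eq_swap (a := x) (b := t), Sym2.eq_swap (a := t) (b := p),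
        Sym2.eq_swap (a := p) (b := y)]
      tauto
    rw [e1] at hQF ⊢
    rw [e2] at hRN ⊢
    exact CE.ce5 hF hN ⟨xy.symm, yq, yp, yt, xq, xp, xt, qp, hqt, hpt⟩ hQF hRN
  · exact CE.ce6 ⟨hF, hN, ⟨xy, xp, xq, xr, xt, yp, yq, yr, yt, qp.symm, hpr, hpt, hqr, hqt, rt⟩, hQF, hRN⟩

end Pool.Agent.TFC
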