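import Pool.Agent.TFC.JumpJS

/-!
Calculus of jump sets: sums, units, restriction to coordinates.
-/

set_option autoImplicit false
set_option linter.unusedSectionVars false

namespace Pool.Agent.TFC

open Finset
open scoped Pointwise

variable {V : Type*} [DecidableEq V]

lemma jump_zero : Jump ({0} : Set (V → ℤ)) := by
  intro x hx y hy i ε _ h
  rw [Set.mem_singleton_iff] at hx hy
  subst hx; subst hy
  simp at h

/-- distance between two vectors -/
def Mink_N [Fintype V] (y a : V → ℤ) : ℕ := ∑ v, (y v - a v).natAbs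

lemma Mink_N_step [Fintype V] (y a : V → ℤ) (k : V) (δ : ℤ) (hδ : δ = 1 ∨ δ = -1)
    (h : 0 < δ * (y k - a k)) : Mink_N y (a + Pi.single k δ) + 1 = Mink_N y a := by
  unfold Mink_N
  have e : ∀ v, (y v - a v).natAbs =
      (y v - (a + Pi.single k δ : V → ℤ) v).natAbs + if v = k then 1 else 0 := by
    intro v
    by_cases hv : v = k
    · subst hv
      rw [if_pos rfl, Pi.add_apply, Pi.single_eq_same]
      rcases hδ with rfl | rfl <;> omega
    · rw [if_neg hv, Pi.add_apply, Pi.single_eq_of_ne hv]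
      simp
  rw [Finset.sum_congr rfl fun v _ => e v, Finset.sum_add_distrib]
  simp

lemma Mink_add_one [Fintype V] {J₁ J₂ : Set (V → ℤ)} (h₁ : Jump J₁)
    {y₁ y₂ : V → ℤ} (hy₁ : y₁ ∈ J₁) (u : V → ℤ)
    (a b : V → ℤ) (k : V) (δ : ℤ) (ha : a ∈ J₁) (hb : b ∈ J₂) (hδ : δ = 1 ∨ δ = -1)
    (hu : a + b + Pi.single k δ = u) (h : 0 < δ * (y₁ k - a k)) :
    (∃ (j : V) (δ' : ℤ), (δ' = 1 ∨ δ' = -1) ∧ 0 < δ' * ((y₁ + y₂) j - u j) ∧
        u + Pi.single j δ' ∈ J₁ + J₂) ∨
    ∃ (a' : V → ℤ) (j : V) (δ' : ℤ), a' ∈ J₁ ∧ (δ' = 1 ∨ δ' = -1) ∧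
      Mink_N y₁ a' + 2 = Mink_N y₁ a ∧ a' + b + Pi.single j δ' = u ∧
      (0 < δ' * (y₁ j - a' j) ∨ 0 < δ' * (y₂ j - b j)) := by
  obtain ⟨j, δ', hδ', hj, hm⟩ := h₁ a ha y₁ hy₁ k δ hδ h
  have hN1 := Mink_N_step y₁ a k δ hδ h
  have hN2 := Mink_N_step y₁ (a + Pi.single k δ) j δ' hδ' hj
  obtain ⟨a', ha'⟩ : ∃ a' : V → ℤ, a' = a + Pi.single k δ + Pi.single j δ' := ⟨_, rfl⟩
  rw [← ha'] at hm hN2
  have hsum : a' + b = u + Pi.single j δ' := by
    rw [← hu, ha']; abel
  by_cases hd : 0 < δ' * ((y₁ + y₂) j - u j)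
  · refine Or.inl ⟨j, δ', hδ', hd, ?_⟩
    rw [← hsum]
    exact Set.add_mem_add hm hb
  · refine Or.inr ⟨a', j, -δ', hm, by omega, by omega, ?_, ?_⟩
    · rw [hsum, Pi.single_neg, add_neg_cancel_right]
    · have hj0 : a' j + b j = u j + δ' := by
        have := congrFun hsum j
        rw [Pi.add_apply, Pi.add_apply, Pi.single_eq_same] at this
        exact this
      rw [Pi.add_apply] at hd
      rcases hδ' with rfl | rfl <;> omega

lemma Mink_add_aux [Fintype V] {J₁ J₂ : Set (V → ℤ)} (h₁ : Jump J₁) (h₂ : Jump J₂)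
    {y₁ y₂ : V → ℤ} (hy₁ : y₁ ∈ J₁) (hy₂ : y₂ ∈ J₂) (u : V → ℤ) (n : ℕ) :
    ∀ (a b : V → ℤ) (k : V) (δ : ℤ), a ∈ J₁ → b ∈ J₂ → (δ = 1 ∨ δ = -1) →
      Mink_N y₁ a + Mink_N y₂ b ≤ n → a + b + Pi.single k δ = u →
      (0 < δ * (y₁ k - a k) ∨ 0 < δ * (y₂ k - b k)) →
      ∃ (j : V) (δ' : ℤ), (δ' = 1 ∨ δ' = -1) ∧ 0 < δ' * ((y₁ + y₂) j - u j) ∧
        u + Pi.single j δ' ∈ J₁ + J₂ := by
  induction n using Nat.strong_induction_on with
  | _ n ih =>
  intro a b k δ ha hb hδ hn hu h
  rcases h with h | h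
  · rcases Mink_add_one (J₂ := J₂) (y₂ := y₂) h₁ hy₁ u a b k δ ha hb hδ hu h with hd | hd
    · exact hd
    · obtain ⟨a', j, δ', ha', hδ', hN, hu', h'⟩ := hd
      exact ih (Mink_N y₁ a' + Mink_N y₂ b) (by omega) a' b j δ' ha' hb hδ' le_rfl hu' h'
  · have hu2 : b + a + Pi.single k δ = u := by rw [add_comm b a]; exact hu
    rcases Mink_add_one (J₂ := J₁) (y₂ := y₁) h₂ hy₂ u b a k δ hb ha hδ hu2 h with hd | hd
    · rw [add_comm J₂ J₁, add_comm y₂ y₁] at hd
      exact hd
    · obtain ⟨b', j, δ', hb', hδ', hN, hu', h'⟩ := hd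
      exact ih (Mink_N y₁ a + Mink_N y₂ b') (by omega) a b' j δ' ha hb' hδ' le_rfl
        (by rw [add_comm a b']; exact hu') h'.symm

theorem Jump.add [Finite V] {J₁ J₂ : Set (V → ℤ)} (h₁ : Jump J₁) (h₂ : Jump J₂) :
    Jump (J₁ + J₂) := by
  have := Fintype.ofFinite V
  rintro x ⟨x₁, hx₁, x₂, hx₂, rfl⟩ y ⟨y₁, hy₁, y₂, hy₂, rfl⟩ i ε hε hpos
  refine Mink_add_aux h₁ h₂ hy₁ hy₂ _ _ x₁ x₂ i ε hx₁ hx₂ hε le_rfl rfl ?_
  simp only [Pi.add_apply] at hpos
  rcases hε with rfl | rfl <;> omega

lemma Un_symm (S T : Finset V) : Un S T = Un T S := by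
  have key : ∀ S T : Finset V, Un S T ⊆ Un T S := by
    intro S T x hx
    rcases hx with rfl | ⟨s, hs, t, ht, rfl⟩
    · exact Or.inl rfl
    · exact Or.inr ⟨t, ht, s, hs, add_comm _ _⟩
  exact Set.Subset.antisymm (key S T) (key T S)

lemma Mink_ev_apply (s v : V) : ev s v = if v = s then 1 else 0 := by
  unfold ev
  rw [Pi.single_apply]

lemma Mink_neg_single (s : V) : (Pi.single s (-1 : ℤ) : V → ℤ) = - ev s := single_neg_one s

/-- step up at the first end -/
lemma Mink_up {S T : Finset V} {s t s' t' : V} (ht : t ∈ T) (hs' : s' ∈ S)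
    (ht' : t' ∈ T) (h : (ev s + ev t : V → ℤ) s' < (ev s' + ev t' : V → ℤ) s') :
    ∃ (j : V) (δ : ℤ), (δ = 1 ∨ δ = -1) ∧
      0 < δ * ((ev s' + ev t' : V → ℤ) j - (ev s + ev t + Pi.single s' 1 : V → ℤ) j) ∧
      ev s + ev t + Pi.single s' 1 + Pi.single j δ ∈ Un S T := by
  have e1 : (Pi.single s' (1 : ℤ) : V → ℤ) = ev s' := rfl
  rw [e1]
  simp only [Pi.add_apply, Mink_ev_apply, if_true] at h ⊢
  by_cases hss : s = s'
  · subst hss
    have htt : t' = s := by
      by_contra hne
      have hne' : s ≠ t' := fun e => hne e.symm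
      simp only [if_neg hne', if_true] at h
      split_ifs at h <;> omega
    subst htt
    have hts : t ≠ t' := by
      rintro rfl
      simp at h
    refine ⟨t, -1, Or.inr rfl, ?_, ?_⟩
    · simp [hts]
    · rw [Mink_neg_single]
      refine Or.inr ⟨t', hs', t', ht', ?_⟩
      abel
  · by_cases h2 : (ev s' + ev t' : V → ℤ) s < (ev s + ev t + ev s' : V → ℤ) s
    · refine ⟨s, -1, Or.inr rfl, ?_, ?_⟩
      · simp only [Pi.add_apply, Mink_ev_apply, if_true] at h2 ⊢
        omega
      · rw [Mink_neg_single]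
        refine Or.inr ⟨s', hs', t, ht, ?_⟩
        abel
    · simp only [Pi.add_apply, Mink_ev_apply] at h2
      have hts : t' = s := by
        by_contra hne
        have hne' : s ≠ t' := fun e => hne e.symm
        apply h2
        simp only [if_neg hss, if_neg hne', if_true]
        split_ifs <;> omega
      subst hts
      have hts : t ≠ t' := by
        rintro rfl
        apply h2
        simp [hss]
      refine ⟨t, -1, Or.inr rfl, ?_, ?_⟩
      · simp [hts]
      · rw [Mink_neg_single]
        refine Or.inr ⟨s', hs', t', ht', ?_⟩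
        abel

/-- step down at the first end -/
lemma Mink_down {S T : Finset V} {s t s' t' : V} (ht : t ∈ T) (hs' : s' ∈ S) (ht' : t' ∈ T) :
    ∃ (j : V) (δ : ℤ), (δ = 1 ∨ δ = -1) ∧
      0 < δ * ((ev s' + ev t' : V → ℤ) j - (ev s + ev t + Pi.single s (-1) : V → ℤ) j) ∧
      ev s + ev t + Pi.single s (-1) + Pi.single j δ ∈ Un S T := by
  have e0 : (ev s + ev t + Pi.single s (-1) : V → ℤ) = ev t := by
    rw [Mink_neg_single]; abel
  rw [e0]
  by_cases h : (ev t : V → ℤ) s' < (ev s' + ev t' : V → ℤ) s'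
  · refine ⟨s', 1, Or.inl rfl, by linarith, Or.inr ⟨s', hs', t, ht, ?_⟩⟩
    show ev t + ev s' = ev s' + ev t
    abel
  · simp only [Pi.add_apply, Mink_ev_apply] at h
    have h1 : s' = t := by
      by_contra hne
      apply h
      simp only [if_neg hne, if_true]
      split_ifs <;> omega
    subst h1
    have h2 : s' ≠ t' := by
      rintro rfl
      apply h
      simp
    refine ⟨t', 1, Or.inl rfl, ?_, Or.inr ⟨s', hs', t', ht', rfl⟩⟩
    simp only [Pi.add_apply, Mink_ev_apply]
    simp [h2.symm]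

theorem jump_Un (S T : Finset V) : Jump (Un S T) := by
  intro x hx y hy i ε hε hpos
  rcases hx with rfl | ⟨s, hs, t, ht, rfl⟩
  · rcases hy with rfl | ⟨s', hs', t', ht', rfl⟩
    · simp at hpos
    · simp only [Pi.add_apply, Mink_ev_apply, Pi.zero_apply, sub_zero] at hpos
      have hε1 : ε = 1 := by
        rcases hε with rfl | rfl
        · rfl
        · exfalso
          split_ifs at hpos <;> omega
      subst hε1
      have hi : i = s' ∨ i = t' := by
        by_contra hne
        push Not at hne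
        rw [if_neg hne.1, if_neg hne.2] at hpos
        omega
      rcases hi with rfl | rfl
      · refine ⟨t', 1, Or.inl rfl, ?_, Or.inr ⟨i, hs', t', ht', ?_⟩⟩
        · show 0 < (1 : ℤ) * ((ev i + ev t' : V → ℤ) t' - (0 + ev i : V → ℤ) t')
          simp [Mink_ev_apply]
        · show (0 : V → ℤ) + ev i + ev t' = _
          rw [zero_add]
      · refine ⟨s', 1, Or.inl rfl, ?_, Or.inr ⟨s', hs', i, ht', ?_⟩⟩
        · show 0 < (1 : ℤ) * ((ev s' + ev i : V → ℤ) s' - (0 + ev i : V → ℤ) s')
          simp [Mink_ev_apply]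
        · show (0 : V → ℤ) + ev i + ev s' = _
          rw [zero_add, add_comm]
  · rcases hy with rfl | ⟨s', hs', t', ht', rfl⟩
    · simp only [Pi.add_apply, Mink_ev_apply, Pi.zero_apply, zero_sub] at hpos
      have hε1 : ε = -1 := by
        rcases hε with rfl | rfl
        · exfalso
          split_ifs at hpos <;> omega
        · rfl
      subst hε1
      have hi : i = s ∨ i = t := by
        by_contra hne
        push Not at hne
        rw [if_neg hne.1, if_neg hne.2] at hpos
        omega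
      rcases hi with rfl | rfl
      · refine ⟨t, -1, Or.inr rfl, ?_, Or.inl ?_⟩
        · rw [Mink_neg_single]
          simp [Mink_ev_apply]
        · rw [Mink_neg_single, Mink_neg_single]; abel
      · refine ⟨s, -1, Or.inr rfl, ?_, Or.inl ?_⟩
        · rw [Mink_neg_single]
          simp [Mink_ev_apply]
        · rw [Mink_neg_single, Mink_neg_single]; abel
    · rcases hε with rfl | rfl
      · have hlt : (ev s + ev t : V → ℤ) i < (ev s' + ev t' : V → ℤ) i := by linarith
        have hi : i = s' ∨ i = t' := by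
          by_contra hne
          push Not at hne
          simp only [Pi.add_apply, Mink_ev_apply] at hlt
          rw [if_neg hne.1, if_neg hne.2] at hlt
          split_ifs at hlt <;> omega
        rcases hi with rfl | rfl
        · exact Mink_up ht hs' ht' hlt
        · rw [add_comm (ev s), add_comm (ev s')] at hlt
          obtain ⟨j, δ, h1, h2, h3⟩ := Mink_up (S := T) (T := S) hs ht' hs' hlt
          refine ⟨j, δ, h1, ?_, ?_⟩
          · rw [add_comm (ev s), add_comm (ev s')]
            exact h2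
          · rw [add_comm (ev s), Un_symm]
            exact h3
      · have hlt : (ev s' + ev t' : V → ℤ) i < (ev s + ev t : V → ℤ) i := by linarith
        have hi : i = s ∨ i = t := by
          by_contra hne
          push Not at hne
          simp only [Pi.add_apply, Mink_ev_apply] at hlt
          rw [if_neg hne.1, if_neg hne.2] at hlt
          split_ifs at hlt <;> omega
        rcases hi with rfl | rfl
        · exact Mink_down ht hs' ht'
        · obtain ⟨j, δ, h1, h2, h3⟩ := Mink_down (S := T) (T := S) (s := i) (t := s) hs ht' hs'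
          refine ⟨j, δ, h1, ?_, ?_⟩
          · rw [add_comm (ev s), add_comm (ev s')]
            exact h2
          · rw [add_comm (ev s), Un_symm]
            exact h3

theorem jump_sumU [Finite V] (us : List (Finset V × Finset V)) : Jump (sumU us) := by
  induction us with
  | nil => exact jump_zero
  | cons u us ih => exact (jump_Un u.1 u.2).add ih

lemma sumU_append (us vs : List (Finset V × Finset V)) : sumU (us ++ vs) = sumU us + sumU vs := by
  induction us with
  | nil =>
    show sumU vs = {0} + sumU vs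
    rw [Set.singleton_zero, zero_add]
  | cons u us ih =>
    show Un u.1 u.2 + sumU (us ++ vs) = Un u.1 u.2 + sumU us + sumU vs
    rw [ih, add_assoc]

/-- place the numbers `k i` at the vertices `f i` -/
def put {n : ℕ} (f : Fin n → V) (k : Fin n → ℤ) : V → ℤ := fun v => ∑ i, if f i = v then k i else 0

lemma put_add {n : ℕ} (f : Fin n → V) (k l : Fin n → ℤ) : put f (k + l) = put f k + put f l := by
  funext v
  unfold put
  rw [Pi.add_apply, ← Finset.sum_add_distrib]
  refine Finset.sum_congr rfl fun i _ => ?_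
  split_ifs
  · rfl
  · simp

lemma put_single {n : ℕ} (f : Fin n → V) (i : Fin n) (c : ℤ) :
    put f (Pi.single i c) = Pi.single (f i) c := by
  funext v
  unfold put
  rw [Finset.sum_eq_single i]
  · rw [Pi.single_eq_same]
    by_cases h : f i = v
    · subst h; simp
    · rw [if_neg h, Pi.single_eq_of_ne (fun e => h e.symm)]
  · intro j _ hj
    rw [Pi.single_eq_of_ne hj]
    simp
  · intro h
    exact absurd (Finset.mem_univ _) h

lemma put_apply {n : ℕ} {f : Fin n → V} (hf : Function.Injective f) (k : Fin n → ℤ) (i : Fin n) :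
    put f k (f i) = k i := by
  unfold put
  rw [Finset.sum_eq_single i]
  · simp
  · intro j _ hj
    rw [if_neg fun e => hj (hf e)]
  · intro h
    exact absurd (Finset.mem_univ _) h

lemma put_of_not {n : ℕ} {f : Fin n → V} (k : Fin n → ℤ) {v : V} (hv : ∀ i, f i ≠ v) :
    put f k v = 0 := by
  unfold put
  refine Finset.sum_eq_zero fun i _ => ?_
  rw [if_neg (hv i)]

theorem Jump.pull {n : ℕ} {f : Fin n → V} (hf : Function.Injective f) (b : V → ℤ) {A : Set (V → ℤ)}
    (hA : Jump A) : Jump {k : Fin n → ℤ | b + put f k ∈ A} := by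
  intro k hk l hl i ε hε hpos
  have h1 : 0 < ε * ((b + put f l : V → ℤ) (f i) - (b + put f k : V → ℤ) (f i)) := by
    simp only [Pi.add_apply, put_apply hf]
    have : b (f i) + l i - (b (f i) + k i) = l i - k i := by ring
    rw [this]
    exact hpos
  obtain ⟨j, δ, hδ, hj, hm⟩ := hA _ hk _ hl (f i) ε hε h1
  have hr : ∃ j', f j' = j := by
    by_contra hne
    push Not at hne
    simp only [Pi.add_apply, put_of_not l hne, put_of_not k hne,
      Pi.single_eq_of_ne (fun e : j = f i => hne i e.symm)] at hj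
    simp at hj
  obtain ⟨j', rfl⟩ := hr
  refine ⟨j', δ, hδ, ?_, ?_⟩
  · have e1 : (b + put f k + Pi.single (f i) ε : V → ℤ) = b + put f (k + Pi.single i ε) := by
      rw [put_add, put_single, add_assoc]
    rw [e1] at hj
    simp only [Pi.add_apply, put_apply hf] at hj
    have e2 : b (f j') + l j' - (b (f j') + (k j' + (Pi.single i ε : Fin n → ℤ) j')) =
        l j' - (k j' + (Pi.single i ε : Fin n → ℤ) j') := by ring
    rw [e2] at hj
    exact hj
  · show b + put f (k + Pi.single i ε + Pi.single j' δ) ∈ A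
    rw [put_add, put_add, put_single, put_single, ← add_assoc, ← add_assoc]
    exact hm

theorem Jump.pull_neg {n : ℕ} {f : Fin n → V} (hf : Function.Injective f) (b : V → ℤ)
    {A : Set (V → ℤ)} (hA : Jump A) : Jump {k : Fin n → ℤ | b - put f k ∈ A} := by
  intro k hk l hl i ε hε hpos
  have h1 : 0 < (-ε) * ((b - put f l : V → ℤ) (f i) - (b - put f k : V → ℤ) (f i)) := by
    simp only [Pi.sub_apply, put_apply hf]
    have : (-ε) * (b (f i) - l i - (b (f i) - k i)) = ε * (l i - k i) := by ring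
    rw [this]
    exact hpos
  obtain ⟨j, δ, hδ, hj, hm⟩ := hA _ hk _ hl (f i) (-ε) (by omega) h1
  have hr : ∃ j', f j' = j := by
    by_contra hne
    push Not at hne
    simp only [Pi.add_apply, Pi.sub_apply, put_of_not l hne, put_of_not k hne,
      Pi.single_eq_of_ne (fun e : j = f i => hne i e.symm)] at hj
    simp at hj
  obtain ⟨j', rfl⟩ := hr
  have e1 : (b - put f k + Pi.single (f i) (-ε) : V → ℤ) = b - put f (k + Pi.single i ε) := by
    rw [put_add, put_single, Pi.single_neg]; abel
  refine ⟨j', -δ, by omega, ?_, ?_⟩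
  · rw [e1] at hj
    simp only [Pi.sub_apply, put_apply hf] at hj
    have e2 : δ * (b (f j') - l j' - (b (f j') - (k + Pi.single i ε : Fin n → ℤ) j')) =
        -δ * (l j' - (k + Pi.single i ε : Fin n → ℤ) j') := by ring
    rw [e2] at hj
    exact hj
  · show b - put f (k + Pi.single i ε + Pi.single j' (-δ)) ∈ A
    rw [e1] at hm
    rw [put_add, put_single]
    have e3 : b - (put f (k + Pi.single i ε) + (Pi.single (f j') (-δ) : V → ℤ)) =
        b - put f (k + Pi.single i ε) + Pi.single (f j') δ := by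
      rw [Pi.single_neg]; abel
    rw [e3]
    exact hm

end Pool.Agent.TFC
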