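import Pool.Agent.TFC.JumpJS

/-!
Ordinary edges: `Ue e` is a jump set, and a sum of ordinary edges is the degree vector of a set of
edges.
-/

set_option autoImplicit false
set_option linter.unusedSectionVars false

namespace Pool.Agent.TFC

open Finset
open scoped Pointwise

variable {V : Type*} [DecidableEq V]

lemma Plain_Ue (a b : V) (x : V → ℤ) : x ∈ Ue s(a, b) ↔ x = 0 ∨ x = ev a + ev b := by
  constructor
  · rintro (h | ⟨u, v, h, hx⟩)
    · exact Or.inl h
    · right
      rw [Sym2.eq_iff] at h
      rcases h with ⟨rfl, rfl⟩ | ⟨rfl, rfl⟩
      · exact hx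
      · rw [hx, add_comm]
  · rintro (h | h)
    · exact Or.inl h
    · exact Or.inr ⟨a, b, rfl, h⟩

theorem jump_Ue (e : Sym2 V) : Jump (Ue e) := by
  induction e using Sym2.ind with
  | _ a b =>
    intro x hx y hy i ε hε hpos
    rw [Plain_Ue] at hx hy
    rcases hx with rfl | rfl <;> rcases hy with rfl | rfl
    · simp at hpos
    · -- from 0 to ev a + ev b
      have hε1 : ε = 1 := by
        rcases hε with h | h
        · exact h
        · exfalso
          rw [h] at hpos
          simp only [Pi.add_apply, Pi.zero_apply, ev_apply] at hpos
          split_ifs at hpos <;> simp at hpos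
      subst hε1
      have hi : i = a ∨ i = b := by
        by_contra hc
        push Not at hc
        simp [ev_apply, hc.1, hc.2] at hpos
      rcases hi with rfl | rfl
      · refine ⟨b, 1, Or.inl rfl, ?_, ?_⟩
        · simp only [Pi.add_apply, Pi.zero_apply, single_one, ev_apply]
          split_ifs <;> simp
        · rw [Plain_Ue]
          right
          rw [single_one, single_one, zero_add]
      · refine ⟨a, 1, Or.inl rfl, ?_, ?_⟩
        · simp only [Pi.add_apply, Pi.zero_apply, single_one, ev_apply]
          split_ifs <;> simp
        · rw [Plain_Ue]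
          right
          rw [single_one, single_one, zero_add, add_comm]
    · -- from ev a + ev b to 0
      have hε1 : ε = -1 := by
        rcases hε with h | h
        · exfalso
          rw [h] at hpos
          simp only [Pi.add_apply, Pi.zero_apply, ev_apply] at hpos
          split_ifs at hpos <;> simp at hpos
        · exact h
      subst hε1
      have hi : i = a ∨ i = b := by
        by_contra hc
        push Not at hc
        simp [ev_apply, hc.1, hc.2] at hpos
      rcases hi with rfl | rfl
      · refine ⟨b, -1, Or.inr rfl, ?_, ?_⟩
        · simp only [Pi.add_apply, Pi.neg_apply, Pi.zero_apply, single_neg_one, ev_apply]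
          split_ifs <;> simp
        · rw [Plain_Ue]
          left
          rw [single_neg_one, single_neg_one]
          abel
      · refine ⟨a, -1, Or.inr rfl, ?_, ?_⟩
        · simp only [Pi.add_apply, Pi.neg_apply, Pi.zero_apply, single_neg_one, ev_apply]
          split_ifs <;> simp
        · rw [Plain_Ue]
          left
          rw [single_neg_one, single_neg_one]
          abel
    · simp at hpos

lemma Plain_dv_empty : dv (∅ : Finset (Sym2 V)) = 0 := by
  funext v
  simp [dv, dg]

/-- a sum of ordinary edges is the degree vector of a set of edges -/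
theorem mem_sum_Ue (E : Finset (Sym2 V)) (hE : NoLoop E) (k : V → ℤ) :
    k ∈ ∑ e ∈ E, Ue e ↔ ∃ z ⊆ E, k = dv z := by
  induction E using Finset.induction_on generalizing k with
  | empty =>
    rw [Finset.sum_empty, Set.mem_zero]
    constructor
    · intro h
      exact ⟨∅, le_rfl, by rw [Plain_dv_empty]; exact h⟩
    · rintro ⟨z, hz, rfl⟩
      rw [Finset.subset_empty.mp hz, Plain_dv_empty]
  | insert e E he ih =>
    have hE' : NoLoop E := hE.mono (subset_insert _ _)
    rw [Finset.sum_insert he, Set.mem_add]
    induction e using Sym2.ind with
    | _ a b =>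
      have hab : a ≠ b := hE.ne (mem_insert_self _ _)
      constructor
      · rintro ⟨x, hx, y, hy, rfl⟩
        obtain ⟨z, hz, rfl⟩ := (ih hE' y).mp hy
        rw [Plain_Ue] at hx
        rcases hx with rfl | rfl
        · exact ⟨z, hz.trans (subset_insert _ _), zero_add _⟩
        · refine ⟨insert s(a, b) z, insert_subset_insert _ hz, ?_⟩
          rw [dv_insert hab (fun h => he (hz h))]
          abel
      · rintro ⟨z, hz, rfl⟩
        by_cases hmem : s(a, b) ∈ z
        · refine ⟨ev a + ev b, (Plain_Ue _ _ _).mpr (Or.inr rfl), dv (z.erase s(a, b)),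
            (ih hE' _).mpr ⟨_, ?_, rfl⟩, ?_⟩
          · intro e' he'
            rw [mem_erase] at he'
            exact (mem_insert.mp (hz he'.2)).resolve_left he'.1
          · rw [dv_erase hab hmem]; abel
        · refine ⟨0, (Plain_Ue _ _ _).mpr (Or.inl rfl), dv z, (ih hE' _).mpr ⟨z, ?_, rfl⟩,
            zero_add _⟩
          intro e' he'
          refine (mem_insert.mp (hz he')).resolve_left ?_
          rintro rfl
          exact hmem he'

end Pool.Agent.TFC
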