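import Pool.Agent.TFC.JumpJS

set_option autoImplicit false
set_option linter.unusedSectionVars false

namespace Pool.Agent.TFC

open Finset

/-- a finite set with a fixed point free involution has an even number of elements -/
lemma cert_even {W : Type*} (s : Finset W) (m : W → W) (h1 : ∀ a ∈ s, m a ∈ s)
    (h2 : ∀ a ∈ s, m (m a) = a) (h3 : ∀ a ∈ s, m a ≠ a) : Even #s := by
  classical
  have := Finset.sum_involution (s := s) (f := fun _ => (1 : ZMod 2)) (fun a _ => m a)
    (fun a _ => by decide) (fun a ha _ => h3 a ha) (fun a ha => h1 a ha) (fun a ha => h2 a ha)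
  rw [Finset.sum_const, nsmul_eq_mul, mul_one] at this
  exact (ZMod.natCast_eq_zero_iff_even).1 this

/-- a perfect matching gives an involution along edges -/
lemma cert_inv {W : Type*} {G : SimpleGraph W} {M : G.Subgraph} (hM : M.IsPerfectMatching) :
    ∃ m : W → W, (∀ w, m (m w) = w) ∧ ∀ w, G.Adj w (m w) := by
  obtain ⟨h1, h2⟩ := hM
  choose m hm hm' using fun w => h1 (h2 w)
  refine ⟨m, fun w => ?_, fun w => M.adj_sub (hm w)⟩
  exact (hm' (m w) w (hm w).symm).symm

/-- no perfect matching iff there is a labelling of the vertices by numbers, constant on adjacent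
vertices with nonzero labels, with more labels of odd multiplicity than zeros -/
theorem tutte_cert {W : Type} [Fintype W] [DecidableEq W] (G : SimpleGraph W) :
    (¬ ∃ M : G.Subgraph, M.IsPerfectMatching) ↔
    ∃ lab : W → ℕ, (∀ a, lab a ≤ Fintype.card W) ∧
      (∀ a b, G.Adj a b → lab a ≠ 0 → lab b ≠ 0 → lab a = lab b) ∧
      #{a | lab a = 0} < #{l ∈ Finset.Icc 1 (Fintype.card W) | Odd #{a | lab a = l}} := by
  classical
  constructor
  · intro h
    rw [SimpleGraph.tutte] at h
    push Not at h
    obtain ⟨u, hu⟩ := h
    set H := ((⊤ : G.Subgraph).deleteVerts u).coe with hH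
    have hmem : ∀ a, a ∈ ((⊤ : G.Subgraph).deleteVerts u).verts ↔ a ∉ u := by
      intro a; simp
    have : Finite H.ConnectedComponent := inferInstance
    have : Fintype H.ConnectedComponent := Fintype.ofFinite _
    have hcard : Fintype.card H.ConnectedComponent ≤ Fintype.card W := by
      refine le_trans (Fintype.card_le_of_surjective (fun v => H.connectedComponentMk v) ?_)
        (Fintype.card_subtype_le fun a => a ∈ ((⊤ : G.Subgraph).deleteVerts u).verts)
      intro c
      exact c.ind fun v => ⟨v, rfl⟩
    let ψ : H.ConnectedComponent → ℕ := fun c => (Fintype.equivFin _ c : ℕ) + 1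
    have hψ : Function.Injective ψ := by
      intro c c' h
      have : (Fintype.equivFin _ c : ℕ) = Fintype.equivFin _ c' := by
        simpa [ψ] using h
      exact (Fintype.equivFin _).injective (Fin.ext this)
    have hψ1 : ∀ c, 1 ≤ ψ c ∧ ψ c ≤ Fintype.card W := by
      intro c
      have := (Fintype.equivFin _ c).2
      simp only [ψ]
      omega
    let lab : W → ℕ := fun a =>
      if h : a ∈ ((⊤ : G.Subgraph).deleteVerts u).verts then ψ (H.connectedComponentMk ⟨a, h⟩) else 0
    have lab1 : ∀ a (h : a ∈ ((⊤ : G.Subgraph).deleteVerts u).verts),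
        lab a = ψ (H.connectedComponentMk ⟨a, h⟩) := fun a h => dif_pos h
    have lab0 : ∀ a, a ∉ ((⊤ : G.Subgraph).deleteVerts u).verts → lab a = 0 := fun a h => dif_neg h
    have lab0' : ∀ a, lab a = 0 ↔ a ∈ u := by
      intro a
      constructor
      · intro h
        by_contra h'
        rw [lab1 a ((hmem a).2 h')] at h
        have := (hψ1 (H.connectedComponentMk ⟨a, (hmem a).2 h'⟩)).1
        omega
      · intro h
        exact lab0 a fun h' => (hmem a).1 h' h
    refine ⟨lab, ?_, ?_, ?_⟩
    · intro a
      by_cases h : a ∈ ((⊤ : G.Subgraph).deleteVerts u).verts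
      · rw [lab1 a h]; exact (hψ1 _).2
      · rw [lab0 a h]; exact Nat.zero_le _
    · intro a b hab ha hb
      have ha' : a ∉ u := fun h => ha ((lab0' a).2 h)
      have hb' : b ∉ u := fun h => hb ((lab0' b).2 h)
      rw [lab1 a ((hmem a).2 ha'), lab1 b ((hmem b).2 hb')]
      congr 1
      rw [SimpleGraph.ConnectedComponent.eq]
      refine SimpleGraph.Adj.reachable ?_
      simp [hH, hab, ha', hb']
    · have e1 : #{a | lab a = 0} = u.ncard := by
        rw [← Set.ncard_coe_finset]
        congr 1
        ext a
        simp [lab0']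
      rw [e1]
      refine lt_of_lt_of_le hu ?_
      have e2 : ((⊤ : G.Subgraph).deleteVerts u).coe.oddComponents.ncard =
          #(({c | c ∈ H.oddComponents} : Finset H.ConnectedComponent)) := by
        rw [← Set.ncard_coe_finset]
        congr 1
        ext a
        simp only [Finset.coe_filter, Finset.mem_univ, true_and, Set.mem_ofPred_eq]
        rfl
      rw [e2]
      refine Finset.card_le_card_of_injOn ψ ?_ hψ.injOn
      intro c hc
      simp only [Finset.coe_filter, Finset.mem_univ, true_and, Set.mem_ofPred_eq] at hc
      simp only [Finset.coe_filter, Finset.mem_Icc, Set.mem_ofPred_eq]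
      refine ⟨hψ1 c, ?_⟩
      have hc' : Odd c.supp.ncard := hc
      have e3 : #{a | lab a = ψ c} = c.supp.ncard := by
        rw [← Set.ncard_coe_finset]
        refine Set.ncard_congr' ?_
        refine ⟨fun a => ⟨⟨a.1, ?_⟩, ?_⟩, fun a => ⟨a.1.1, ?_⟩, ?_, ?_⟩
        · have := a.2
          by_contra h
          simp only [Finset.coe_filter, Finset.mem_univ, true_and, Set.mem_ofPred_eq] at this
          rw [lab0 _ h] at this
          have := (hψ1 c).1
          omega
        · have h2 := a.2
          simp only [Finset.coe_filter, Finset.mem_univ, true_and, Set.mem_ofPred_eq] at h2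
          have h : a.1 ∈ ((⊤ : G.Subgraph).deleteVerts u).verts := by
            by_contra h
            rw [lab0 _ h] at h2
            have := (hψ1 c).1
            omega
          rw [lab1 _ h] at h2
          exact hψ h2
        · have h2 : H.connectedComponentMk a.1 = c := a.2
          simp only [Finset.coe_filter, Finset.mem_univ, true_and, Set.mem_ofPred_eq]
          rw [lab1 _ a.1.2]
          exact congrArg ψ h2
        · intro a; rfl
        · intro a; rfl
      rw [e3]
      exact hc'
  · rintro ⟨lab, h1, h2, h3⟩ ⟨M, hM⟩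
    obtain ⟨m, hm, ha⟩ := cert_inv hM
    have key : ∀ l ∈ ({l ∈ Finset.Icc 1 (Fintype.card W) | Odd #{a | lab a = l}} : Finset ℕ),
        ∃ a, lab a = l ∧ lab (m a) = 0 := by
      intro l hl
      simp only [Finset.mem_filter, Finset.mem_Icc] at hl
      obtain ⟨⟨hl1, hl2⟩, hodd⟩ := hl
      by_contra hcon
      push Not at hcon
      refine Nat.not_even_iff_odd.2 hodd (cert_even _ m ?_ (fun a _ => hm a) ?_)
      · intro a hla
        simp only [Finset.mem_filter, Finset.mem_univ, true_and] at hla ⊢
        have := h2 a (m a) (ha a) (by omega) (hcon a hla)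
        omega
      · intro a _
        exact (ha a).ne'
    have hne : Nonempty W := by
      obtain ⟨l, hl⟩ := Finset.card_pos.1 (lt_of_le_of_lt (Nat.zero_le _) h3)
      simp only [Finset.mem_filter, Finset.mem_Icc] at hl
      exact Fintype.card_pos_iff.1 (by omega)
    choose! b hb hb' using key
    refine absurd h3 (not_lt.2 ?_)
    refine Finset.card_le_card_of_injOn (fun l => m (b l)) ?_ ?_
    · intro l hl
      simp only [Finset.coe_filter, Finset.mem_univ, true_and, Set.mem_ofPred_eq]
      exact hb' l hl
    · intro l hl l' hl' heq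
      have : m (m (b l)) = m (m (b l')) := congrArg m heq
      rw [hm, hm] at this
      rw [← hb l hl, ← hb l' hl', this]

end Pool.Agent.TFC
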