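import Pool.Agent.TFC.JumpJS

set_option autoImplicit false
set_option linter.unusedSectionVars false

namespace Pool.Agent.TFC

open Finset
open scoped Pointwise

variable {V : Type*} [DecidableEq V]

/-- the auxiliary graph of a list of units: two copies of each vertex, two nodes for each unit -/
def gg (us : List (Finset V × Finset V)) : SimpleGraph ((V × Bool) ⊕ (Fin us.length × Bool)) :=
  SimpleGraph.fromRel fun α β =>
    match α, β with
    | .inr (i, false), .inr (j, true) => i = j
    | .inr (i, false), .inl (v, _) => v ∈ us[i].1
    | .inr (i, true), .inl (v, _) => v ∈ us[i].2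
    | _, _ => False

/-- elements of `sumU` as sums of one vector for each unit -/
lemma gg_sumU (us : List (Finset V × Finset V)) (x : V → ℤ) :
    x ∈ sumU us ↔ ∃ y : Fin us.length → V → ℤ, (∀ i, y i ∈ Un us[i].1 us[i].2) ∧ x = ∑ i, y i := by
  induction us generalizing x with
  | nil => simp [sumU]
  | cons u us ih =>
    simp only [sumU, Set.mem_add]
    constructor
    · rintro ⟨a, ha, b, hb, rfl⟩
      obtain ⟨y, hy, rfl⟩ := (ih b).1 hb
      refine ⟨Fin.cons a y, ?_, ?_⟩
      · intro i
        refine Fin.cases ?_ ?_ i
        · simpa using ha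
        · intro j; simpa using hy j
      · refine Eq.trans ?_ (Fin.sum_univ_succ (Fin.cons a y : Fin (us.length + 1) → V → ℤ)).symm
        simp
    · rintro ⟨y, hy, rfl⟩
      refine ⟨y 0, by simpa using hy 0, ∑ j : Fin us.length, y (Fin.succ j),
        (ih _).2 ⟨fun j => y j.succ, fun j => by simpa using hy j.succ, rfl⟩, ?_⟩
      exact (Fin.sum_univ_succ y).symm

/-- a vector of a unit, given by the two end points -/
lemma gg_Un (S T : Finset V) (x : V → ℤ) :
    x ∈ Un S T ↔ ∃ g : Bool → Option V, (g false = none ↔ g true = none) ∧
      (∀ v, g false = some v → v ∈ S) ∧ (∀ v, g true = some v → v ∈ T) ∧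
      ∀ v, x v = ∑ b : Bool, if g b = some v then 1 else 0 := by
  constructor
  · rintro (rfl | ⟨s, hs, t, ht, rfl⟩)
    · exact ⟨fun _ => none, by simp, by simp, by simp, by simp⟩
    · refine ⟨fun b => if b then some t else some s, by simp, by simp [hs], by simp [ht], ?_⟩
      intro v
      simp only [ev, Pi.add_apply, Pi.single_apply, Fintype.sum_bool]
      simp only [if_true, Bool.false_eq_true, if_false, Option.some.injEq]
      rw [add_comm]
      simp only [eq_comm]
  · rintro ⟨g, h0, h1, h2, h3⟩
    rcases hf : g false with _ | s
    · left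
      funext v
      rw [h3, Fintype.sum_bool, hf, h0.1 hf]
      simp
    · rcases ht : g true with _ | t
      · rw [h0.2 ht] at hf; simp at hf
      · right
        refine ⟨s, h1 s hf, t, h2 t ht, ?_⟩
        funext v
        rw [h3, Fintype.sum_bool, hf, ht]
        simp only [ev, Pi.add_apply, Pi.single_apply, Option.some.injEq]
        rw [add_comm]
        simp only [eq_comm]

lemma gg_mem (us : List (Finset V × Finset V)) (x : V → ℤ) :
    x ∈ sumU us ↔ ∃ g : Fin us.length × Bool → Option V,
      (∀ i, g (i, false) = none ↔ g (i, true) = none) ∧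
      (∀ i v, g (i, false) = some v → v ∈ us[i].1) ∧ (∀ i v, g (i, true) = some v → v ∈ us[i].2) ∧
      ∀ v, x v = ((#{p | g p = some v} : ℕ) : ℤ) := by
  rw [gg_sumU]
  constructor
  · rintro ⟨y, hy, rfl⟩
    choose g h0 h1 h2 h3 using fun i => (gg_Un _ _ _).1 (hy i)
    refine ⟨fun p => g p.1 p.2, h0, h1, h2, ?_⟩
    intro v
    rw [Finset.sum_apply, Finset.card_filter]
    push_cast
    rw [Fintype.sum_prod_type]
    exact Finset.sum_congr rfl fun i _ => h3 i v
  · rintro ⟨g, h0, h1, h2, h3⟩
    refine ⟨fun i v => ∑ b : Bool, if g (i, b) = some v then 1 else 0, ?_, ?_⟩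
    · intro i
      exact (gg_Un _ _ _).2 ⟨fun b => g (i, b), h0 i, h1 i, h2 i, fun v => rfl⟩
    · funext v
      rw [h3, Finset.sum_apply, Finset.card_filter]
      push_cast
      rw [Fintype.sum_prod_type]

/-- an involution along edges gives a perfect matching -/
lemma gg_inv {W : Type*} (G : SimpleGraph W) (m : W → W) (h1 : ∀ w, m (m w) = w)
    (h2 : ∀ w, G.Adj w (m w)) : ∃ M : G.Subgraph, M.IsPerfectMatching := by
  refine ⟨{ verts := Set.univ, Adj := fun a b => m a = b, adj_sub := ?_, edge_vert := ?_,
            symm := ?_ }, ?_, ?_⟩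
  · rintro a b rfl; exact h2 a
  · intro a b _; trivial
  · exact ⟨by rintro a b rfl; exact h1 a⟩
  · intro a _
    refine ⟨m a, rfl, fun b hb => ?_⟩
    have hb' : m a = b := hb
    exact hb'.symm
  · intro a; trivial

/-- a perfect matching gives an involution along edges -/
lemma gg_inv' {W : Type*} {G : SimpleGraph W} {M : G.Subgraph} (hM : M.IsPerfectMatching) :
    ∃ m : W → W, (∀ w, m (m w) = w) ∧ ∀ w, G.Adj w (m w) := by
  obtain ⟨h1, h2⟩ := hM
  choose m hm hm' using fun w => h1 (h2 w)
  refine ⟨m, fun w => ?_, fun w => M.adj_sub (hm w)⟩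
  exact (hm' (m w) w (hm w).symm).symm

theorem gg_iff [Fintype V] (us : List (Finset V × Finset V)) :
    two ∈ sumU us ↔ ∃ M : (gg us).Subgraph, M.IsPerfectMatching := by
  classical
  rw [gg_mem]
  constructor
  · rintro ⟨g, h0, h1, h2, h3⟩
    -- the bijection
    have hc : ∀ v, Fintype.card {p : {p : Fin us.length × Bool // (g p).isSome} // (g p.1).get p.2 = v} = 2 := by
      intro v
      have := h3 v
      simp only [two] at this
      have h4 : #{p | g p = some v} = 2 := by exact_mod_cast this.symm
      rw [← h4, ← Fintype.card_subtype]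
      refine Fintype.card_congr ⟨fun p => ⟨p.1.1, ?_⟩, fun p => ⟨⟨p.1, ?_⟩, ?_⟩, ?_, ?_⟩
      · exact (Option.some_get p.1.2).symm.trans (congrArg some p.2)
      · rw [p.2]; rfl
      · simp [p.2]
      · intro p; rfl
      · intro p; rfl
    let e : {p : Fin us.length × Bool // (g p).isSome} ≃ V × Bool :=
      (Equiv.sigmaFiberEquiv fun p : {p : Fin us.length × Bool // (g p).isSome} =>
        (g p.1).get p.2).symm.trans ((Equiv.sigmaCongrRight fun v =>
          (Fintype.equivOfCardEq (by rw [hc v]; rfl) : _ ≃ Bool)).trans (Equiv.sigmaEquivProd V Bool))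
    have he : ∀ p, g p.1 = some (e p).1 := by
      intro p
      have : (e p).1 = (g p.1).get p.2 := rfl
      rw [this]; simp
    have he' : ∀ q : V × Bool, g (e.symm q).1 = some q.1 := by
      intro q
      have := he (e.symm q)
      simpa using this
    have hsome : ∀ i b, (g (i, b)).isSome → ∀ b', (g (i, b')).isSome := by
      intro i b hb b'
      have := h0 i
      rcases b with _ | _ <;> rcases b' with _ | _
      · exact hb
      · by_contra h
        rw [Option.not_isSome_iff_eq_none] at h
        rw [this.2 h] at hb; simp at hb
      · by_contra h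
        rw [Option.not_isSome_iff_eq_none] at h
        rw [this.1 h] at hb; simp at hb
      · exact hb
    refine gg_inv _ (fun w => match w with
      | .inl q => .inr (e.symm q).1
      | .inr p => if h : (g p).isSome then .inl (e ⟨p, h⟩) else .inr (p.1, !p.2)) ?_ ?_
    · rintro (q | ⟨i, b⟩)
      · have := (e.symm q).2
        simp [this]
      · by_cases h : (g (i, b)).isSome
        · simp only [h, dif_pos, Equiv.symm_apply_apply]
        · have h' : ¬ (g (i, !b)).isSome := fun h' => h (hsome i _ h' _)
          simp only [h]
          simp [h']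
    · have key : ∀ (v : V) (c : Bool) (p : Fin us.length × Bool), g p = some v →
          (gg us).Adj (.inl (v, c)) (.inr p) := by
        rintro v c ⟨i, _ | _⟩ hg
        · rw [gg, SimpleGraph.fromRel_adj]
          exact ⟨by simp, Or.inr (h1 i v hg)⟩
        · rw [gg, SimpleGraph.fromRel_adj]
          exact ⟨by simp, Or.inr (h2 i v hg)⟩
      rintro (⟨v, c⟩ | ⟨i, b⟩)
      · exact key v c _ (he' (v, c))
      · by_cases h : (g (i, b)).isSome
        · simp only [h, dif_pos]
          exact (key _ _ _ (he ⟨(i, b), h⟩)).symm
        · simp only [h]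
          rcases b with _ | _
          · simp [gg, SimpleGraph.fromRel_adj]
          · simp [gg, SimpleGraph.fromRel_adj]
  · rintro ⟨M, hM⟩
    obtain ⟨m, hm, ha⟩ := gg_inv' hM
    -- adjacency facts
    have f1 : ∀ (v : V) (c : Bool), ∃ p, m (.inl (v, c)) = .inr p := by
      intro v c
      rcases hp : m (.inl (v, c)) with q | p
      · have := ha (.inl (v, c))
        rw [hp, gg, SimpleGraph.fromRel_adj] at this
        rcases this.2 with h | h <;> exact absurd h (by simp)
      · exact ⟨p, rfl⟩
    have f2 : ∀ (i : Fin us.length) (b : Bool) (p), m (.inr (i, b)) = .inr p → p = (i, !b) := by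
      rintro i b ⟨j, b'⟩ hp
      have := ha (.inr (i, b))
      rw [hp, gg, SimpleGraph.fromRel_adj] at this
      rcases b with _ | _ <;> rcases b' with _ | _
      · rcases this.2 with h | h <;> exact absurd h (by simp)
      · rcases this.2 with h | h
        · have h' : i = j := h
          simp [h']
        · exact absurd h (by simp)
      · rcases this.2 with h | h
        · exact absurd h (by simp)
        · have h' : j = i := h
          simp [h']
      · rcases this.2 with h | h <;> exact absurd h (by simp)
    have f3 : ∀ (i : Fin us.length) (q : V × Bool), m (.inr (i, false)) = .inl q → q.1 ∈ us[i].1 := by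
      rintro i ⟨v, c⟩ hp
      have := ha (.inr (i, false))
      rw [hp, gg, SimpleGraph.fromRel_adj] at this
      rcases this.2 with h | h
      · exact h
      · exact absurd h (by simp)
    have f4 : ∀ (i : Fin us.length) (q : V × Bool), m (.inr (i, true)) = .inl q → q.1 ∈ us[i].2 := by
      rintro i ⟨v, c⟩ hp
      have := ha (.inr (i, true))
      rw [hp, gg, SimpleGraph.fromRel_adj] at this
      rcases this.2 with h | h
      · exact h
      · exact absurd h (by simp)
    let g : Fin us.length × Bool → Option V := fun p =>
      match m (.inr p) with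
      | .inl q => some q.1
      | .inr _ => none
    have g1 : ∀ p q, m (.inr p) = .inl q → g p = some q.1 := by
      intro p q h; simp only [g, h]
    have g2 : ∀ p q, m (.inr p) = .inr q → g p = none := by
      intro p q h; simp only [g, h]
    have g3 : ∀ p v, g p = some v → ∃ c, m (.inr p) = .inl (v, c) := by
      intro p v h
      rcases hq : m (.inr p) with q | q
      · rw [g1 p q hq] at h
        simp only [Option.some.injEq] at h
        exact ⟨q.2, by rw [← h]⟩
      · rw [g2 p q hq] at h; simp at h
    have g4 : ∀ p, g p = none → ∃ q, m (.inr p) = .inr q := by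
      intro p h
      rcases hq : m (.inr p) with q | q
      · rw [g1 p q hq] at h; simp at h
      · exact ⟨q, rfl⟩
    refine ⟨g, ?_, ?_, ?_, ?_⟩
    · have aux : ∀ i b, g (i, b) = none → g (i, !b) = none := by
        intro i b h
        obtain ⟨q, hq⟩ := g4 _ h
        have := f2 i b q hq
        subst this
        refine g2 _ (i, b) ?_
        rw [← hq, hm]
      intro i
      exact ⟨fun h => by simpa using aux i false h, fun h => by simpa using aux i true h⟩
    · intro i v h
      obtain ⟨c, hc⟩ := g3 _ _ h
      exact f3 i (v, c) hc
    · intro i v h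
      obtain ⟨c, hc⟩ := g3 _ _ h
      exact f4 i (v, c) hc
    · intro v
      choose P hP using fun c => f1 v c
      have : ({p | g p = some v} : Finset (Fin us.length × Bool)) = Finset.univ.image P := by
        ext p
        simp only [Finset.mem_filter, Finset.mem_univ, true_and, Finset.mem_image]
        constructor
        · intro h
          obtain ⟨c, hc⟩ := g3 _ _ h
          refine ⟨c, ?_⟩
          have h1 := hP c
          rw [← hc, hm] at h1
          simpa using h1.symm
        · rintro ⟨c, rfl⟩
          refine g1 _ (v, c) ?_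
          rw [← hP c, hm]
      rw [this, Finset.card_image_of_injective]
      · simp [two]
      · intro c c' h
        have h1 := hP c
        have h2 := hP c'
        rw [h, ← h2] at h1
        have h3 := congrArg m h1
        rw [hm, hm] at h3
        simpa using h3

end Pool.Agent.TFC
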