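import Pool.Agent.TFC.CE0
import Pool.Agent.TFC.Mink
import Pool.Agent.TFC.Four

/-!
Conflict elimination: two 2-factors with squares sharing exactly one edge.
-/

set_option autoImplicit false
set_option linter.unusedSectionVars false
set_option linter.unusedSimpArgs false
set_option linter.unusedTactic false

namespace Pool.Agent.TFC.CE

open Finset

variable {V : Type*} [DecidableEq V]

lemma put4 (f : Fin 4 → V) (k : Fin 4 → ℤ) (v : V) :
    put f k v = k 0 * ev (f 0) v + k 1 * ev (f 1) v + k 2 * ev (f 2) v + k 3 * ev (f 3) v := by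
  have h : ∀ i, (if f i = v then k i else 0) = k i * ev (f i) v := by
    intro i
    rw [ev_apply]
    by_cases hv : f i = v
    · simp [hv]
    · rw [if_neg hv, if_neg (fun h => hv h.symm)]; simp
  simp only [put, h, Fin.sum_univ_four]

/-- six different vertices -/
structure Six (x y p q r t : V) : Prop where
  xy : x ≠ y
  xp : x ≠ p
  xq : x ≠ q
  xr : x ≠ r
  xt : x ≠ t
  yp : y ≠ p
  yq : y ≠ q
  yr : y ≠ r
  yt : y ≠ t
  pq : p ≠ q
  pr : p ≠ r
  pt : p ≠ t
  qr : q ≠ r
  qt : q ≠ t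
  rt : r ≠ t

section six

variable {F N : Finset (Sym2 V)} {x y p q r t : V}

/-- the data used for a completion -/
structure Dat (F N : Finset (Sym2 V)) (x y p q r t : V) : Prop where
  hF : TF F
  hN : TF N
  six : Six x y p q r t
  hQF : sq x y q p ⊆ F
  hRN : sq x y r t ⊆ N

/-- outer part with given degrees at `p, q, r, t` -/
def Outer (F N : Finset (Sym2 V)) (x y p q r t : V) (k : Fin 4 → ℤ) : Prop :=
  ∃ O ⊆ (F ∪ N) \ (sq x y q p ∪ sq x y r t), Good (alFN F N) O ∧
    ∀ v, dv O v = 2 - 2 * ev x v - 2 * ev y v + (k 0 - 2) * ev p v + (k 1 - 2) * ev q v +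
      (k 2 - 2) * ev r v + (k 3 - 2) * ev t v

lemma complete (D : Dat F N x y p q r t) {k : Fin 4 → ℤ} (h : Outer F N x y p q r t k)
    (l : List (Sym2 V)) (hn : l.Nodup) (hl : ∀ e ∈ l, ¬ e.IsDiag)
    (hlH : ∀ e ∈ l, e ∈ sq x y q p ∪ sq x y r t)
    (hsum : ∀ v, (l.map esum).sum v = 2 * ev x v + 2 * ev y v + (2 - k 0) * ev p v +
      (2 - k 1) * ev q v + (2 - k 2) * ev r v + (2 - k 3) * ev t v)
    (hno : ∀ O ⊆ (F ∪ N) \ (sq x y q p ∪ sq x y r t), M2 (O ∪ l.toFinset) →
      (∀ v, dv O v = 2 - 2 * ev x v - 2 * ev y v + (k 0 - 2) * ev p v + (k 1 - 2) * ev q v +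
      (k 2 - 2) * ev r v + (k 3 - 2) * ev t v) →
      ∀ a b c d, Sq (O ∪ l.toFinset) a b c d → s(a, b) ∉ l.toFinset) :
    CEConc F N (sq x y q p) (sq x y r t) := by
  obtain ⟨O, hO, hOg, hdv⟩ := h
  have hnl : NoLoop (F ∪ N) := by
    intro e he
    rcases mem_union.mp he with h | h
    · exact D.hF.nl e h
    · exact D.hN.nl e h
  have s6 := D.six
  refine finish (O := O) (P := l.toFinset) (H := sq x y q p ∪ sq x y r t) hO ?_ ?_ hnl hOg ?_
    subset_union_left subset_union_right ?_ ?_ ?_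
  · intro e he
    exact hlH e (List.mem_toFinset.mp he)
  · exact union_subset (D.hQF.trans subset_union_left) (D.hRN.trans subset_union_right)
  · funext v
    rw [Pi.add_apply, dv_list hn hl, hsum v, hdv v]
    simp only [two]
    ring
  · exact ⟨x, y, q, p, ⟨s6.xy, s6.xq, s6.xp, s6.yq, s6.yp, s6.pq.symm⟩, rfl⟩
  · exact ⟨x, y, r, t, ⟨s6.xy, s6.xr, s6.xt, s6.yr, s6.yt, s6.rt⟩, rfl⟩
  · intro hTF
    exact hno O hO hTF.m2 hdv

/-- completion by a connected set with at least five vertices -/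
lemma complete5 (D : Dat F N x y p q r t) {k : Fin 4 → ℤ} (h : Outer F N x y p q r t k)
    (l : List (Sym2 V)) (hn : l.Nodup) (hl : ∀ e ∈ l, ¬ e.IsDiag)
    (hlH : ∀ e ∈ l, e ∈ sq x y q p ∪ sq x y r t)
    (hsum : ∀ v, (l.map esum).sum v = 2 * ev x v + 2 * ev y v + (2 - k 0) * ev p v +
      (2 - k 1) * ev q v + (2 - k 2) * ev r v + (2 - k 3) * ev t v)
    (v : Fin 5 → V) (hv : Function.Injective v) (h01 : s(v 0, v 1) ∈ l) (h12 : s(v 1, v 2) ∈ l)
    (h23 : s(v 2, v 3) ∈ l) (h34 : s(v 3, v 4) ∈ l) (hcov : ∀ e ∈ l, ∃ i, v i ∈ e) :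
    CEConc F N (sq x y q p) (sq x y r t) := by
  refine complete D h l hn hl hlH hsum fun O _ hM _ => ?_
  have hm : ∀ {e}, e ∈ l → e ∈ O ∪ l.toFinset := fun he =>
    mem_union_right _ (List.mem_toFinset.mpr he)
  exact fin5 hM hv (hm h01) (hm h12) (hm h23) (hm h34) fun e he => hcov e (List.mem_toFinset.mp he)


lemma Six.all (h : Six x y p q r t) :
    (x ≠ y ∧ x ≠ p ∧ x ≠ q ∧ x ≠ r ∧ x ≠ t ∧ y ≠ p ∧ y ≠ q ∧ y ≠ r ∧ y ≠ t ∧ p ≠ q ∧ p ≠ r ∧ p ≠ t ∧
      q ≠ r ∧ q ≠ t ∧ r ≠ t) ∧
    (y ≠ x ∧ p ≠ x ∧ q ≠ x ∧ r ≠ x ∧ t ≠ x ∧ p ≠ y ∧ q ≠ y ∧ r ≠ y ∧ t ≠ y ∧ q ≠ p ∧ r ≠ p ∧ t ≠ p ∧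
      r ≠ q ∧ t ≠ q ∧ t ≠ r) :=
  ⟨⟨h.xy, h.xp, h.xq, h.xr, h.xt, h.yp, h.yq, h.yr, h.yt, h.pq, h.pr, h.pt, h.qr, h.qt, h.rt⟩,
    ⟨h.xy.symm, h.xp.symm, h.xq.symm, h.xr.symm, h.xt.symm, h.yp.symm, h.yq.symm, h.yr.symm,
      h.yt.symm, h.pq.symm, h.pr.symm, h.pt.symm, h.qr.symm, h.qt.symm, h.rt.symm⟩⟩

lemma c1100 (D : Dat F N x y p q r t) (h : Outer F N x y p q r t ![1, 1, 0, 0]) :
    CEConc F N (sq x y q p) (sq x y r t) := by
  have s6 := D.six
  refine complete5 D h [s(p, x), s(t, x), s(r, t), s(y, r), s(y, q)] ?_ ?_ ?_ ?_ ![p, x, t, r, y] ?_ ?_ ?_ ?_ ?_ ?_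
  · simp [Sym2.eq_iff, s6.all]
  · simp [Sym2.eq_iff, s6.all]
  · intro e he
    simp only [List.mem_cons, List.not_mem_nil, or_false] at he
    rcases he with he | he | he | he | he <;> subst he <;> simp [sq]
  · intro v
    simp
    ring
  · (intro i j hij; fin_cases i <;> fin_cases j <;> first | rfl | (exfalso; revert hij; simp [Sym2.eq_iff, s6.all]))
  · simp [Sym2.eq_iff, s6.all]
  · simp [Sym2.eq_iff, s6.all]
  · simp [Sym2.eq_iff, s6.all]
  · simp [Sym2.eq_iff, s6.all]
  · intro e he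
    simp only [List.mem_cons, List.not_mem_nil, or_false] at he
    rcases he with he | he | he | he | he <;> subst he <;>
      first | (refine ⟨0, ?_⟩; simp; done) | (refine ⟨1, ?_⟩; simp; done) | (refine ⟨2, ?_⟩; simp; done) |
        (refine ⟨3, ?_⟩; simp; done) | (refine ⟨4, ?_⟩; simp; done)

lemma c0011 (D : Dat F N x y p q r t) (h : Outer F N x y p q r t ![0, 0, 1, 1]) :
    CEConc F N (sq x y q p) (sq x y r t) := by
  have s6 := D.six
  refine complete5 D h [s(t, x), s(p, x), s(q, p), s(y, q), s(y, r)] ?_ ?_ ?_ ?_ ![t, x, p, q, y] ?_ ?_ ?_ ?_ ?_ ?_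
  · simp [Sym2.eq_iff, s6.all]
  · simp [Sym2.eq_iff, s6.all]
  · intro e he
    simp only [List.mem_cons, List.not_mem_nil, or_false] at he
    rcases he with he | he | he | he | he <;> subst he <;> simp [sq]
  · intro v
    simp
    ring
  · (intro i j hij; fin_cases i <;> fin_cases j <;> first | rfl | (exfalso; revert hij; simp [Sym2.eq_iff, s6.all]))
  · simp [Sym2.eq_iff, s6.all]
  · simp [Sym2.eq_iff, s6.all]
  · simp [Sym2.eq_iff, s6.all]
  · simp [Sym2.eq_iff, s6.all]
  · intro e he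
    simp only [List.mem_cons, List.not_mem_nil, or_false] at he
    rcases he with he | he | he | he | he <;> subst he <;>
      first | (refine ⟨0, ?_⟩; simp; done) | (refine ⟨1, ?_⟩; simp; done) | (refine ⟨2, ?_⟩; simp; done) |
        (refine ⟨3, ?_⟩; simp; done) | (refine ⟨4, ?_⟩; simp; done)

lemma c0000 (D : Dat F N x y p q r t) (h : Outer F N x y p q r t ![0, 0, 0, 0]) :
    CEConc F N (sq x y q p) (sq x y r t) := by
  have s6 := D.six
  refine complete5 D h [s(p, x), s(t, x), s(r, t), s(y, r), s(y, q), s(q, p)] ?_ ?_ ?_ ?_ ![p, x, t, r, y] ?_ ?_ ?_ ?_ ?_ ?_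
  · simp [Sym2.eq_iff, s6.all]
  · simp [Sym2.eq_iff, s6.all]
  · intro e he
    simp only [List.mem_cons, List.not_mem_nil, or_false] at he
    rcases he with he | he | he | he | he | he <;> subst he <;> simp [sq]
  · intro v
    simp
    ring
  · (intro i j hij; fin_cases i <;> fin_cases j <;> first | rfl | (exfalso; revert hij; simp [Sym2.eq_iff, s6.all]))
  · simp [Sym2.eq_iff, s6.all]
  · simp [Sym2.eq_iff, s6.all]
  · simp [Sym2.eq_iff, s6.all]
  · simp [Sym2.eq_iff, s6.all]
  · intro e he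
    simp only [List.mem_cons, List.not_mem_nil, or_false] at he
    rcases he with he | he | he | he | he | he <;> subst he <;>
      first | (refine ⟨0, ?_⟩; simp; done) | (refine ⟨1, ?_⟩; simp; done) | (refine ⟨2, ?_⟩; simp; done) |
        (refine ⟨3, ?_⟩; simp; done) | (refine ⟨4, ?_⟩; simp; done)

lemma c1201 (D : Dat F N x y p q r t) (h : Outer F N x y p q r t ![1, 2, 0, 1]) :
    CEConc F N (sq x y q p) (sq x y r t) := by
  have s6 := D.six
  refine complete5 D h [s(r, t), s(y, r), s(x, y), s(p, x)] ?_ ?_ ?_ ?_ ![t, r, y, x, p] ?_ ?_ ?_ ?_ ?_ ?_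
  · simp [Sym2.eq_iff, s6.all]
  · simp [Sym2.eq_iff, s6.all]
  · intro e he
    simp only [List.mem_cons, List.not_mem_nil, or_false] at he
    rcases he with he | he | he | he <;> subst he <;> simp [sq]
  · intro v
    simp
    ring
  · (intro i j hij; fin_cases i <;> fin_cases j <;> first | rfl | (exfalso; revert hij; simp [Sym2.eq_iff, s6.all]))
  · simp [Sym2.eq_iff, s6.all]
  · simp [Sym2.eq_iff, s6.all]
  · simp [Sym2.eq_iff, s6.all]
  · simp [Sym2.eq_iff, s6.all]
  · intro e he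
    simp only [List.mem_cons, List.not_mem_nil, or_false] at he
    rcases he with he | he | he | he <;> subst he <;>
      first | (refine ⟨0, ?_⟩; simp; done) | (refine ⟨1, ?_⟩; simp; done) | (refine ⟨2, ?_⟩; simp; done) |
        (refine ⟨3, ?_⟩; simp; done) | (refine ⟨4, ?_⟩; simp; done)

lemma c2110 (D : Dat F N x y p q r t) (h : Outer F N x y p q r t ![2, 1, 1, 0]) :
    CEConc F N (sq x y q p) (sq x y r t) := by
  have s6 := D.six
  refine complete5 D h [s(r, t), s(t, x), s(x, y), s(y, q)] ?_ ?_ ?_ ?_ ![r, t, x, y, q] ?_ ?_ ?_ ?_ ?_ ?_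
  · simp [Sym2.eq_iff, s6.all]
  · simp [Sym2.eq_iff, s6.all]
  · intro e he
    simp only [List.mem_cons, List.not_mem_nil, or_false] at he
    rcases he with he | he | he | he <;> subst he <;> simp [sq]
  · intro v
    simp
    ring
  · (intro i j hij; fin_cases i <;> fin_cases j <;> first | rfl | (exfalso; revert hij; simp [Sym2.eq_iff, s6.all]))
  · simp [Sym2.eq_iff, s6.all]
  · simp [Sym2.eq_iff, s6.all]
  · simp [Sym2.eq_iff, s6.all]
  · simp [Sym2.eq_iff, s6.all]
  · intro e he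
    simp only [List.mem_cons, List.not_mem_nil, or_false] at he
    rcases he with he | he | he | he <;> subst he <;>
      first | (refine ⟨0, ?_⟩; simp; done) | (refine ⟨1, ?_⟩; simp; done) | (refine ⟨2, ?_⟩; simp; done) |
        (refine ⟨3, ?_⟩; simp; done) | (refine ⟨4, ?_⟩; simp; done)

lemma c1021 (D : Dat F N x y p q r t) (h : Outer F N x y p q r t ![1, 0, 2, 1]) :
    CEConc F N (sq x y q p) (sq x y r t) := by
  have s6 := D.six
  refine complete5 D h [s(q, p), s(y, q), s(x, y), s(t, x)] ?_ ?_ ?_ ?_ ![p, q, y, x, t] ?_ ?_ ?_ ?_ ?_ ?_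
  · simp [Sym2.eq_iff, s6.all]
  · simp [Sym2.eq_iff, s6.all]
  · intro e he
    simp only [List.mem_cons, List.not_mem_nil, or_false] at he
    rcases he with he | he | he | he <;> subst he <;> simp [sq]
  · intro v
    simp
    ring
  · (intro i j hij; fin_cases i <;> fin_cases j <;> first | rfl | (exfalso; revert hij; simp [Sym2.eq_iff, s6.all]))
  · simp [Sym2.eq_iff, s6.all]
  · simp [Sym2.eq_iff, s6.all]
  · simp [Sym2.eq_iff, s6.all]
  · simp [Sym2.eq_iff, s6.all]
  · intro e he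
    simp only [List.mem_cons, List.not_mem_nil, or_false] at he
    rcases he with he | he | he | he <;> subst he <;>
      first | (refine ⟨0, ?_⟩; simp; done) | (refine ⟨1, ?_⟩; simp; done) | (refine ⟨2, ?_⟩; simp; done) |
        (refine ⟨3, ?_⟩; simp; done) | (refine ⟨4, ?_⟩; simp; done)

lemma c0101 (D : Dat F N x y p q r t) (h : Outer F N x y p q r t ![0, 1, 0, 1]) :
    CEConc F N (sq x y q p) (sq x y r t) := by
  have s6 := D.six
  refine complete5 D h [s(q, p), s(p, x), s(x, y), s(y, r), s(r, t)] ?_ ?_ ?_ ?_ ![q, p, x, y, r] ?_ ?_ ?_ ?_ ?_ ?_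
  · simp [Sym2.eq_iff, s6.all]
  · simp [Sym2.eq_iff, s6.all]
  · intro e he
    simp only [List.mem_cons, List.not_mem_nil, or_false] at he
    rcases he with he | he | he | he | he <;> subst he <;> simp [sq]
  · intro v
    simp
    ring
  · (intro i j hij; fin_cases i <;> fin_cases j <;> first | rfl | (exfalso; revert hij; simp [Sym2.eq_iff, s6.all]))
  · simp [Sym2.eq_iff, s6.all]
  · simp [Sym2.eq_iff, s6.all]
  · simp [Sym2.eq_iff, s6.all]
  · simp [Sym2.eq_iff, s6.all]
  · intro e he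
    simp only [List.mem_cons, List.not_mem_nil, or_false] at he
    rcases he with he | he | he | he | he <;> subst he <;>
      first | (refine ⟨0, ?_⟩; simp; done) | (refine ⟨1, ?_⟩; simp; done) | (refine ⟨2, ?_⟩; simp; done) |
        (refine ⟨3, ?_⟩; simp; done) | (refine ⟨4, ?_⟩; simp; done)

lemma c1010 (D : Dat F N x y p q r t) (h : Outer F N x y p q r t ![1, 0, 1, 0]) :
    CEConc F N (sq x y q p) (sq x y r t) := by
  have s6 := D.six
  refine complete5 D h [s(q, p), s(y, q), s(x, y), s(t, x), s(r, t)] ?_ ?_ ?_ ?_ ![p, q, y, x, t] ?_ ?_ ?_ ?_ ?_ ?_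
  · simp [Sym2.eq_iff, s6.all]
  · simp [Sym2.eq_iff, s6.all]
  · intro e he
    simp only [List.mem_cons, List.not_mem_nil, or_false] at he
    rcases he with he | he | he | he | he <;> subst he <;> simp [sq]
  · intro v
    simp
    ring
  · (intro i j hij; fin_cases i <;> fin_cases j <;> first | rfl | (exfalso; revert hij; simp [Sym2.eq_iff, s6.all]))
  · simp [Sym2.eq_iff, s6.all]
  · simp [Sym2.eq_iff, s6.all]
  · simp [Sym2.eq_iff, s6.all]
  · simp [Sym2.eq_iff, s6.all]
  · intro e he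
    simp only [List.mem_cons, List.not_mem_nil, or_false] at he
    rcases he with he | he | he | he | he <;> subst he <;>
      first | (refine ⟨0, ?_⟩; simp; done) | (refine ⟨1, ?_⟩; simp; done) | (refine ⟨2, ?_⟩; simp; done) |
        (refine ⟨3, ?_⟩; simp; done) | (refine ⟨4, ?_⟩; simp; done)

lemma c1122 (D : Dat F N x y p q r t) (h : Outer F N x y p q r t ![1, 1, 2, 2]) :
    CEConc F N (sq x y q p) (sq x y r t) := by
  have s6 := D.six
  refine complete D h [s(p, x), s(x, y), s(y, q)] ?_ ?_ ?_ ?_ ?_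
  · simp [Sym2.eq_iff, s6.all]
  · simp [Sym2.eq_iff, s6.all]
  · intro e he
    simp only [List.mem_cons, List.not_mem_nil, or_false] at he
    rcases he with he | he | he <;> subst he <;> simp [sq]
  · intro v
    simp
    ring
  · intro O hO hM _
    refine fin4 hM (v := ![p, x, y, q]) ?_ ?_ ?_ ?_ ?_ ?_
    · (intro i j hij; fin_cases i <;> fin_cases j <;> first | rfl | (exfalso; revert hij; simp [Sym2.eq_iff, s6.all]))
    · simp [Sym2.eq_iff, s6.all]
    · simp [Sym2.eq_iff, s6.all]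
    · simp [Sym2.eq_iff, s6.all]
    · intro h1
      rcases mem_union.mp h1 with h1 | h1
      · refine (mem_sdiff.mp (hO h1)).2 ?_
        simp [sq]
      · revert h1
        simp [Sym2.eq_iff, s6.all]
    · intro e he
      rw [List.mem_toFinset] at he
      simp only [List.mem_cons, List.not_mem_nil, or_false] at he
      rcases he with he | he | he <;> subst he <;>
        first | (refine ⟨0, ?_⟩; simp; done) | (refine ⟨1, ?_⟩; simp; done) | (refine ⟨2, ?_⟩; simp; done) |
          (refine ⟨3, ?_⟩; simp; done)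

/-- completion for a given outer part -/
lemma completeO (D : Dat F N x y p q r t) {k : Fin 4 → ℤ} {O : Finset (Sym2 V)}
    (hO : O ⊆ (F ∪ N) \ (sq x y q p ∪ sq x y r t)) (hOg : Good (alFN F N) O)
    (hdv : ∀ v, dv O v = 2 - 2 * ev x v - 2 * ev y v + (k 0 - 2) * ev p v + (k 1 - 2) * ev q v +
      (k 2 - 2) * ev r v + (k 3 - 2) * ev t v)
    (l : List (Sym2 V)) (hn : l.Nodup) (hl : ∀ e ∈ l, ¬ e.IsDiag)
    (hlH : ∀ e ∈ l, e ∈ sq x y q p ∪ sq x y r t)
    (hsum : ∀ v, (l.map esum).sum v = 2 * ev x v + 2 * ev y v + (2 - k 0) * ev p v +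
      (2 - k 1) * ev q v + (2 - k 2) * ev r v + (2 - k 3) * ev t v)
    (hno : TF (O ∪ l.toFinset) → ∀ a b c d, Sq (O ∪ l.toFinset) a b c d → s(a, b) ∉ l.toFinset) :
    CEConc F N (sq x y q p) (sq x y r t) := by
  have hnl : NoLoop (F ∪ N) := by
    intro e he
    rcases mem_union.mp he with h | h
    · exact D.hF.nl e h
    · exact D.hN.nl e h
  have s6 := D.six
  refine finish (O := O) (P := l.toFinset) (H := sq x y q p ∪ sq x y r t) hO ?_ ?_ hnl hOg ?_
    subset_union_left subset_union_right ?_ ?_ hno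
  · intro e he
    exact hlH e (List.mem_toFinset.mp he)
  · exact union_subset (D.hQF.trans subset_union_left) (D.hRN.trans subset_union_right)
  · funext v
    rw [Pi.add_apply, dv_list hn hl, hsum v, hdv v]
    simp only [two]
    ring
  · exact ⟨x, y, q, p, ⟨s6.xy, s6.xq, s6.xp, s6.yq, s6.yp, s6.pq.symm⟩, rfl⟩
  · exact ⟨x, y, r, t, ⟨s6.xy, s6.xr, s6.xt, s6.yr, s6.yt, s6.rt⟩, rfl⟩

lemma c1111 (D : Dat F N x y p q r t) (h : Outer F N x y p q r t ![1, 1, 1, 1]) :
    CEConc F N (sq x y q p) (sq x y r t) := by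
  have s6 := D.six
  obtain ⟨O, hO, hOg, hdv⟩ := h
  have hOH : ∀ e ∈ O, e ∉ sq x y q p ∪ sq x y r t := fun e he => (mem_sdiff.mp (hO he)).2
  -- no edge of the outer part at `x` or `y`
  have hx : ∀ m, s(x, m) ∉ O := by
    intro m hm
    have h1 := hdv x
    have h2 : 0 < dg O x := by
      rw [dg, card_pos]
      exact ⟨_, mem_filter.mpr ⟨hm, by simp⟩⟩
    simp [dv_apply, ev_apply, s6.xy, s6.xp, s6.xq, s6.xr, s6.xt, s6.xy.symm, s6.xp.symm, s6.xq.symm,
      s6.xr.symm, s6.xt.symm] at h1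
    omega
  have hy : ∀ m, s(y, m) ∉ O := by
    intro m hm
    have h1 := hdv y
    have h2 : 0 < dg O y := by
      rw [dg, card_pos]
      exact ⟨_, mem_filter.mpr ⟨hm, by simp⟩⟩
    simp [dv_apply, ev_apply, s6.xy, s6.yp, s6.yq, s6.yr, s6.yt, s6.xy.symm, s6.yp.symm, s6.yq.symm,
      s6.yr.symm, s6.yt.symm] at h1
    omega
  -- the second completion
  have second : ∀ m, (s(p, m) ∈ O ∧ s(t, m) ∈ O) ∨ (s(q, m) ∈ O ∧ s(r, m) ∈ O) →
      CEConc F N (sq x y q p) (sq x y r t) := by
    intro m hm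
    refine completeO (k := ![1, 1, 1, 1]) D hO hOg hdv [s(t, x), s(x, y), s(y, r), s(q, p)] ?_ ?_ ?_ ?_ ?_
    · simp [Sym2.eq_iff, s6.all]
    · simp [Sym2.eq_iff, s6.all]
    · intro e he
      simp only [List.mem_cons, List.not_mem_nil, or_false] at he
      rcases he with he | he | he | he <;> subst he <;> simp [sq]
    · intro v
      simp
      ring
    · intro hTF a b c d hs hab
      rw [List.mem_toFinset] at hab
      have hM := hTF.m2
      have f4 := fin4 hM (v := ![t, x, y, r]) (P := {s(t, x), s(x, y), s(y, r)}) (by (intro i j hij; fin_cases i <;> fin_cases j <;> first | rfl | (exfalso; revert hij; simp [Sym2.eq_iff, s6.all])))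
        (by simp [Sym2.eq_iff, s6.all]) (by simp [Sym2.eq_iff, s6.all]) (by simp [Sym2.eq_iff, s6.all]) (by
          intro h1
          rcases mem_union.mp h1 with h1 | h1
          · refine (mem_sdiff.mp (hO h1)).2 ?_
            simp [sq]
          · revert h1
            simp [Sym2.eq_iff, s6.all]) (by
          intro e he
          simp only [mem_insert, mem_singleton] at he
          rcases he with he | he | he <;> subst he <;>
            first | (refine ⟨0, ?_⟩; simp; done) | (refine ⟨1, ?_⟩; simp; done) | (refine ⟨2, ?_⟩; simp; done)) a b c d hs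
      have hab2 : s(a, b) = s(q, p) := by
        simp only [List.mem_cons, List.not_mem_nil, or_false] at hab
        simp only [mem_insert, mem_singleton, not_or] at f4
        tauto
      rcases hm with ⟨h1, h2⟩ | ⟨h1, h2⟩
      · have mx : m ≠ x := by rintro rfl; exact hx p (msw h1)
        have mp : m ≠ p := by rintro rfl; exact (hM.nl.mono subset_union_left).ne h1 rfl
        have mt : m ≠ t := by rintro rfl; exact (hM.nl.mono subset_union_left).ne h2 rfl
        have mq : m ≠ q := by rintro rfl; exact hOH _ h1 (by simp [sq])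
        refine fin5 hM (v := ![q, p, m, t, x]) (P := {s(q, p)}) ?_ ?_ ?_ ?_ ?_ ?_ a b c d hs ?_
        · intro i j hij
          fin_cases i <;> fin_cases j <;> first | rfl | (exfalso; revert hij; simp [mx, mp, mt, mq, mx.symm, mp.symm, mt.symm, mq.symm, s6.all])
        · simp [Sym2.eq_iff, s6.all]
        · exact mem_union_left _ h1
        · exact mem_union_left _ (msw h2)
        · simp [Sym2.eq_iff, s6.all]
        · intro e he
          rw [mem_singleton] at he
          subst he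
          exact ⟨0, by simp⟩
        · rw [hab2]; simp
      · have my : m ≠ y := by rintro rfl; exact hy q (msw h1)
        have mq : m ≠ q := by rintro rfl; exact (hM.nl.mono subset_union_left).ne h1 rfl
        have mr : m ≠ r := by rintro rfl; exact (hM.nl.mono subset_union_left).ne h2 rfl
        have mp : m ≠ p := by rintro rfl; exact hOH _ h1 (by simp [sq])
        refine fin5 hM (v := ![p, q, m, r, y]) (P := {s(q, p)}) ?_ ?_ ?_ ?_ ?_ ?_ a b c d hs ?_
        · intro i j hij
          fin_cases i <;> fin_cases j <;> first | rfl | (exfalso; revert hij; simp [my, mp, mr, mq, my.symm, mp.symm, mr.symm, mq.symm, s6.all])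
        · simp [Sym2.eq_iff, s6.all]
        · exact mem_union_left _ h1
        · exact mem_union_left _ (msw h2)
        · simp [Sym2.eq_iff, s6.all]
        · intro e he
          rw [mem_singleton] at he
          subst he
          exact ⟨0, by simp⟩
        · rw [hab2]; simp
  by_cases hsec : ∃ m, (s(p, m) ∈ O ∧ s(t, m) ∈ O) ∨ (s(q, m) ∈ O ∧ s(r, m) ∈ O)
  · obtain ⟨m, hm⟩ := hsec
    exact second m hm
  · refine completeO (k := ![1, 1, 1, 1]) D hO hOg hdv [s(t, x), s(p, x), s(y, r), s(y, q)] ?_ ?_ ?_ ?_ ?_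
    · simp [Sym2.eq_iff, s6.all]
    · simp [Sym2.eq_iff, s6.all]
    · intro e he
      simp only [List.mem_cons, List.not_mem_nil, or_false] at he
      rcases he with he | he | he | he <;> subst he <;> simp [sq]
    · intro v
      simp
      ring
    · intro hTF a b c d hs hab
      rw [List.mem_toFinset] at hab
      have hM := hTF.m2
      -- no square contains `x`
      have nx : ¬ (x = a ∨ x = b ∨ x = c ∨ x = d) := by
        intro hxm
        obtain ⟨m, hmx, h1, h2⟩ := hs.opp hM (u := x) (v := p) (w := t) hxm (by simp [Sym2.eq_iff, s6.all]) (by simp [Sym2.eq_iff, s6.all]) s6.pt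
        refine hsec ⟨m, Or.inl ⟨?_, ?_⟩⟩
        · refine (mem_union.mp h1).resolve_right fun h3 => ?_
          revert h3
          simp [Sym2.eq_iff, s6.all]
          exact hmx
        · refine (mem_union.mp h2).resolve_right fun h3 => ?_
          revert h3
          simp [Sym2.eq_iff, s6.all]
          exact hmx
      have ny : ¬ (y = a ∨ y = b ∨ y = c ∨ y = d) := by
        intro hym
        obtain ⟨m, hmy, h1, h2⟩ := hs.opp hM (u := y) (v := q) (w := r) hym (by simp [Sym2.eq_iff, s6.all]) (by simp [Sym2.eq_iff, s6.all]) s6.qr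
        refine hsec ⟨m, Or.inr ⟨?_, ?_⟩⟩
        · refine (mem_union.mp h1).resolve_right fun h3 => ?_
          revert h3
          simp [Sym2.eq_iff, s6.all]
          exact hmy
        · refine (mem_union.mp h2).resolve_right fun h3 => ?_
          revert h3
          simp [Sym2.eq_iff, s6.all]
          exact hmy
      simp only [List.mem_cons, List.not_mem_nil, or_false, Sym2.eq_iff] at hab
      rcases hab with (⟨h1, h2⟩ | ⟨h1, h2⟩) | (⟨h1, h2⟩ | ⟨h1, h2⟩) | (⟨h1, h2⟩ | ⟨h1, h2⟩) | (⟨h1, h2⟩ | ⟨h1, h2⟩)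
      · exact nx (Or.inr (Or.inl h2.symm))
      · exact nx (Or.inl h1.symm)
      · exact nx (Or.inr (Or.inl h2.symm))
      · exact nx (Or.inl h1.symm)
      · exact ny (Or.inl h1.symm)
      · exact ny (Or.inr (Or.inl h2.symm))
      · exact ny (Or.inl h1.symm)
      · exact ny (Or.inr (Or.inl h2.symm))

end six

end Pool.Agent.TFC.CE
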