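import Pool.Agent.TFC.Defs

/-!
Elementary facts on degrees and squares.
-/

set_option autoImplicit false
set_option linter.unusedSectionVars false

namespace Pool.Agent.TFC

open Finset

variable {V : Type*} [DecidableEq V]

lemma dg_insert {z : Finset (Sym2 V)} {e : Sym2 V} (he : e ∉ z) (v : V) :
    dg (insert e z) v = dg z v + if v ∈ e then 1 else 0 := by
  unfold dg
  rw [filter_insert]
  split_ifs with h
  · rw [card_insert_of_notMem]
    intro h'
    exact he (mem_of_mem_filter _ h')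
  · simp

lemma dg_erase {z : Finset (Sym2 V)} {e : Sym2 V} (he : e ∈ z) (v : V) :
    dg (z.erase e) v + (if v ∈ e then 1 else 0) = dg z v := by
  have := dg_insert (notMem_erase e z) v
  rw [insert_erase he] at this
  exact this.symm

lemma msw {z : Finset (Sym2 V)} {a b : V} (h : s(a, b) ∈ z) : s(b, a) ∈ z := by
  rw [Sym2.eq_swap]; exact h

lemma ev_apply (a v : V) : ev a v = if v = a then 1 else 0 := by
  unfold ev
  by_cases h : v = a
  · subst h; simp
  · simp [h]

lemma ev_self (a : V) : ev a a = 1 := by simp [ev]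

lemma ev_ne {a v : V} (h : v ≠ a) : ev a v = 0 := by simp [ev_apply, h]

lemma dv_insert {z : Finset (Sym2 V)} {a b : V} (hab : a ≠ b) (h : s(a, b) ∉ z) :
    dv (insert s(a, b) z) = dv z + ev a + ev b := by
  funext v
  simp only [dv, Pi.add_apply, dg_insert h, ev_apply, Sym2.mem_iff]
  by_cases h1 : v = a
  · subst h1
    simp [hab]
  · by_cases h2 : v = b
    · subst h2
      simp [h1]
    · simp [h1, h2]

lemma dv_erase {z : Finset (Sym2 V)} {a b : V} (hab : a ≠ b) (h : s(a, b) ∈ z) :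
    dv (z.erase s(a, b)) = dv z - ev a - ev b := by
  have := dv_insert hab (notMem_erase s(a, b) z)
  rw [insert_erase h] at this
  rw [this]
  abel

lemma dv_apply (z : Finset (Sym2 V)) (v : V) : dv z v = (dg z v : ℤ) := rfl

lemma NoLoop.ne {z : Finset (Sym2 V)} (hz : NoLoop z) {a b : V} (h : s(a, b) ∈ z) : a ≠ b := by
  intro hab
  exact hz _ h (by simpa using hab)

lemma NoLoop.mono {z z' : Finset (Sym2 V)} (hz : NoLoop z') (h : z ⊆ z') : NoLoop z :=
  fun e he => hz e (h he)

lemma NoLoop.insert {z : Finset (Sym2 V)} (hz : NoLoop z) {a b : V} (h : a ≠ b) :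
    NoLoop (insert s(a, b) z) := by
  intro e he
  rw [mem_insert] at he
  rcases he with rfl | he
  · simpa using h
  · exact hz e he

lemma dg_mono {z z' : Finset (Sym2 V)} (h : z ⊆ z') (v : V) : dg z v ≤ dg z' v :=
  card_le_card (filter_subset_filter _ h)

lemma M2.mono {z z' : Finset (Sym2 V)} (hz : M2 z') (h : z ⊆ z') : M2 z :=
  ⟨hz.nl.mono h, fun v => (dg_mono h v).trans (hz.le v)⟩

/-- the neighbours of `v` -/
lemma dg_pos {z : Finset (Sym2 V)} {v a : V} (h : s(v, a) ∈ z) : 1 ≤ dg z v := by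
  unfold dg
  exact card_pos.mpr ⟨s(v, a), by simp [h]⟩

lemma sym2_inj_left {v a b : V} (h : s(v, a) = s(v, b)) : a = b := Sym2.congr_right.mp h

lemma nbr_unique {z : Finset (Sym2 V)} {v a b : V} (hd : dg z v ≤ 1) (ha : s(v, a) ∈ z)
    (hb : s(v, b) ∈ z) : a = b := by
  unfold dg at hd
  have := card_le_one.mp hd s(v, a) (by simp [ha]) s(v, b) (by simp [hb])
  exact sym2_inj_left this

lemma dg_ge_two {z : Finset (Sym2 V)} {v a b : V} (ha : s(v, a) ∈ z)
    (hb : s(v, b) ∈ z) (hab : a ≠ b) : 2 ≤ dg z v := by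
  by_contra h
  exact hab (nbr_unique (by omega) ha hb)

lemma nbr_two {z : Finset (Sym2 V)} {v a b c : V} (hd : dg z v ≤ 2) (ha : s(v, a) ∈ z)
    (hb : s(v, b) ∈ z) (hab : a ≠ b) (hc : s(v, c) ∈ z) : c = a ∨ c = b := by
  by_contra h
  push Not at h
  have h3 : ({s(v, a), s(v, b), s(v, c)} : Finset (Sym2 V)) ⊆ {e ∈ z | v ∈ e} := by
    intro e he
    simp only [mem_insert, mem_singleton] at he
    rcases he with rfl | rfl | rfl <;> simp [ha, hb, hc]
  have h4 := card_le_card h3
  have h5 : #({s(v, a), s(v, b), s(v, c)} : Finset (Sym2 V)) = 3 := by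
    rw [card_insert_of_notMem, card_insert_of_notMem, card_singleton]
    · simp only [mem_singleton]
      intro h'
      exact h.2 (sym2_inj_left h').symm
    · simp only [mem_insert, mem_singleton]
      rintro (h' | h')
      · exact hab (sym2_inj_left h')
      · exact h.1 (sym2_inj_left h').symm
  unfold dg at hd
  omega

lemma exists_nbr_notMem {z z' : Finset (Sym2 V)} {v : V} (h : dg z v < dg z' v) :
    ∃ c, s(v, c) ∈ z' ∧ s(v, c) ∉ z := by
  by_contra hc
  push Not at hc
  have : {e ∈ z' | v ∈ e} ⊆ {e ∈ z | v ∈ e} := by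
    intro e he
    rw [mem_filter] at he ⊢
    obtain ⟨c, rfl⟩ := he.2
    exact ⟨hc c he.1, he.2⟩
  exact absurd (card_le_card this) (not_le.mpr h)

lemma exists_nbr_ne {z : Finset (Sym2 V)} {v : V} (h : 2 ≤ dg z v) (a : V) :
    ∃ c, c ≠ a ∧ s(v, c) ∈ z := by
  by_contra hc
  push Not at hc
  have : {e ∈ z | v ∈ e} ⊆ {s(v, a)} := by
    intro e he
    rw [mem_filter] at he
    obtain ⟨c, rfl⟩ := he.2
    by_cases hca : c = a
    · subst hca; simp
    · exact absurd he.1 (hc c hca)
  have h1 := card_le_card this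
  rw [card_singleton] at h1
  unfold dg at h
  omega

lemma exists_nbr {z : Finset (Sym2 V)} {v : V} (h : 1 ≤ dg z v) : ∃ c, s(v, c) ∈ z := by
  unfold dg at h
  obtain ⟨e, he⟩ := card_pos.mp h
  rw [mem_filter] at he
  obtain ⟨c, rfl⟩ := he.2
  exact ⟨c, he.1⟩

namespace Sq

variable {z z' : Finset (Sym2 V)} {a b c d : V}

lemma mono (h : Sq z a b c d) (hz : z ⊆ z') : Sq z' a b c d :=
  ⟨h.ac, h.bd, hz h.ab, hz h.bc, hz h.cd, hz h.da⟩

lemma rot (h : Sq z a b c d) : Sq z b c d a :=
  ⟨h.bd, h.ac.symm, h.bc, h.cd, h.da, h.ab⟩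

lemma ref (h : Sq z a b c d) : Sq z d c b a :=
  ⟨h.bd.symm, h.ac.symm, by rw [Sym2.eq_swap]; exact h.cd, by rw [Sym2.eq_swap]; exact h.bc,
    by rw [Sym2.eq_swap]; exact h.ab, by rw [Sym2.eq_swap]; exact h.da⟩

lemma dist4 (h : Sq z a b c d) (hz : NoLoop z) : Dist4 a b c d :=
  ⟨hz.ne h.ab, h.ac, (hz.ne h.da).symm, hz.ne h.bc, h.bd, hz.ne h.cd⟩

end Sq

/-- a square of `insert s(x, y) z` is a square of `z` or (up to symmetry) contains the new edge as
its first edge -/
lemma good_insert {al : V → V → V → V → Prop} (hal : AlSym al) {z : Finset (Sym2 V)} {x y : V}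
    (hz : Good al z) (h : ∀ p q, Sq (insert s(x, y) z) x y p q → al x y p q) :
    Good al (insert s(x, y) z) := by
  have key : ∀ a b c d, Sq (insert s(x, y) z) a b c d → s(a, b) = s(x, y) → al a b c d := by
    intro a b c d hs he
    rw [Sym2.eq_iff] at he
    rcases he with ⟨rfl, rfl⟩ | ⟨rfl, rfl⟩
    · exact h c d hs
    · have h1 : Sq (insert s(b, a) z) b a d c := hs.ref.rot.rot
      have h2 := h d c h1
      have h3 := hal.ref _ _ _ _ h2
      exact hal.rot _ _ _ _ (hal.rot _ _ _ _ h3)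
  intro a b c d hs
  by_cases h1 : s(a, b) = s(x, y)
  · exact key a b c d hs h1
  by_cases h2 : s(b, c) = s(x, y)
  · have := key b c d a hs.rot h2
    exact hal.rot _ _ _ _ (hal.rot _ _ _ _ (hal.rot _ _ _ _ this))
  by_cases h3 : s(c, d) = s(x, y)
  · have := key c d a b hs.rot.rot h3
    exact hal.rot _ _ _ _ (hal.rot _ _ _ _ this)
  by_cases h4 : s(d, a) = s(x, y)
  · have := key d a b c hs.rot.rot.rot h4
    exact hal.rot _ _ _ _ this
  · exact hz a b c d ⟨hs.ac, hs.bd, (mem_insert.mp hs.ab).resolve_left h1,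
      (mem_insert.mp hs.bc).resolve_left h2, (mem_insert.mp hs.cd).resolve_left h3,
      (mem_insert.mp hs.da).resolve_left h4⟩

lemma Good.mono {al : V → V → V → V → Prop} {z z' : Finset (Sym2 V)} (hz : Good al z')
    (h : z ⊆ z') : Good al z := fun a b c d hs => hz a b c d (hs.mono h)

/-- a 2-matching in terms of the degree vector -/
lemma M2.of_dv {z : Finset (Sym2 V)} (hn : NoLoop z) (h : ∀ v, dv z v ≤ 2) : M2 z :=
  ⟨hn, fun v => by have := h v; rw [dv_apply] at this; exact_mod_cast this⟩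

end Pool.Agent.TFC
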