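import Pool.Agent.TFC.CE3

/-!
Theorem of Helly type: a set of squares which meets all 2-factors has a subset which meets all
2-factors and in which no two squares share exactly one edge.
-/

set_option autoImplicit false
set_option linter.unusedSectionVars false

namespace Pool.Agent.TFC

open Finset

variable {V : Type*} [DecidableEq V]

/-- `helly`, from conflict elimination.  With `conflict_elim` in scope:
`theorem helly (E) (S) (hS) (h) := helly_of (fun hF hN _ _ hQ hR hQF hRN h1 =>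
  conflict_elim hF hN hQ hR hQF hRN h1) E S hS h`. -/
theorem helly_of
    (hCE : ∀ {F N : Finset (Sym2 V)}, TF F → TF N → ∀ (Q R : Finset (Sym2 V)),
      IsSq Q → IsSq R → Q ⊆ F → R ⊆ N → #(Q ∩ R) = 1 →
      ∃ M ⊆ F ∪ N, TF M ∧ ¬ Q ⊆ M ∧ ¬ R ⊆ M ∧ ∀ Z, IsSq Z → Z ⊆ M → Z ⊆ F ∨ Z ⊆ N)
    (E : Finset (Sym2 V)) (S : Finset (Finset (Sym2 V))) (hS : ∀ Q ∈ S, IsSq Q)
    (h : ∀ F ⊆ E, TF F → ∃ Q ∈ S, Q ⊆ F) :
    ∃ D ⊆ S, (∀ F ⊆ E, TF F → ∃ Q ∈ D, Q ⊆ F) ∧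
      ∀ Q ∈ D, ∀ R ∈ D, Q ≠ R → #(Q ∩ R) ≠ 1 := by
  classical
  have hne : (S.powerset.filter fun D => ∀ F ⊆ E, TF F → ∃ Q ∈ D, Q ⊆ F).Nonempty :=
    ⟨S, mem_filter.mpr ⟨mem_powerset.mpr Subset.rfl, h⟩⟩
  obtain ⟨D, hD, hmin⟩ := exists_min_image _ card hne
  rw [mem_filter, mem_powerset] at hD
  obtain ⟨hDS, hDh⟩ := hD
  -- a member of `D` is the only one in some 2-factor
  have key : ∀ Q ∈ D, ∃ F ⊆ E, TF F ∧ Q ⊆ F ∧ ∀ Z ∈ D, Z ⊆ F → Z = Q := by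
    intro Q hQ
    have hnot : ¬ ∀ F ⊆ E, TF F → ∃ Z ∈ D.erase Q, Z ⊆ F := by
      intro hall
      have h1 := hmin (D.erase Q) (mem_filter.mpr
        ⟨mem_powerset.mpr ((erase_subset _ _).trans hDS), hall⟩)
      have h2 := card_erase_lt_of_mem hQ
      omega
    push Not at hnot
    obtain ⟨F, hFE, hF, hFD⟩ := hnot
    obtain ⟨Z, hZ, hZF⟩ := hDh F hFE hF
    have only : ∀ Z ∈ D, Z ⊆ F → Z = Q := by
      intro Z hZ hZF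
      by_contra hne
      exact hFD Z (mem_erase.mpr ⟨hne, hZ⟩) hZF
    have hZQ := only Z hZ hZF
    subst hZQ
    exact ⟨F, hFE, hF, hZF, only⟩
  refine ⟨D, hDS, hDh, ?_⟩
  intro Q hQ R hR _ h1
  obtain ⟨F, hFE, hF, hQF, hFo⟩ := key Q hQ
  obtain ⟨N, hNE, hN, hRN, hNo⟩ := key R hR
  obtain ⟨M, hM, hMT, hQM, hRM, hall⟩ := hCE hF hN Q R (hS Q (hDS hQ)) (hS R (hDS hR)) hQF hRN h1
  obtain ⟨Z, hZ, hZM⟩ := hDh M (hM.trans (union_subset hFE hNE)) hMT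
  rcases hall Z (hS Z (hDS hZ)) hZM with h2 | h2
  · have h3 := hFo Z hZ h2
    subst h3
    exact hQM hZM
  · have h3 := hNo Z hZ h2
    subst h3
    exact hRM hZM

/-- **Theorem 3** (Helly type) -/
theorem helly (E : Finset (Sym2 V)) (S : Finset (Finset (Sym2 V))) (hS : ∀ Q ∈ S, IsSq Q)
    (h : ∀ F ⊆ E, TF F → ∃ Q ∈ S, Q ⊆ F) :
    ∃ D ⊆ S, (∀ F ⊆ E, TF F → ∃ Q ∈ D, Q ⊆ F) ∧ ∀ Q ∈ D, ∀ R ∈ D, Q ≠ R → #(Q ∩ R) ≠ 1 :=
  helly_of (fun hF hN _ _ hQ hR hQF hRN h1 => conflict_elim hF hN hQ hR hQF hRN h1) E S hS h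

end Pool.Agent.TFC
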