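import Pool.Agent.TFC.Deg

/-!
The exchange theorem for 2-matchings all of whose squares are allowed.
-/

set_option autoImplicit false
set_option linter.unusedSectionVars false

namespace Pool.Agent.TFC

open Finset

variable {V : Type*} [DecidableEq V]

lemma card_dist_insert {L K : Finset (Sym2 V)} {e : Sym2 V} (h1 : e ∈ K) (h2 : e ∉ L) :
    #(insert e L \ K) + #(K \ insert e L) + 1 = #(L \ K) + #(K \ L) := by
  have e1 : insert e L \ K = L \ K := by
    rw [insert_sdiff_of_mem _ h1]
  have e2 : K \ insert e L = (K \ L).erase e := by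
    rw [sdiff_insert]
  rw [e1, e2, add_assoc, card_erase_add_one (mem_sdiff.mpr ⟨h1, h2⟩)]

lemma card_dist_erase {L K : Finset (Sym2 V)} {e : Sym2 V} (h1 : e ∉ K) (h2 : e ∈ L) :
    #(L.erase e \ K) + #(K \ L.erase e) + 1 = #(L \ K) + #(K \ L) := by
  have e1 : L.erase e \ K = (L \ K).erase e := by
    rw [erase_sdiff_comm]
  have e2 : K \ L.erase e = K \ L := by
    ext f
    simp only [mem_sdiff, mem_erase, not_and]
    constructor
    · rintro ⟨hf, h⟩
      exact ⟨hf, fun h' => h (fun h'' => h1 (h'' ▸ hf)) h'⟩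
    · rintro ⟨hf, h⟩
      exact ⟨hf, fun _ h' => h h'⟩
  rw [e1, e2, add_right_comm, card_erase_add_one (mem_sdiff.mpr ⟨h2, h1⟩)]

lemma card_dist_erase' {L K : Finset (Sym2 V)} {e : Sym2 V} (h1 : e ∈ K) (h2 : e ∈ L) :
    #(L.erase e \ K) + #(K \ L.erase e) = #(L \ K) + #(K \ L) + 1 := by
  have := card_dist_insert (L := L.erase e) h1 (notMem_erase e L)
  rw [insert_erase h2] at this
  omega

/-- the conclusion of Lemma W -/
def WConc (al : V → V → V → V → Prop) (K : Finset (Sym2 V)) (τ : V → ℤ) (L : Finset (Sym2 V)) :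
    Prop :=
  ∃ M ⊆ L ∪ K, M2 M ∧ Good al M ∧
    ((∃ w, dv M = τ - ev w ∧ dv K w < τ w) ∨ (∃ c, dv M = τ + ev c ∧ τ c < dv K c))

lemma WConc.mono {al : V → V → V → V → Prop} {K : Finset (Sym2 V)} {τ : V → ℤ}
    {L L' : Finset (Sym2 V)} (h : WConc al K τ L') (hL : L' ⊆ L ∪ K) : WConc al K τ L := by
  obtain ⟨M, hM, h2⟩ := h
  refine ⟨M, hM.trans ?_, h2⟩
  exact union_subset hL subset_union_right

variable {al : V → V → V → V → Prop}

lemma M2.of_tau {M : Finset (Sym2 V)} (hn : NoLoop M) {τ : V → ℤ} (hτ : ∀ v, τ v ≤ 2) {w : V}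
    (h : dv M = τ - ev w) : M2 M := by
  refine M2.of_dv hn fun v => ?_
  rw [h, Pi.sub_apply, ev_apply]
  have := hτ v
  split_ifs <;> omega

/-- Case A of Lemma W: the edge `zc` can be added without creating a bad square. -/
lemma caseA (hal : AlSym al) {K : Finset (Sym2 V)} (hK : M2 K) {τ : V → ℤ} (hτ : ∀ v, τ v ≤ 2)
    {n : ℕ} (ih : ∀ (L : Finset (Sym2 V)) (z : V), #(L \ K) + #(K \ L) < n → M2 L → Good al L →
      dv L = τ - ev z → WConc al K τ L)
    {L : Finset (Sym2 V)} {z c : V} (hn : #(L \ K) + #(K \ L) ≤ n) (hL : M2 L)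
    (hd : dv L = τ - ev z) (hzK : s(z, c) ∈ K) (hzL : s(z, c) ∉ L)
    (hg : Good al (insert s(z, c) L)) : WConc al K τ L := by
  have hzc : z ≠ c := hK.nl.ne hzK
  have hd1 : dv (insert s(z, c) L) = τ + ev c := by
    rw [dv_insert hzc hzL, hd]; abel
  have hnl : NoLoop (insert s(z, c) L) := hL.nl.insert hzc
  have hsub : insert s(z, c) L ⊆ L ∪ K := by
    intro e he
    rw [mem_insert] at he
    rcases he with rfl | he
    · exact mem_union_right _ hzK
    · exact mem_union_left _ he
  by_cases h1 : τ c < dv K c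
  · refine ⟨insert s(z, c) L, hsub, ?_, hg, Or.inr ⟨c, hd1, h1⟩⟩
    refine M2.of_dv hnl fun v => ?_
    rw [hd1, Pi.add_apply, ev_apply]
    have hKc := hK.le c
    rw [dv_apply] at h1
    split_ifs with hv
    · subst hv; omega
    · have := hτ v; omega
  · push Not at h1
    have h2 : dg K c < dg (insert s(z, c) L) c := by
      have h3 : dv (insert s(z, c) L) c = τ c + 1 := by rw [hd1, Pi.add_apply, ev_self]
      rw [dv_apply] at h1 h3
      omega
    obtain ⟨w, hw1, hw2⟩ := exists_nbr_notMem h2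
    have hcw : c ≠ w := hnl.ne hw1
    have hwz : w ≠ z := by
      rintro rfl
      rw [Sym2.eq_swap] at hw2
      exact hw2 hzK
    have hd2 : dv ((insert s(z, c) L).erase s(c, w)) = τ - ev w := by
      rw [dv_erase hcw hw1, hd1]; abel
    have hsub2 : (insert s(z, c) L).erase s(c, w) ⊆ L ∪ K := (erase_subset _ _).trans hsub
    have hnl2 : NoLoop ((insert s(z, c) L).erase s(c, w)) := hnl.mono (erase_subset _ _)
    refine WConc.mono (ih _ w ?_ (M2.of_tau hnl2 hτ hd2) (hg.mono (erase_subset _ _)) hd2) hsub2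
    have e1 := card_dist_insert hzK hzL
    have e2 := card_dist_erase hw2 hw1
    omega

theorem lemW_aux (hal : AlSym al) {K : Finset (Sym2 V)} (hK : M2 K) (hKg : Good al K)
    {τ : V → ℤ} (hτ : ∀ v, τ v ≤ 2) (n : ℕ) :
    ∀ (L : Finset (Sym2 V)) (z : V), #(L \ K) + #(K \ L) ≤ n → M2 L → Good al L →
      dv L = τ - ev z → WConc al K τ L := by
  induction n using Nat.strong_induction_on with
  | _ n ih =>
  intro L z hn hL hLg hd
  have ih' : ∀ (L : Finset (Sym2 V)) (z : V), #(L \ K) + #(K \ L) < n → M2 L → Good al L →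
      dv L = τ - ev z → WConc al K τ L := fun L z h => ih _ h L z le_rfl
  by_cases h0 : dv K z < τ z
  · exact ⟨L, subset_union_left, hL, hLg, Or.inl ⟨z, hd, h0⟩⟩
  push Not at h0
  have hdz : dv L z = τ z - 1 := by rw [hd, Pi.sub_apply, ev_self]
  have hlt : dg L z < dg K z := by
    rw [dv_apply] at hdz h0
    omega
  obtain ⟨c, hcK, hcL⟩ := exists_nbr_notMem hlt
  have hzc : z ≠ c := hK.nl.ne hcK
  by_cases hB : ∀ p q, Sq (insert s(z, c) L) z c p q → al z c p q
  · exact caseA hal hK hτ ih' hn hL hd hcK hcL (good_insert hal hLg hB)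
  push Not at hB
  obtain ⟨c2, t, hX, hbad⟩ := hB
  have hnl1 : NoLoop (insert s(z, c) L) := hL.nl.insert hzc
  have hD := hX.dist4 hnl1
  obtain ⟨-, hzc2, hzt, hcc2, hct, hc2t⟩ := hD
  -- the three other edges are in L
  have m1 : s(c, c2) ∈ L := by
    refine (mem_insert.mp hX.bc).resolve_left fun h => ?_
    rw [Sym2.eq_iff] at h
    rcases h with ⟨h, -⟩ | ⟨-, h⟩
    · exact hzc h.symm
    · exact hzc2 h.symm
  have m2 : s(c2, t) ∈ L := by
    refine (mem_insert.mp hX.cd).resolve_left fun h => ?_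
    rw [Sym2.eq_iff] at h
    rcases h with ⟨h, -⟩ | ⟨h, -⟩
    · exact hzc2 h.symm
    · exact hcc2 h.symm
  have m3 : s(t, z) ∈ L := by
    refine (mem_insert.mp hX.da).resolve_left fun h => ?_
    rw [Sym2.eq_iff] at h
    rcases h with ⟨h, -⟩ | ⟨h, -⟩
    · exact hzt h.symm
    · exact hct h.symm
  have m1' : s(c2, c) ∈ L := by rw [Sym2.eq_swap]; exact m1
  have m2' : s(t, c2) ∈ L := by rw [Sym2.eq_swap]; exact m2
  have m3' : s(z, t) ∈ L := by rw [Sym2.eq_swap]; exact m3
  have hzle : dg L z ≤ 1 := by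
    have := hτ z
    rw [dv_apply] at hdz
    omega
  have hτz : τ z = 2 := by
    have h1 := dg_pos m3'
    have := hτ z
    rw [dv_apply] at hdz
    omega
  have nz : ∀ u, s(z, u) ∈ L → u = t := fun u hu => nbr_unique hzle hu m3'
  have nt : ∀ u, s(t, u) ∈ L → u = z ∨ u = c2 := fun u hu =>
    nbr_two (hL.le t) m3 m2' (Ne.symm hzc2.symm) hu
  have nc2 : ∀ u, s(c2, u) ∈ L → u = t ∨ u = c := fun u hu =>
    nbr_two (hL.le c2) m2 m1' (Ne.symm hct) hu
  have hzK2 : dg K z = 2 := by
    have := hK.le z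
    rw [dv_apply] at h0
    omega
  -- squares of `insert s(z, c) L` through `s(z, c)` are the one we found
  have uniq : ∀ p q, Sq (insert s(z, c) L) z c p q → p = c2 ∧ q = t := by
    intro p q hs
    have hD' := hs.dist4 hnl1
    obtain ⟨-, hzp, hzq, hcp, hcq, hpq⟩ := hD'
    have k3 : s(z, q) ∈ L := by
      have := msw hs.da
      refine (mem_insert.mp this).resolve_left fun h => hcq (sym2_inj_left h).symm
    have hq : q = t := nz q k3
    subst hq
    have k2 : s(q, p) ∈ L := by
      have := msw hs.cd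
      refine (mem_insert.mp this).resolve_left fun h => ?_
      rw [Sym2.eq_iff] at h
      rcases h with ⟨h, -⟩ | ⟨-, h⟩
      · exact hzq h.symm
      · exact hzp h.symm
    rcases nt p k2 with h | h
    · exact absurd h.symm hzp
    · exact ⟨h, rfl⟩
  -- removing `s(c, c2)` destroys all bad squares
  have hc2mem : s(c, c2) ∈ insert s(z, c) L := mem_insert_of_mem m1
  have hg2 : Good al ((insert s(z, c) L).erase s(c, c2)) := by
    have hne : s(z, c) ≠ s(c, c2) := by
      intro h
      rw [Sym2.eq_iff] at h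
      rcases h with ⟨h, -⟩ | ⟨h, -⟩
      · exact hzc h
      · exact hzc2 h
    have e : (insert s(z, c) L).erase s(c, c2) = insert s(z, c) (L.erase s(c, c2)) := by
      rw [erase_insert_of_ne hne]
    rw [e]
    refine good_insert hal (hLg.mono (erase_subset _ _)) ?_
    intro p q hs
    have hs' : Sq (insert s(z, c) L) z c p q := hs.mono (insert_subset_insert _ (erase_subset _ _))
    obtain ⟨rfl, rfl⟩ := uniq p q hs'
    have := hs.bc
    rw [← e] at this
    exact absurd this (notMem_erase _ _)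
  have hd1 : dv (insert s(z, c) L) = τ + ev c := by
    rw [dv_insert hzc hcL, hd]; abel
  have hd2 : dv ((insert s(z, c) L).erase s(c, c2)) = τ - ev c2 := by
    rw [dv_erase hcc2 hc2mem, hd1]; abel
  have hsub1 : insert s(z, c) L ⊆ L ∪ K := by
    intro e he
    rw [mem_insert] at he
    rcases he with rfl | he
    · exact mem_union_right _ hcK
    · exact mem_union_left _ he
  have hsub2 : (insert s(z, c) L).erase s(c, c2) ⊆ L ∪ K := (erase_subset _ _).trans hsub1
  have hnl2 : NoLoop ((insert s(z, c) L).erase s(c, c2)) := hnl1.mono (erase_subset _ _)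
  have hM2 : M2 ((insert s(z, c) L).erase s(c, c2)) := M2.of_tau hnl2 hτ hd2
  by_cases hcK2 : s(c, c2) ∈ K
  swap
  · -- case (a)
    refine WConc.mono (ih' _ c2 ?_ hM2 hg2 hd2) hsub2
    have e1 := card_dist_insert hcK hcL
    have e2 := card_dist_erase hcK2 hc2mem
    omega
  by_cases htK : s(z, t) ∈ K
  swap
  · -- case (b)
    obtain ⟨c', hc'c, hc'K⟩ := exists_nbr_ne (z := K) (v := z) (by omega) c
    have hc't : c' ≠ t := by rintro rfl; exact htK hc'K
    have hc'L : s(z, c') ∉ L := fun h => hc't (nz c' h)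
    refine caseA hal hK hτ ih' hn hL hd hc'K hc'L (good_insert hal hLg ?_)
    intro p q hs
    exfalso
    have hzc' : z ≠ c' := hK.nl.ne hc'K
    have hD' := hs.dist4 (hL.nl.insert hzc')
    obtain ⟨-, hzp, hzq, hcp, hcq, hpq⟩ := hD'
    have k3 : s(z, q) ∈ L := by
      have := msw hs.da
      refine (mem_insert.mp this).resolve_left fun h => hcq (sym2_inj_left h).symm
    have hq : q = t := nz q k3
    subst hq
    have k2 : s(q, p) ∈ L := by
      have := msw hs.cd
      refine (mem_insert.mp this).resolve_left fun h => ?_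
      rw [Sym2.eq_iff] at h
      rcases h with ⟨h, -⟩ | ⟨-, h⟩
      · exact hzq h.symm
      · exact hzp h.symm
    rcases nt p k2 with h | h
    · exact hzp h.symm
    · subst h
      have k1 : s(p, c') ∈ L := by
        have := msw hs.bc
        refine (mem_insert.mp this).resolve_left fun h => ?_
        rw [Sym2.eq_iff] at h
        rcases h with ⟨h, -⟩ | ⟨h, h'⟩
        · exact hzp h.symm
        · exact hcp h.symm
      rcases nc2 c' k1 with h | h
      · exact hc't h
      · exact hc'c h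
  -- case (c)
  have htc2 : s(t, c2) ∉ K := by
    intro h
    refine hbad (hKg _ _ _ _ ⟨hX.ac, hX.bd, hcK, hcK2, ?_, ?_⟩)
    · rw [Sym2.eq_swap]; exact h
    · rw [Sym2.eq_swap]; exact htK
  by_cases h5 : dv K c2 < τ c2
  · exact ⟨_, hsub2, hM2, hg2, Or.inl ⟨c2, hd2, h5⟩⟩
  push Not at h5
  have hLc2 : dg L c2 = 2 := le_antisymm (hL.le c2) (dg_ge_two m2 m1' (Ne.symm hct))
  have hτc2 : τ c2 = 2 := by
    have : dv L c2 = τ c2 - 0 := by rw [hd, Pi.sub_apply, ev_ne hzc2.symm]
    rw [dv_apply, hLc2] at this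
    push_cast at this
    omega
  have hKc2 : 2 ≤ dg K c2 := by
    rw [dv_apply, hτc2] at h5
    exact_mod_cast h5
  obtain ⟨y, hyc, hyK⟩ := exists_nbr_ne hKc2 c
  have hyt : y ≠ t := by
    rintro rfl
    rw [Sym2.eq_swap] at hyK
    exact htc2 hyK
  have hyz : y ≠ z := by
    rintro rfl
    rw [Sym2.eq_swap] at hyK
    rcases nbr_two (hK.le y) hcK htK hct hyK with h | h
    · exact hcc2 h.symm
    · exact hc2t h
  have hyc2 : c2 ≠ y := hK.nl.ne hyK
  set L2 := (insert s(z, c) L).erase s(c, c2) with hL2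
  -- membership in L2
  have inL2 : ∀ e, e ∈ L2 → e = s(z, c) ∨ (e ∈ L ∧ e ≠ s(c, c2)) := by
    intro e he
    rw [hL2, mem_erase, mem_insert] at he
    rcases he with ⟨h1, h2 | h2⟩
    · exact Or.inl h2
    · exact Or.inr ⟨h2, h1⟩
  have n2c2 : ∀ u, s(c2, u) ∈ L2 → u = t := by
    intro u hu
    rcases inL2 _ hu with h | ⟨h, h'⟩
    · rw [Sym2.eq_iff] at h
      rcases h with ⟨h, -⟩ | ⟨h, -⟩
      · exact absurd h.symm hzc2
      · exact absurd h.symm hcc2
    · rcases nc2 u h with h1 | h1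
      · exact h1
      · subst h1
        exact absurd Sym2.eq_swap h'
  have n2t : ∀ u, s(t, u) ∈ L2 → u = z ∨ u = c2 := by
    intro u hu
    rcases inL2 _ hu with h | ⟨h, -⟩
    · rw [Sym2.eq_iff] at h
      rcases h with ⟨h, -⟩ | ⟨h, -⟩
      · exact absurd h.symm hzt
      · exact absurd h.symm hct
    · exact nt u h
  have n2z : ∀ u, s(z, u) ∈ L2 → u = t ∨ u = c := by
    intro u hu
    rcases inL2 _ hu with h | ⟨h, -⟩
    · exact Or.inr (sym2_inj_left h)
    · exact Or.inl (nz u h)
  have hyL2 : s(c2, y) ∉ L2 := fun h => hyt (n2c2 y h)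
  have hg3 : Good al (insert s(c2, y) L2) := by
    refine good_insert hal hg2 ?_
    intro p q hs
    exfalso
    have hD' := hs.dist4 (hnl2.insert hyc2)
    obtain ⟨-, hap, haq, hyp, hyq, hpq⟩ := hD'
    have k3 : s(c2, q) ∈ L2 := by
      have := msw hs.da
      refine (mem_insert.mp this).resolve_left fun h => hyq (sym2_inj_left h).symm
    have hq : q = t := n2c2 q k3
    subst hq
    have k2 : s(q, p) ∈ L2 := by
      have := msw hs.cd
      refine (mem_insert.mp this).resolve_left fun h => ?_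
      rw [Sym2.eq_iff] at h
      rcases h with ⟨h, -⟩ | ⟨-, h⟩
      · exact haq h.symm
      · exact hap h.symm
    rcases n2t p k2 with h | h
    · subst h
      have k1 : s(p, y) ∈ L2 := by
        have := msw hs.bc
        refine (mem_insert.mp this).resolve_left fun h => ?_
        rw [Sym2.eq_iff] at h
        rcases h with ⟨h, -⟩ | ⟨h, -⟩
        · exact hap h.symm
        · exact hyp h.symm
      rcases n2z y k1 with h | h
      · exact hyt h
      · exact hyc h
    · exact hap h.symm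
  have e1 := card_dist_insert hcK hcL
  have e2 := card_dist_erase' hcK2 hc2mem
  rw [← hL2] at e2
  exact WConc.mono (caseA hal hK hτ ih' (by omega) hM2 hd2 hyK hyL2 hg3) hsub2

end Pool.Agent.TFC
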